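import Mathlib

/-!
# Subtraction games on one pile (normal play)

`nimValue S n` is the Sprague-Grundy value of a pile of `n` tokens in the subtraction game with
subtraction set `S`: the least natural number different from all `nimValue S (n - s)`, where `s`
runs over the (positive) elements of `S` with `s ≤ n`.
-/

namespace Pool.Agent.X68

/-- The least natural number which is not a value of an option: `mex`. -/
noncomputable def mex (A : Set ℕ) : ℕ := sInf {m : ℕ | m ∉ A}

/-- The Sprague-Grundy value of a pile of `n` tokens in the subtraction game with set `S`. -/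
noncomputable def nimValue (S : Finset ℕ) (n : ℕ) : ℕ :=
  mex {m : ℕ | ∃ s, ∃ _ : s ∈ S ∧ 0 < s ∧ s ≤ n, nimValue S (n - s) = m}
termination_by n
decreasing_by omega

theorem mex_eq {A : Set ℕ} {m : ℕ} (h1 : m ∉ A) (h2 : ∀ k < m, k ∈ A) : mex A = m := by
  unfold mex
  apply le_antisymm
  · exact Nat.sInf_le h1
  · apply le_csInf ⟨m, h1⟩
    intro b hb
    by_contra hlt
    exact hb (h2 b (not_le.mp hlt))

/-- The recursion defining the Sprague-Grundy values. -/
theorem nimValue_rec (S : Finset ℕ) (n : ℕ) :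
    nimValue S n = mex {m : ℕ | ∃ s ∈ S, 0 < s ∧ s ≤ n ∧ nimValue S (n - s) = m} := by
  rw [nimValue]
  congr 1
  ext m
  constructor
  · rintro ⟨s, ⟨h1, h2, h3⟩, h4⟩
    exact ⟨s, h1, h2, h3, h4⟩
  · rintro ⟨s, h1, h2, h3, h4⟩
    exact ⟨s, ⟨h1, h2, h3⟩, h4⟩

/-- A sequence satisfying the `mex` recursion is the nim-sequence. -/
theorem nimValue_eq_of_rec (S : Finset ℕ) (f : ℕ → ℕ)
    (h1 : ∀ n, ∀ s ∈ S, 0 < s → s ≤ n → f (n - s) ≠ f n)
    (h2 : ∀ n, ∀ k < f n, ∃ s ∈ S, 0 < s ∧ s ≤ n ∧ f (n - s) = k) (n : ℕ) :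
    nimValue S n = f n := by
  induction n using Nat.strong_induction_on with
  | _ n ih =>
    rw [nimValue_rec]
    apply mex_eq
    · rintro ⟨s, hs, h0, hn, he⟩
      rw [ih (n - s) (by omega)] at he
      exact h1 n s hs h0 hn he
    · intro k hk
      obtain ⟨s, hs, h0, hn, he⟩ := h2 n k hk
      exact ⟨s, hs, h0, hn, by rw [ih (n - s) (by omega)]; exact he⟩

/-- `p` is the (least) period of the ultimately periodic sequence `a`. -/
def IsUltimatePeriod (a : ℕ → ℕ) (p : ℕ) : Prop :=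
  IsLeast {q : ℕ | 1 ≤ q ∧ ∃ n₀ : ℕ, ∀ n ≥ n₀, a (n + q) = a n} p

end Pool.Agent.X68
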