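import Mathlib

/-! Group ideals on a countable Boolean group in which every unbounded set is large (under CH). -/

namespace Pool.Agent.X68.GroupIdealCH

open Set Pointwise

variable {G : Type} [CommGroup G]

/-- closure properties of a group ideal, properness not required -/
structure Closed (J : Set (Set G)) : Prop where
  sub : ∀ A ∈ J, ∀ B, B ⊆ A → B ∈ J
  un : ∀ A ∈ J, ∀ B ∈ J, A ∪ B ∈ J
  fin : ∀ A : Set G, A.Finite → A ∈ J
  mul : ∀ A ∈ J, ∀ B ∈ J, A * B⁻¹ ∈ J

/-- membership in the least closed family containing `S` -/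
def Gen (S : Set (Set G)) (A : Set G) : Prop :=
  ∀ J : Set (Set G), Closed J → S ⊆ J → A ∈ J

theorem gen_closed (S : Set (Set G)) : Closed {A | Gen S A} where
  sub := fun A hA B hBA J hJ hS => hJ.sub A (hA J hJ hS) B hBA
  un := fun A hA B hB J hJ hS => hJ.un A (hA J hJ hS) B (hB J hJ hS)
  fin := fun A hA J hJ _ => hJ.fin A hA
  mul := fun A hA B hB J hJ hS => hJ.mul A (hA J hJ hS) B (hB J hJ hS)

theorem gen_base {S : Set (Set G)} {A : Set G} (h : A ∈ S) : Gen S A :=
  fun _ _ hS => hS h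

theorem gen_trans {S T : Set (Set G)} (h : ∀ A ∈ S, Gen T A) {A : Set G} (hA : Gen S A) :
    Gen T A := hA {A | Gen T A} (gen_closed T) h

theorem gen_mono {S T : Set (Set G)} (h : S ⊆ T) {A : Set G} (hA : Gen S A) : Gen T A :=
  gen_trans (fun _ hB => gen_base (h hB)) hA

theorem gen_fin {S : Set (Set G)} {A : Set G} (hA : Gen S A) :
    ∃ T ⊆ S, T.Finite ∧ Gen T A := by
  refine hA {A | ∃ T ⊆ S, T.Finite ∧ Gen T A} ⟨?_, ?_, ?_, ?_⟩ ?_
  · rintro A ⟨T, hT, hf, hg⟩ B hB
    exact ⟨T, hT, hf, (gen_closed T).sub A hg B hB⟩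
  · rintro A ⟨T, hT, hf, hg⟩ B ⟨T', hT', hf', hg'⟩
    exact ⟨T ∪ T', union_subset hT hT', hf.union hf',
      (gen_closed (T ∪ T')).un A (gen_mono subset_union_left hg) B
        (gen_mono subset_union_right hg')⟩
  · intro A hA
    exact ⟨∅, empty_subset _, finite_empty, (gen_closed ∅).fin A hA⟩
  · rintro A ⟨T, hT, hf, hg⟩ B ⟨T', hT', hf', hg'⟩
    exact ⟨T ∪ T', union_subset hT hT', hf.union hf',
      (gen_closed (T ∪ T')).mul A (gen_mono subset_union_left hg) B
        (gen_mono subset_union_right hg')⟩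
  · intro A hA
    exact ⟨{A}, by simpa using hA, finite_singleton A, gen_base rfl⟩

theorem gen_insert_empty {S : Set (Set G)} {A : Set G} (hA : Gen (insert ∅ S) A) : Gen S A := by
  refine gen_trans ?_ hA
  rintro B (rfl | hB)
  · exact (gen_closed S).fin ∅ finite_empty
  · exact gen_base hB

theorem not_gen_empty [Infinite G] : ¬ Gen (∅ : Set (Set G)) univ := by
  intro h
  have := h {A | A.Finite} ⟨?_, ?_, ?_, ?_⟩ (by simp)
  · exact infinite_univ this
  · intro A hA B hB
    exact Set.Finite.subset hA hB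
  · intro A hA B hB
    exact Set.Finite.union hA hB
  · intro A hA
    exact hA
  · intro A hA B hB
    exact Set.Finite.mul hA (Set.Finite.inv hB)

variable (h2 : ∀ x : G, x * x = 1)
include h2

theorem inv_self (x : G) : x⁻¹ = x := inv_eq_of_mul_eq_one_right (h2 x)

theorem inv_set (A : Set G) : A⁻¹ = A := by
  ext x
  simp [inv_self h2 x]

/-- a countable family has a nice increasing cofinal sequence -/
theorem seqA [Countable G] {S : Set (Set G)} (hS : S.Countable) :
    ∃ A : ℕ → Set G, (∀ k, (1 : G) ∈ A k) ∧ (∀ k, A k * A k ⊆ A (k + 1)) ∧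
      (∀ k, Gen S (A k)) ∧ (∀ C, Gen S C → ∃ k, C ⊆ A k) := by
  obtain ⟨f, hf⟩ : ∃ f : ℕ → Set G, insert ∅ S = range f :=
    (hS.insert ∅).exists_eq_range (insert_nonempty _ _)
  have hfG : ∀ k, Gen S (f k) := by
    intro k
    have : f k ∈ insert ∅ S := by rw [hf]; exact mem_range_self k
    rcases this with h | h
    · rw [h]; exact (gen_closed S).fin ∅ finite_empty
    · exact gen_base h
  obtain ⟨g, hg⟩ := exists_surjective_nat G
  let A : ℕ → Set G := fun k => Nat.rec ({1} ∪ (f 0 ∪ {g 0}))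
    (fun k P => P * P ∪ (f (k + 1) ∪ {g (k + 1)})) k
  have hA0 : A 0 = {1} ∪ (f 0 ∪ {g 0}) := rfl
  have hAs : ∀ k, A (k + 1) = A k * A k ∪ (f (k + 1) ∪ {g (k + 1)}) := fun k => rfl
  have h1 : ∀ k, (1 : G) ∈ A k := by
    intro k
    induction k with
    | zero => rw [hA0]; left; rfl
    | succ k ih => rw [hAs]; left; exact ⟨1, ih, 1, ih, by simp⟩
  have hm : ∀ k, A k * A k ⊆ A (k + 1) := by
    intro k; rw [hAs]; exact subset_union_left
  have hstep : ∀ k, A k ⊆ A (k + 1) := by
    intro k x hx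
    exact hm k ⟨x, hx, 1, h1 k, by simp⟩
  have hmono : Monotone A := monotone_nat_of_le_succ hstep
  have hgen : ∀ k, Gen S (A k) := by
    intro k
    induction k with
    | zero =>
      rw [hA0]
      exact (gen_closed S).un _ ((gen_closed S).fin _ (finite_singleton _)) _
        ((gen_closed S).un _ (hfG 0) _ ((gen_closed S).fin _ (finite_singleton _)))
    | succ k ih =>
      rw [hAs]
      refine (gen_closed S).un _ ?_ _
        ((gen_closed S).un _ (hfG _) _ ((gen_closed S).fin _ (finite_singleton _)))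
      have := (gen_closed S).mul _ ih _ ih
      rwa [inv_set h2] at this
  have hfA : ∀ k, f k ⊆ A k := by
    intro k
    cases k with
    | zero => rw [hA0]; exact subset_union_left.trans subset_union_right
    | succ k => rw [hAs]; exact subset_union_left.trans subset_union_right
  have hgA : ∀ k, g k ∈ A k := by
    intro k
    cases k with
    | zero => rw [hA0]; right; right; rfl
    | succ k => rw [hAs]; right; right; rfl
  refine ⟨A, h1, hm, hgen, fun C hC => ?_⟩
  refine hC {C | ∃ k, C ⊆ A k} ⟨?_, ?_, ?_, ?_⟩ ?_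
  · rintro C ⟨k, hk⟩ D hD
    exact ⟨k, hD.trans hk⟩
  · rintro C ⟨k, hk⟩ D ⟨l, hl⟩
    exact ⟨max k l, union_subset (hk.trans (hmono (le_max_left _ _)))
      (hl.trans (hmono (le_max_right _ _)))⟩
  · intro C hC
    refine Set.Finite.induction_on C hC ⟨0, empty_subset _⟩ ?_
    rintro a D _ _ ⟨k, hk⟩
    obtain ⟨l, rfl⟩ := hg a
    refine ⟨max k l, insert_subset (hmono (le_max_right _ _) (hgA l))
      (hk.trans (hmono (le_max_left _ _)))⟩
  · rintro C ⟨k, hk⟩ D ⟨l, hl⟩
    refine ⟨max k l + 1, ?_⟩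
    rw [inv_set h2]
    exact (Set.mul_subset_mul (hk.trans (hmono (le_max_left _ _)))
      (hl.trans (hmono (le_max_right _ _)))).trans (hm _)
  · intro C hC
    have : C ∈ range f := by rw [← hf]; exact Or.inr hC
    obtain ⟨k, rfl⟩ := this
    exact ⟨k, hfA k⟩

/-- products over finite sets multiply by symmetric difference; only the size is recorded -/
theorem prod_mul_prod (b : ℕ → G) (F1 F2 : Finset ℕ) :
    ∃ F : Finset ℕ, F.card ≤ F1.card + F2.card ∧
      ∏ k ∈ F, b k = (∏ k ∈ F1, b k) * ∏ k ∈ F2, b k := by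
  classical
  induction F2 using Finset.induction_on with
  | empty => exact ⟨F1, by simp, by simp⟩
  | insert a s ha ih =>
    obtain ⟨F, hF, hp⟩ := ih
    rw [Finset.prod_insert ha, Finset.card_insert_of_notMem ha]
    by_cases haF : a ∈ F
    · refine ⟨F.erase a, ?_, ?_⟩
      · exact (Finset.card_erase_le).trans (by omega)
      · have h3 := Finset.mul_prod_erase F b haF
        rw [mul_left_comm, ← hp, ← h3, ← mul_assoc, h2, one_mul]
    · refine ⟨insert a F, ?_, ?_⟩
      · rw [Finset.card_insert_of_notMem haF]; omega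
      · rw [Finset.prod_insert haF, hp, mul_left_comm]

/-- the extension step -/
theorem step [Countable G] {S : Set (Set G)} (hS : S.Countable)
    (hp : ¬ Gen S univ) (X : Set G) (hX : ¬ Gen S X) :
    ∃ B : Set G, ¬ Gen (insert B S) univ ∧ B * X = univ ∧ ¬ Gen S B := by
  classical
  obtain ⟨A, h1, hm, hgen, hcof⟩ := seqA h2 hS
  have hstep : ∀ k, A k ⊆ A (k + 1) := by
    intro k x hx
    exact hm k ⟨x, hx, 1, h1 k, by simp⟩
  have hmono : Monotone A := monotone_nat_of_le_succ hstep
  have hlev : ∀ x : G, ∃ k, x ∈ A k := by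
    intro x
    obtain ⟨k, hk⟩ := hcof {x} ((gen_closed S).fin _ (finite_singleton x))
    exact ⟨k, hk rfl⟩
  choose lev hlev using hlev
  obtain ⟨g, hg⟩ := exists_surjective_nat G
  have hc1 : ∀ M k : ℕ, ∃ e : G, e ∉ A M ∧ ∃ x ∈ X, e * x = g k := by
    intro M k
    have : ¬ X ⊆ A (max M (lev (g k)) + 1) := by
      intro h
      exact hX ((gen_closed S).sub _ (hgen _) _ h)
    obtain ⟨x, hxX, hx⟩ := not_subset.1 this
    refine ⟨g k * x, ?_, x, hxX, by rw [mul_assoc, h2, mul_one]⟩
    intro h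
    apply hx
    apply hm
    refine ⟨g k, hmono (le_max_right _ _) (hlev _), g k * x, hmono (le_max_left _ _) h, ?_⟩
    simp only [← mul_assoc, h2, one_mul]
  have hc2 : ∀ M : ℕ, ∃ w : G, w ∉ A M := by
    intro M
    by_contra h
    push Not at h
    apply hp
    have : A M = univ := eq_univ_of_forall h
    rw [← this]; exact hgen M
  choose c1 hc1a hc1b using hc1
  choose c2 hc2 using hc2
  let M1 : ℕ → ℕ → ℕ := fun k L => max L (lev (c1 (L + 2 * k + 5) k))
  let nxt : ℕ → ℕ → ℕ := fun k L => max (M1 k L) (lev (c2 (M1 k L + 2 * k + 5)))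
  let L : ℕ → ℕ := fun k => Nat.rec 0 nxt k
  have hLs : ∀ k, L (k + 1) = nxt k (L k) := fun k => rfl
  let M : ℕ → ℕ := fun k => M1 k (L k)
  let b : ℕ → G := fun k => c1 (L k + 2 * k + 5) k
  let w : ℕ → G := fun k => c2 (M k + 2 * k + 5)
  have hbM : ∀ k, b k ∈ A (M k) := fun k => hmono (le_max_right _ _) (hlev _)
  have hbn : ∀ k, b k ∉ A (L k + 2 * k + 5) := fun k => hc1a _ _
  have hwL : ∀ k, w k ∈ A (L (k + 1)) := fun k => hmono (le_max_right _ _) (hlev _)
  have hwn : ∀ k, w k ∉ A (M k + 2 * k + 5) := fun k => hc2 _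
  have hLM : ∀ k, L k ≤ M k := fun k => le_max_left _ _
  have hML : ∀ k, M k ≤ L (k + 1) := fun k => le_max_left _ _
  have hLmono : Monotone L := monotone_nat_of_le_succ fun k => (hLM k).trans (hML k)
  have hMmono : Monotone M := monotone_nat_of_le_succ fun k => (hML k).trans (hLM (k + 1))
  have hprod : ∀ (F : Finset ℕ) (N : ℕ), (∀ j ∈ F, b j ∈ A N) →
      ∏ j ∈ F, b j ∈ A (N + F.card) := by
    intro F N
    induction F using Finset.induction_on with
    | empty => intro _; simpa using h1 N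
    | insert a s ha ih =>
      intro h
      rw [Finset.prod_insert ha, Finset.card_insert_of_notMem ha, ← add_assoc]
      apply hm
      exact ⟨b a, hmono (Nat.le_add_right _ _) (h a (Finset.mem_insert_self _ _)), _,
        ih fun j hj => h j (Finset.mem_insert_of_mem hj), rfl⟩
  refine ⟨range b, ?_, ?_, ?_⟩
  · intro hgenB
    have hrep : ∃ n i : ℕ, ∀ c ∈ (univ : Set G), ∃ a ∈ A i, ∃ F : Finset ℕ,
        F.card ≤ n ∧ c = a * ∏ k ∈ F, b k := by
      refine hgenB {C | ∃ n i : ℕ, ∀ c ∈ C, ∃ a ∈ A i, ∃ F : Finset ℕ,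
        F.card ≤ n ∧ c = a * ∏ k ∈ F, b k} ⟨?_, ?_, ?_, ?_⟩ ?_
      · rintro C ⟨n, i, h⟩ D hD
        exact ⟨n, i, fun c hc => h c (hD hc)⟩
      · rintro C ⟨n, i, h⟩ D ⟨n', i', h'⟩
        refine ⟨max n n', max i i', ?_⟩
        rintro c (hc | hc)
        · obtain ⟨a, ha, F, hF, e⟩ := h c hc
          exact ⟨a, hmono (le_max_left _ _) ha, F, hF.trans (le_max_left _ _), e⟩
        · obtain ⟨a, ha, F, hF, e⟩ := h' c hc
          exact ⟨a, hmono (le_max_right _ _) ha, F, hF.trans (le_max_right _ _), e⟩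
      · intro C hC
        obtain ⟨k, hk⟩ := hcof C ((gen_closed S).fin _ hC)
        exact ⟨0, k, fun c hc => ⟨c, hk hc, ∅, by simp, by simp⟩⟩
      · rintro C ⟨n, i, h⟩ D ⟨n', i', h'⟩
        refine ⟨n + n', max i i' + 1, ?_⟩
        rintro c ⟨c1, hc1, d1, hd1, rfl⟩
        obtain ⟨a, ha, F, hF, e⟩ := h c1 hc1
        obtain ⟨a', ha', F', hF', e'⟩ := h' d1⁻¹ hd1
        rw [inv_self h2] at e'
        obtain ⟨F'', hF'', e''⟩ := prod_mul_prod h2 b F F'
        refine ⟨a * a', hm _ ⟨a, hmono (le_max_left _ _) ha, a',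
          hmono (le_max_right _ _) ha', rfl⟩, F'', by omega, ?_⟩
        simp only
        rw [e, e', e'', mul_mul_mul_comm]
      · rintro C (rfl | hC)
        · refine ⟨1, 0, ?_⟩
          rintro c ⟨k, rfl⟩
          exact ⟨1, h1 0, {k}, by simp, by simp⟩
        · obtain ⟨k, hk⟩ := hcof C (gen_base hC)
          exact ⟨0, k, fun c hc => ⟨c, hk hc, ∅, by simp, by simp⟩⟩
    obtain ⟨n, i, h⟩ := hrep
    obtain ⟨a, ha, F, hF, e⟩ := h (w (n + i)) (mem_univ _)
    by_cases hcase : ∀ j ∈ F, j ≤ n + i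
    · have h3 : ∏ j ∈ F, b j ∈ A (M (n + i) + n + i) :=
        hmono (by omega) (hprod F (M (n + i)) fun j hj => hmono (hMmono (hcase j hj)) (hbM j))
      have h4 : w (n + i) ∈ A (M (n + i) + n + i + 1) := by
        rw [e]
        exact hm _ ⟨a, hmono (by omega) ha, _, h3, rfl⟩
      exact hwn (n + i) (hmono (by omega) h4)
    · push Not at hcase
      obtain ⟨j, hj, hjn⟩ := hcase
      have hne : F.Nonempty := ⟨j, hj⟩
      have hmm : F.max' hne ∈ F := F.max'_mem hne
      set m := F.max' hne with hmdef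
      have hjm : j ≤ m := F.le_max' j hj
      have hrest : ∏ l ∈ F.erase m, b l ∈ A (L m + n) := by
        have h5 : ∀ l ∈ F.erase m, b l ∈ A (L m) := by
          intro l hl
          have hlm : l < m := by
            have hl' := Finset.mem_erase.1 hl
            have := F.le_max' l hl'.2
            exact lt_of_le_of_ne this hl'.1
          exact hmono ((hML l).trans (hLmono hlm)) (hbM l)
        have h6 := hprod (F.erase m) (L m) h5
        refine hmono ?_ h6
        have := Finset.card_erase_le (s := F) (a := m)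
        omega
      have hw : w (n + i) ∈ A (L m + n + i) := by
        refine hmono ?_ (hwL (n + i))
        have : L (n + i + 1) ≤ L m := hLmono (show n + i + 1 ≤ m by omega)
        omega
      have hb : b m = w (n + i) * a * ∏ l ∈ F.erase m, b l := by
        have h7 := Finset.mul_prod_erase F b hmm
        rw [e, ← h7]
        have : a * (b m * ∏ l ∈ F.erase m, b l) * a * ∏ l ∈ F.erase m, b l =
          (a * a) * b m * ((∏ l ∈ F.erase m, b l) * ∏ l ∈ F.erase m, b l) := by
          ac_rfl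
        rw [this, h2, h2, one_mul, mul_one]
      have h8 : w (n + i) * a ∈ A (L m + n + i + 1) :=
        hm _ ⟨_, hw, a, hmono (by omega) ha, rfl⟩
      have h9 : b m ∈ A (L m + n + i + 1 + 1) := by
        rw [hb]
        exact hm _ ⟨_, h8, _, hmono (by omega) hrest, rfl⟩
      exact hbn m (hmono (by omega) h9)
  · refine eq_univ_of_forall fun y => ?_
    obtain ⟨k, rfl⟩ := hg y
    obtain ⟨x, hx, hxe⟩ := hc1b (L k + 2 * k + 5) k
    exact ⟨b k, mem_range_self k, x, hx, hxe⟩
  · intro h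
    obtain ⟨k, hk⟩ := hcof _ h
    exact hbn k (hmono (by omega) (hk (mem_range_self k)))

/-- Under CH: a proper family whose generated ideal makes every unbounded set large. -/
theorem exists_family [Countable G] [Infinite G] (hCH : (Cardinal.continuum : Cardinal.{0}) = Cardinal.aleph 1) :
    ∃ S : Set (Set G), ¬ Gen S univ ∧ ∀ X : Set G, ¬ Gen S X → ∃ B, Gen S B ∧ B * X = univ := by
  classical
  have hcard : Cardinal.mk (Set G) = Cardinal.aleph 1 := by
    rw [Cardinal.mk_set, Cardinal.mk_eq_aleph0 G, Cardinal.two_power_aleph0, hCH]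
  obtain ⟨lo, wf, hord⟩ := Cardinal.exists_ord_eq_type_lt (Set G)
  have hcount : ∀ X : Set G, {Y | lo.lt Y X}.Countable := by
    intro X
    rw [← Cardinal.le_aleph0_iff_set_countable, ← Cardinal.lt_aleph_one_iff, ← hcard]
    exact Cardinal.mk_Iio_lt X hord
  let good : Set (Set G) → Set G → Set G → Prop := fun S X B =>
    ¬ Gen (insert B S) univ ∧ (Gen S X ∨ B * X = univ)
  let new : Set (Set G) → Set G → Set G := fun S X =>
    if h : ∃ B, good S X B then h.choose else ∅
  have hnew : ∀ S X, (∃ B, good S X B) → good S X (new S X) := by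
    intro S X h
    simp only [new, dif_pos h]
    exact h.choose_spec
  let B : Set G → Set G := wf.wf.fix
    (fun X ih => new {T | ∃ Y, ∃ h : lo.lt Y X, T = ih Y h} X)
  let fam : Set G → Set (Set G) := fun X => {T | ∃ Y, lo.lt Y X ∧ T = B Y}
  have hB : ∀ X, B X = new (fam X) X := by
    intro X
    have := wf.wf.fix_eq (fun X (ih : ∀ Y, lo.lt Y X → Set G) =>
      new {T | ∃ Y, ∃ h : lo.lt Y X, T = ih Y h} X) X
    have h3 : fam X = {T | ∃ Y, ∃ _ : lo.lt Y X, T = B Y} := by
      ext T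
      simp [fam]
    rw [h3]
    exact this
  have hfamc : ∀ X, (fam X).Countable := by
    intro X
    have : fam X = B '' {Y | lo.lt Y X} := by
      ext T
      simp only [fam, mem_setOf_eq, mem_image]
      constructor
      · rintro ⟨Y, h, rfl⟩; exact ⟨Y, h, rfl⟩
      · rintro ⟨Y, h, rfl⟩; exact ⟨Y, h, rfl⟩
    rw [this]
    exact (hcount X).image B
  -- finite subsets of unions
  have hfinsub : ∀ (P : Set (Set G)) (T : Set (Set G)), T.Finite → T ⊆ {U | ∃ Y ∈ P, U = B Y} →
      T = ∅ ∨ ∃ Y ∈ P, T ⊆ insert (B Y) (fam Y) := by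
    intro P T hT
    refine Set.Finite.induction_on T hT (fun _ => Or.inl rfl) ?_
    intro a T _ _ ih h
    right
    obtain ⟨Y, hY, rfl⟩ := h (mem_insert _ _)
    rcases ih ((subset_insert _ _).trans h) with rfl | ⟨Z, hZ, hTZ⟩
    · exact ⟨Y, hY, by simp⟩
    · rcases lo.le_total Y Z with h4 | h4
      · refine ⟨Z, hZ, insert_subset ?_ hTZ⟩
        rcases @eq_or_lt_of_le _ lo.toPartialOrder _ _ h4 with h5 | h5
        · rw [h5]; exact mem_insert _ _
        · exact Or.inr ⟨Y, h5, rfl⟩
      · refine ⟨Y, hY, insert_subset (mem_insert _ _) (hTZ.trans ?_)⟩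
        rcases @eq_or_lt_of_le _ lo.toPartialOrder _ _ h4 with h5 | h5
        · rw [h5]
        · refine insert_subset (Or.inr ⟨Z, h5, rfl⟩) ?_
          rintro U ⟨V, hV, rfl⟩
          exact Or.inr ⟨V, @lt_trans _ lo.toPartialOrder.toPreorder _ _ _ hV h5, rfl⟩
  have hproper : ∀ X, good (fam X) X (B X) := by
    intro X
    induction X using wf.wf.induction with
    | _ X ih =>
      have hpX : ¬ Gen (fam X) univ := by
        intro h
        obtain ⟨T, hT, hTf, hTg⟩ := gen_fin h
        rcases hfinsub {Y | lo.lt Y X} T hTf hT with rfl | ⟨Y, hY, hTY⟩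
        · exact not_gen_empty hTg
        · exact (ih Y hY).1 (gen_mono hTY hTg)
      rw [hB]
      apply hnew
      by_cases hX : Gen (fam X) X
      · exact ⟨∅, fun h => hpX (gen_insert_empty h), Or.inl hX⟩
      · obtain ⟨C, hC1, hC2, _⟩ := step h2 (hfamc X) hpX X hX
        exact ⟨C, hC1, Or.inr hC2⟩
  refine ⟨{U | ∃ Y ∈ (univ : Set (Set G)), U = B Y}, ?_, ?_⟩
  · intro h
    obtain ⟨T, hT, hTf, hTg⟩ := gen_fin h
    rcases hfinsub univ T hTf hT with rfl | ⟨Y, hY, hTY⟩
    · exact not_gen_empty hTg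
    · exact (hproper Y).1 (gen_mono hTY hTg)
  · intro X hX
    refine ⟨B X, gen_base ⟨X, mem_univ _, rfl⟩, ?_⟩
    rcases (hproper X).2 with h | h
    · exfalso
      apply hX
      refine gen_mono ?_ h
      rintro U ⟨Y, _, rfl⟩
      exact ⟨Y, mem_univ _, rfl⟩
    · exact h

end Pool.Agent.X68.GroupIdealCH
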