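import Mathlib
import Pool.Prelude.Def_F_8db9d53c

/-!
# Cop number of graphs of girth at least five (Aigner and Fromme)

If a graph has neither triangles nor 4-cycles and every vertex has at least `d` neighbours,
then fewer than `d` cops do not win.
-/

namespace Pool.Agent.X68

open N6ef48c04

variable {V : Type*}

/-- No triangle and no 4-cycle. -/
def NoShortCycle (G : SimpleGraph V) : Prop :=
  (∀ u v w, G.Adj u v → G.Adj v w → ¬ G.Adj u w) ∧
  (∀ u v x y, u ≠ v → G.Adj u x → G.Adj v x → G.Adj u y → G.Adj v y → x = y)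

/-- Every vertex has at least `d` neighbours. -/
def MinDeg (G : SimpleGraph V) (d : ℕ) : Prop :=
  ∀ v, ∃ f : Fin d → V, Function.Injective f ∧ ∀ i, G.Adj v (f i)

theorem escape {G : SimpleGraph V} (hG : NoShortCycle G) {d k : ℕ} (hd : MinDeg G d)
    (hk : k < d) (c : Fin k → V) (r : V) (hr : ∀ i, c i ≠ r) :
    ∃ r', G.Adj r r' ∧ ∀ i, c i ≠ r' ∧ ¬ G.Adj (c i) r' := by
  obtain ⟨f, hf, hadj⟩ := hd r
  by_contra hcon
  push Not at hcon
  have hch : ∀ j : Fin d, ∃ i : Fin k, c i = f j ∨ G.Adj (c i) (f j) := by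
    intro j
    obtain ⟨i, hi⟩ := hcon (f j) (hadj j)
    refine ⟨i, ?_⟩
    by_cases h : c i = f j
    · exact Or.inl h
    · exact Or.inr (hi h)
  choose g hg using hch
  have hninj : ¬ Function.Injective g := by
    intro hinj
    have := Fintype.card_le_of_injective g hinj
    simp only [Fintype.card_fin] at this
    omega
  simp only [Function.Injective, not_forall] at hninj
  obtain ⟨j, j', hjj, hne⟩ := hninj
  have h1 := hg j
  have h2 := hg j'
  rw [← hjj] at h2
  have hff : f j ≠ f j' := fun h => hne (hf h)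
  rcases h1 with h1 | h1
  · rcases h2 with h2 | h2
    · exact hff (h1.symm.trans h2)
    · rw [h1] at h2
      exact hG.1 _ _ _ (hadj j) h2 (hadj j')
  · rcases h2 with h2 | h2
    · rw [h2] at h1
      exact hG.1 _ _ _ (hadj j') h1 (hadj j)
    · exact hff (hG.2 _ _ _ _ (hr _) h1 (hadj j) h2 (hadj j'))

theorem not_catch {G : SimpleGraph V} (hG : NoShortCycle G) {d k : ℕ} (hd : MinDeg G d)
    (hk : k < d) (m : ℕ) : ∀ (c : Fin k → V) (r : V), (∀ i, c i ≠ r ∧ ¬ G.Adj (c i) r) →
      ¬ CopsCatchWithin G k m c r := by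
  induction m with
  | zero =>
    rintro c r hs ⟨i, hi⟩
    exact (hs i).1 hi
  | succ m ih =>
    rintro c r hs (⟨i, hi⟩ | ⟨c', hstep, h | h⟩)
    · exact (hs i).1 hi
    · obtain ⟨i, hi⟩ := h
      rcases hstep i with he | he
      · exact (hs i).1 (he.trans hi)
      · rw [hi] at he
        exact (hs i).2 he
    · have hr : ∀ i, c' i ≠ r := by
        intro i hi
        rcases hstep i with he | he
        · exact (hs i).1 (he.trans hi)
        · rw [hi] at he
          exact (hs i).2 he
      obtain ⟨r', hadj, hsafe⟩ := escape hG hd hk c' r hr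
      exact ih c' r' hsafe (h r' (Or.inr hadj))

theorem not_copsWin [Nonempty V] {G : SimpleGraph V} (hG : NoShortCycle G) {d k : ℕ}
    (hd : MinDeg G d) (hk : k < d) : ¬ CopsWin G k := by
  rintro ⟨c, hc⟩
  obtain ⟨v⟩ := (inferInstance : Nonempty V)
  obtain ⟨f, hf, -⟩ := hd v
  have : ∃ u : V, ∀ i, c i ≠ u := by
    by_contra hcon
    push Not at hcon
    choose g hg using fun j : Fin d => hcon (f j)
    have hinj : Function.Injective g := by
      intro a b hab
      apply hf
      rw [← hg a, ← hg b, hab]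
    have := Fintype.card_le_of_injective g hinj
    simp only [Fintype.card_fin] at this
    omega
  obtain ⟨u, hu⟩ := this
  obtain ⟨r, -, hsafe⟩ := escape hG hd hk c u hu
  obtain ⟨m, hm⟩ := hc r
  exact not_catch hG hd hk m c r hsafe hm

theorem copsWin_card [Fintype V] (G : SimpleGraph V) : CopsWin G (Fintype.card V) := by
  refine ⟨(Fintype.equivFin V).symm, fun r => ⟨0, Fintype.equivFin V r, ?_⟩⟩
  simp

theorem le_copNumber [Fintype V] [Nonempty V] {G : SimpleGraph V} (hG : NoShortCycle G) {d : ℕ}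
    (hd : MinDeg G d) : d ≤ copNumber G := by
  unfold copNumber
  have hne : {k | CopsWin G k}.Nonempty := ⟨_, copsWin_card G⟩
  apply le_csInf hne
  intro k hk
  have hk' : CopsWin G k := hk
  by_contra hlt
  exact not_copsWin hG hd (not_le.mp hlt) hk'

end Pool.Agent.X68
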