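import Mathlib

/-!
# Realizers of the multi-way isoperimetric constant of vertex-transitive graphs

Averaging arguments for a finite group acting transitively on the vertices of a finite graph.
-/

set_option linter.unusedSectionVars false

open Finset Pointwise

namespace X68.Iso

variable {V : Type*} [Fintype V] [DecidableEq V] (Γ : SimpleGraph V) [DecidableRel Γ.Adj]

/-- ordered adjacent pairs (u,w) with `u ∈ A`, `w ∉ A` -/
def bdp (A : Finset V) : Finset (V × V) :=
  univ.filter fun p => p.1 ∈ A ∧ p.2 ∉ A ∧ Γ.Adj p.1 p.2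

def bd (A : Finset V) : ℕ := (bdp Γ A).card

lemma mem_bdp {A : Finset V} {p : V × V} :
    p ∈ bdp Γ A ↔ p.1 ∈ A ∧ p.2 ∉ A ∧ Γ.Adj p.1 p.2 := by
  simp [bdp]

lemma bd_inter_le (S T : Finset V) : bd Γ (S ∩ T) ≤ bd Γ S + bd Γ T := by
  unfold bd
  refine le_trans (card_le_card ?_) (card_union_le _ _)
  intro p hp
  rw [mem_bdp] at hp
  rw [mem_union, mem_bdp, mem_bdp]
  obtain ⟨h1, h2, h3⟩ := hp
  rw [mem_inter] at h1 h2
  by_cases hS : p.2 ∈ S
  · right
    exact ⟨h1.2, fun h => h2 ⟨hS, h⟩, h3⟩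
  · left
    exact ⟨h1.1, hS, h3⟩

lemma bd_compl (S : Finset V) : bd Γ Sᶜ = bd Γ S := by
  unfold bd
  refine card_bij (fun p _ => (p.2, p.1)) ?_ ?_ ?_
  · intro p hp
    rw [mem_bdp] at hp ⊢
    simp only [mem_compl, not_not] at hp ⊢
    exact ⟨hp.2.1, hp.1, hp.2.2.symm⟩
  · intro p _ q _ h
    simp only [Prod.mk.injEq] at h
    exact Prod.ext h.2 h.1
  · intro p hp
    refine ⟨(p.2, p.1), ?_, rfl⟩
    rw [mem_bdp] at hp ⊢
    simp only [mem_compl, not_not] at hp ⊢
    exact ⟨hp.2.1, hp.1, hp.2.2.symm⟩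

lemma bd_sdiff_le (S T : Finset V) : bd Γ (S \ T) ≤ bd Γ S + bd Γ T := by
  have h := bd_inter_le Γ S Tᶜ
  rw [bd_compl] at h
  rwa [sdiff_eq_inter_compl]

/-- number of adjacent ordered pairs from M to M' -/
def ee (M M' : Finset V) : ℕ :=
  (univ.filter fun p : V × V => p.1 ∈ M ∧ p.2 ∈ M' ∧ Γ.Adj p.1 p.2).card

variable {G : Type*} [Group G] [Fintype G] [MulAction G V]

lemma bd_smul (hadj : ∀ (g : G) u v, Γ.Adj (g • u) (g • v) ↔ Γ.Adj u v) (g : G) (A : Finset V) :
    bd Γ (g • A) = bd Γ A := by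
  unfold bd
  symm
  refine card_bij (fun p _ => (g • p.1, g • p.2)) ?_ ?_ ?_
  · intro p hp
    rw [mem_bdp] at hp ⊢
    simp only [smul_mem_smul_finset_iff]
    exact ⟨hp.1, hp.2.1, (hadj g _ _).2 hp.2.2⟩
  · intro p _ q _ h
    simp only [Prod.mk.injEq] at h
    exact Prod.ext (MulAction.injective g h.1) (MulAction.injective g h.2)
  · intro p hp
    refine ⟨(g⁻¹ • p.1, g⁻¹ • p.2), ?_, ?_⟩
    · rw [mem_bdp] at hp ⊢
      simp only [inv_smul_mem_iff]
      exact ⟨hp.1, hp.2.1, (hadj g⁻¹ _ _).2 hp.2.2⟩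
    · simp

/-- the number of group elements mapping u to z -/
lemma card_map (htr : ∀ u v : V, ∃ g : G, g • u = v) (u z z' : V) :
    (univ.filter fun g : G => g • u = z).card = (univ.filter fun g : G => g • u = z').card := by
  obtain ⟨k, hk⟩ := htr z z'
  refine card_bij (fun g _ => k * g) ?_ ?_ ?_
  · intro g hg
    simp only [mem_filter, mem_univ, true_and] at hg ⊢
    rw [mul_smul, hg, hk]
  · intro g _ g' _ h
    exact mul_left_cancel h
  · intro g hg
    simp only [mem_filter, mem_univ, true_and] at hg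
    refine ⟨k⁻¹ * g, ?_, by group⟩
    simp only [mem_filter, mem_univ, true_and]
    rw [mul_smul, hg, ← hk, inv_smul_smul]

lemma card_map_mul (htr : ∀ u v : V, ∃ g : G, g • u = v) (u z : V) :
    Fintype.card V * (univ.filter fun g : G => g • u = z).card = Fintype.card G := by
  have h : (univ : Finset G).card = ∑ z' : V, (univ.filter fun g : G => g • u = z').card := by
    exact card_eq_sum_card_fiberwise (fun g _ => mem_coe.2 (mem_univ _))
  rw [card_univ] at h
  rw [h, sum_congr rfl (fun z' _ => card_map htr u z' z), sum_const, card_univ, smul_eq_mul]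

lemma card_map' (htr : ∀ u v : V, ∃ g : G, g • u = v) (u z : V) :
    Fintype.card V * (univ.filter fun g : G => u = g • z).card = Fintype.card G := by
  have := card_map_mul (G := G) htr z u
  simpa [eq_comm] using this

/-- number of g with g u ∈ S -/
lemma card_mem (htr : ∀ u v : V, ∃ g : G, g • u = v) (u : V) (S : Finset V) :
    Fintype.card V * (univ.filter fun g : G => g • u ∈ S).card = Fintype.card G * S.card := by
  have h : (univ.filter fun g : G => g • u ∈ S).card =
      ∑ z ∈ S, (univ.filter fun g : G => g • u = z).card := by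
    have := card_eq_sum_card_fiberwise (s := univ.filter fun g : G => g • u ∈ S)
      (f := fun g => g • u) (t := S) (fun g hg => by simpa using hg)
    rw [this]
    refine sum_congr rfl fun z hz => ?_
    congr 1
    ext g
    simp only [mem_filter, mem_univ, true_and]
    constructor
    · exact fun h => h.2
    · intro h
      exact ⟨h ▸ hz, h⟩
  rw [h, mul_sum, sum_congr rfl (fun z _ => card_map_mul htr u z), sum_const, smul_eq_mul, mul_comm]

/-- number of g with u ∈ g S -/
lemma card_mem' (htr : ∀ u v : V, ∃ g : G, g • u = v) (u : V) (S : Finset V) :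
    Fintype.card V * (univ.filter fun g : G => u ∈ g • S).card = Fintype.card G * S.card := by
  rw [← card_mem (G := G) htr u S]
  congr 1
  refine card_bij (fun g _ => g⁻¹) ?_ ?_ ?_
  · intro g hg
    simp only [mem_filter, mem_univ, true_and] at hg ⊢
    rwa [inv_smul_mem_iff]
  · intro g _ g' _ h
    exact inv_injective h
  · intro g hg
    simp only [mem_filter, mem_univ, true_and] at hg
    refine ⟨g⁻¹, ?_, by simp⟩
    simp only [mem_filter, mem_univ, true_and]
    rwa [mem_inv_smul_finset_iff]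

/-- averaging -/
lemma sum_inter (htr : ∀ u v : V, ∃ g : G, g • u = v) (S T : Finset V) :
    Fintype.card V * ∑ g : G, (S ∩ g • T).card = Fintype.card G * (S.card * T.card) := by
  have h : ∑ g : G, (S ∩ g • T).card = ∑ u ∈ S, (univ.filter fun g : G => u ∈ g • T).card := by
    have h1 : ∀ g : G, (S ∩ g • T).card = ∑ u ∈ S, if u ∈ g • T then 1 else 0 := by
      intro g
      rw [← card_filter, filter_mem_eq_inter]
    simp_rw [h1]
    rw [sum_comm]
    refine sum_congr rfl fun u _ => ?_
    rw [card_filter]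
  rw [h, mul_sum, sum_congr rfl (fun u _ => card_mem' htr u T), sum_const, smul_eq_mul]
  ring

lemma sum_bd_inter (hadj : ∀ (g : G) u v, Γ.Adj (g • u) (g • v) ↔ Γ.Adj u v)
    (htr : ∀ u v : V, ∃ g : G, g • u = v) (S T : Finset V) :
    Fintype.card V * ∑ g : G, bd Γ (S ∩ g • T) ≤
      Fintype.card G * (bd Γ S * T.card + bd Γ T * S.card) := by
  have h1 : ∀ g : G, bd Γ (S ∩ g • T) ≤ ((bdp Γ S).filter fun p => p.1 ∈ g • T).card +
      ((bdp Γ T).filter fun p => g • p.1 ∈ S).card := by
    intro g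
    have e : ((bdp Γ T).filter fun p => g • p.1 ∈ S).card =
        ((bdp Γ (g • T)).filter fun p => p.1 ∈ S).card := by
      refine card_bij (fun p _ => (g • p.1, g • p.2)) ?_ ?_ ?_
      · intro p hp
        rw [mem_filter, mem_bdp] at hp ⊢
        simp only [smul_mem_smul_finset_iff]
        exact ⟨⟨hp.1.1, hp.1.2.1, (hadj g _ _).2 hp.1.2.2⟩, hp.2⟩
      · intro p _ q _ h
        simp only [Prod.mk.injEq] at h
        exact Prod.ext (MulAction.injective g h.1) (MulAction.injective g h.2)
      · intro p hp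
        refine ⟨(g⁻¹ • p.1, g⁻¹ • p.2), ?_, ?_⟩
        · rw [mem_filter, mem_bdp] at hp ⊢
          simp only [inv_smul_mem_iff, smul_inv_smul]
          exact ⟨⟨hp.1.1, hp.1.2.1, (hadj g⁻¹ _ _).2 hp.1.2.2⟩, hp.2⟩
        · simp
    rw [e]
    unfold bd
    refine le_trans (card_le_card ?_) (card_union_le _ _)
    intro p hp
    rw [mem_bdp] at hp
    rw [mem_union, mem_filter, mem_filter, mem_bdp, mem_bdp]
    obtain ⟨h1, h2, h3⟩ := hp
    rw [mem_inter] at h1 h2
    by_cases hS : p.2 ∈ S
    · right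
      exact ⟨⟨h1.2, fun h => h2 ⟨hS, h⟩, h3⟩, h1.1⟩
    · left
      exact ⟨⟨h1.1, hS, h3⟩, h1.2⟩
  have h2 : Fintype.card V * ∑ g : G, ((bdp Γ S).filter fun p => p.1 ∈ g • T).card =
      Fintype.card G * (bd Γ S * T.card) := by
    simp_rw [card_filter]
    rw [sum_comm]
    simp_rw [← card_filter]
    rw [mul_sum, sum_congr rfl (fun p _ => card_mem' htr p.1 T), sum_const, smul_eq_mul, bd]
    ring
  have h3 : Fintype.card V * ∑ g : G, ((bdp Γ T).filter fun p => g • p.1 ∈ S).card =
      Fintype.card G * (bd Γ T * S.card) := by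
    simp_rw [card_filter]
    rw [sum_comm]
    simp_rw [← card_filter]
    rw [mul_sum, sum_congr rfl (fun p _ => card_mem htr p.1 S), sum_const, smul_eq_mul, bd]
    ring
  calc Fintype.card V * ∑ g : G, bd Γ (S ∩ g • T)
      ≤ Fintype.card V * (∑ g : G, (((bdp Γ S).filter fun p => p.1 ∈ g • T).card +
      ((bdp Γ T).filter fun p => g • p.1 ∈ S).card)) :=
        Nat.mul_le_mul_left _ (sum_le_sum fun g _ => h1 g)
    _ = _ := by
        rw [sum_add_distrib, mul_add, h2, h3]
        ring

end X68.Iso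

namespace X68.Iso

variable {V : Type*} [Fintype V] [DecidableEq V] (Γ : SimpleGraph V) [DecidableRel Γ.Adj]

def fib {n : ℕ} (f : V → Fin n) (i : Fin n) : Finset V := univ.filter fun v => f v = i

lemma mem_fib {n : ℕ} {f : V → Fin n} {i : Fin n} {v : V} : v ∈ fib f i ↔ f v = i := by
  simp [fib]

lemma sum_fib {n : ℕ} (f : V → Fin n) : ∑ i, (fib f i).card = Fintype.card V := by
  rw [← card_univ]
  exact (card_eq_sum_card_fiberwise (fun v _ => mem_coe.2 (mem_univ _))).symm

/-- every surjection to `Fin (n+1)` has a part of expansion at least H' -/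
def Gap (n : ℕ) (H' : ℝ) : Prop :=
  ∀ f' : V → Fin (n + 1), Function.Surjective f' → ∃ i, H' * ((fib f' i).card : ℝ) ≤ bd Γ (fib f' i)

lemma split {n : ℕ} {H' : ℝ} (hgap : Gap Γ n H') {c : ℝ} (hc : c < H') (f : V → Fin n)
    (hf : Function.Surjective f) (hfc : ∀ i, (bd Γ (fib f i) : ℝ) ≤ c * (fib f i).card)
    (i : Fin n) (M : Finset V) (hM : M ⊆ fib f i) (hM0 : M.Nonempty) (hM1 : (fib f i \ M).Nonempty) :
    H' * (M.card : ℝ) ≤ bd Γ M ∨ H' * ((fib f i \ M).card : ℝ) ≤ bd Γ (fib f i \ M) := by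
  classical
  let f' : V → Fin (n + 1) := fun v => if v ∈ M then Fin.last n else (f v).castSucc
  have hsurj : Function.Surjective f' := by
    intro j
    refine Fin.lastCases ?_ (fun j => ?_) j
    · obtain ⟨v, hv⟩ := hM0
      exact ⟨v, by simp [f', hv]⟩
    · by_cases hj : j = i
      · obtain ⟨v, hv⟩ := hM1
        rw [mem_sdiff, mem_fib] at hv
        exact ⟨v, by simp [f', hv.2, hv.1, hj]⟩
      · obtain ⟨v, hv⟩ := hf j
        have : v ∉ M := fun h => hj (by rw [← hv]; exact mem_fib.1 (hM h))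
        exact ⟨v, by simp [f', this, hv]⟩
  obtain ⟨j, hj⟩ := hgap f' hsurj
  revert hj
  refine Fin.lastCases ?_ (fun j => ?_) j
  · intro hj
    have : fib f' (Fin.last n) = M := by
      ext v
      rw [mem_fib]
      by_cases h : v ∈ M
      · simp [f', h]
      · simp [f', h, Fin.castSucc_ne_last]
    rw [this] at hj
    exact Or.inl hj
  · intro hj
    have : fib f' j.castSucc = fib f j \ M := by
      ext v
      rw [mem_fib, mem_sdiff, mem_fib]
      by_cases h : v ∈ M
      · simp only [f', h, if_true, not_true, and_false, iff_false]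
        exact (Fin.castSucc_ne_last j).symm
      · simp [f', h]
    rw [this] at hj
    by_cases hji : j = i
    · right
      rw [← hji]
      exact hj
    · exfalso
      have hd : fib f j \ M = fib f j := by
        rw [Finset.sdiff_eq_self_iff_disjoint, disjoint_left]
        intro v hv hv'
        have h1 := mem_fib.1 (hM hv')
        rw [mem_fib] at hv
        exact hji (hv.symm.trans h1)
      rw [hd] at hj
      have h1 := hfc j
      have h2 : (0 : ℝ) < (fib f j).card := by
        obtain ⟨v, hv⟩ := hf j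
        exact_mod_cast card_pos.2 ⟨v, mem_fib.2 hv⟩
      nlinarith

/-- block internal expansion -/
lemma bd_eq {n : ℕ} (F : V → Fin n) (D : ℕ)
    (hD : ∀ u, (univ.filter fun w => F w ≠ F u ∧ Γ.Adj u w).card = D)
    (i : Fin n) (M : Finset V) (hM : M ⊆ fib F i) :
    bd Γ M = ee Γ M (fib F i \ M) + D * M.card := by
  unfold bd ee
  have h1 : bdp Γ M = (univ.filter fun p : V × V => p.1 ∈ M ∧ p.2 ∈ fib F i \ M ∧ Γ.Adj p.1 p.2) ∪
      (univ.filter fun p : V × V => p.1 ∈ M ∧ F p.2 ≠ F p.1 ∧ Γ.Adj p.1 p.2) := by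
    ext p
    simp only [mem_bdp, mem_union, mem_filter, mem_univ, true_and, mem_sdiff, mem_fib]
    constructor
    · rintro ⟨h1, h2, h3⟩
      by_cases h : F p.2 = i
      · exact Or.inl ⟨h1, ⟨h, h2⟩, h3⟩
      · right
        refine ⟨h1, ?_, h3⟩
        rw [mem_fib.1 (hM h1)]
        exact h
    · rintro (⟨h1, h2, h3⟩ | ⟨h1, h2, h3⟩)
      · exact ⟨h1, h2.2, h3⟩
      · refine ⟨h1, fun h => h2 ?_, h3⟩
        rw [mem_fib.1 (hM h1), mem_fib.1 (hM h)]
  rw [h1, card_union_of_disjoint]
  · congr 1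
    have h2 : (univ.filter fun p : V × V => p.1 ∈ M ∧ F p.2 ≠ F p.1 ∧ Γ.Adj p.1 p.2).card =
        ∑ u ∈ M, (univ.filter fun w => F w ≠ F u ∧ Γ.Adj u w).card := by
      rw [card_eq_sum_card_fiberwise (f := Prod.fst) (t := M) (fun p hp => by
        simp only [coe_filter, mem_univ, true_and, Set.mem_ofPred_eq] at hp
        exact hp.1)]
      refine sum_congr rfl fun u hu => ?_
      refine card_bij (fun p _ => p.2) ?_ ?_ ?_
      · intro p hp
        simp only [mem_filter, mem_univ, true_and] at hp ⊢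
        rw [← hp.2]
        exact ⟨hp.1.2.1, hp.1.2.2⟩
      · intro p hp q hq h
        simp only [mem_filter, mem_univ, true_and] at hp hq
        exact Prod.ext (hp.2.trans hq.2.symm) h
      · intro w hw
        simp only [mem_filter, mem_univ, true_and] at hw
        exact ⟨(u, w), by simp [hu, hw.1, hw.2], rfl⟩
    rw [h2, sum_congr rfl (fun u _ => hD u), sum_const, smul_eq_mul, mul_comm]
  · rw [disjoint_left]
    intro p hp hq
    simp only [mem_filter, mem_univ, true_and, mem_sdiff, mem_fib] at hp hq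
    apply hq.2.1
    rw [hp.2.1.1, mem_fib.1 (hM hp.1)]

lemma ee_symm (M M' : Finset V) : ee Γ M M' = ee Γ M' M := by
  unfold ee
  refine card_bij (fun p _ => (p.2, p.1)) ?_ ?_ ?_
  · intro p hp
    simp only [mem_filter, mem_univ, true_and] at hp ⊢
    exact ⟨hp.2.1, hp.1, hp.2.2.symm⟩
  · intro p _ q _ h
    simp only [Prod.mk.injEq] at h
    exact Prod.ext h.2 h.1
  · intro p hp
    simp only [mem_filter, mem_univ, true_and] at hp
    refine ⟨(p.2, p.1), ?_, rfl⟩
    simp only [mem_filter, mem_univ, true_and]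
    exact ⟨hp.2.1, hp.1, hp.2.2.symm⟩

/-- internal expansion of the blocks -/
lemma internal {n : ℕ} {H' : ℝ} (hgap : Gap Γ n H') (F : V → Fin n) (hF : Function.Surjective F)
    (D : ℕ) (hD : ∀ u, (univ.filter fun w => F w ≠ F u ∧ Γ.Adj u w).card = D) (hDH : (D : ℝ) < H')
    (i : Fin n) (M : Finset V) (hM : M ⊆ fib F i) (hM2 : 2 * M.card ≤ (fib F i).card) :
    (H' - D) * (M.card : ℝ) ≤ ee Γ M (fib F i \ M) := by
  rcases M.eq_empty_or_nonempty with rfl | hM0
  · simp
  have hfc : ∀ i, (bd Γ (fib F i) : ℝ) ≤ D * (fib F i).card := by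
    intro i
    have h := bd_eq Γ F D hD i (fib F i) (subset_refl _)
    have h2 : ee Γ (fib F i) (fib F i \ fib F i) = 0 := by
      unfold ee
      rw [card_eq_zero, filter_eq_empty_iff]
      intro p _ hp
      simp at hp
    rw [h2, zero_add] at h
    rw [h]
    push_cast
    exact le_refl _
  have hcard : (fib F i \ M).card + M.card = (fib F i).card := card_sdiff_add_card_eq_card hM
  have hMpos := card_pos.2 hM0
  have hM1 : (fib F i \ M).Nonempty := by
    rw [← card_pos]
    omega
  have hge : M.card ≤ (fib F i \ M).card := by omega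
  have hge' : (M.card : ℝ) ≤ (fib F i \ M).card := by exact_mod_cast hge
  rcases split Γ hgap hDH F hF hfc i M hM hM0 hM1 with h | h
  · rw [bd_eq Γ F D hD i M hM] at h
    push_cast at h
    linarith
  · rw [bd_eq Γ F D hD i _ sdiff_subset, Finset.sdiff_sdiff_eq_self hM, ee_symm] at h
    push_cast at h
    have : 0 ≤ H' - D := by linarith
    nlinarith

end X68.Iso

namespace X68.Iso

variable {V : Type*} [Fintype V] [DecidableEq V] (Γ : SimpleGraph V) [DecidableRel Γ.Adj]

lemma sum_ee {n : ℕ} (F : V → Fin n) (A : Finset V) :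
    ∑ i, ee Γ (A ∩ fib F i) (fib F i \ (A ∩ fib F i)) =
      (univ.filter fun p : V × V => p.1 ∈ A ∧ p.2 ∉ A ∧ Γ.Adj p.1 p.2 ∧ F p.1 = F p.2).card := by
  rw [card_eq_sum_card_fiberwise (f := fun p => F p.1) (t := univ)
    (fun p _ => mem_coe.2 (mem_univ _))]
  refine sum_congr rfl fun i _ => ?_
  unfold ee
  congr 1
  ext p
  simp only [mem_filter, mem_univ, true_and, mem_sdiff, mem_fib, mem_inter]
  constructor
  · rintro ⟨⟨h1, h2⟩, ⟨h3, h4⟩, h5⟩
    exact ⟨⟨h1, fun h => h4 ⟨h, h3⟩, h5, h2.trans h3.symm⟩, h2⟩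
  · rintro ⟨⟨h1, h2, h3, h4⟩, h5⟩
    exact ⟨⟨h1, h5⟩, ⟨h4 ▸ h5, fun h => h2 h.1⟩, h3⟩

lemma sum_inter_fib {n : ℕ} (F : V → Fin n) (A : Finset V) :
    ∑ i, (A ∩ fib F i).card = A.card := by
  rw [card_eq_sum_card_fiberwise (f := F) (t := univ) (s := A)
    (fun p _ => mem_coe.2 (mem_univ _))]
  refine sum_congr rfl fun i _ => ?_
  congr 1
  ext v
  simp [mem_fib]

lemma sum_bd {n : ℕ} (f : V → Fin n) :
    ∑ i, bd Γ (fib f i) = (univ.filter fun p : V × V => Γ.Adj p.1 p.2 ∧ f p.1 ≠ f p.2).card := by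
  rw [card_eq_sum_card_fiberwise (f := fun p => f p.1) (t := univ)
    (fun p _ => mem_coe.2 (mem_univ _))]
  refine sum_congr rfl fun i _ => ?_
  unfold bd
  congr 1
  ext p
  simp only [mem_bdp, mem_filter, mem_univ, true_and, mem_fib]
  constructor
  · rintro ⟨h1, h2, h3⟩
    exact ⟨⟨h3, fun h => h2 (h ▸ h1)⟩, h1⟩
  · rintro ⟨⟨h1, h2⟩, h3⟩
    exact ⟨h3, fun h => h2 (h3.trans h.symm), h1⟩

lemma card_cross {n : ℕ} (F : V → Fin n) (D : ℕ)
    (hD : ∀ u, (univ.filter fun w => F w ≠ F u ∧ Γ.Adj u w).card = D) (M : Finset V) :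
    (univ.filter fun p : V × V => p.1 ∈ M ∧ F p.2 ≠ F p.1 ∧ Γ.Adj p.1 p.2).card = D * M.card := by
  have h2 : (univ.filter fun p : V × V => p.1 ∈ M ∧ F p.2 ≠ F p.1 ∧ Γ.Adj p.1 p.2).card =
      ∑ u ∈ M, (univ.filter fun w => F w ≠ F u ∧ Γ.Adj u w).card := by
    rw [card_eq_sum_card_fiberwise (f := Prod.fst) (t := M) (fun p hp => by
      simp only [coe_filter, mem_univ, true_and, Set.mem_ofPred_eq] at hp
      exact hp.1)]
    refine sum_congr rfl fun u hu => ?_
    refine card_bij (fun p _ => p.2) ?_ ?_ ?_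
    · intro p hp
      simp only [mem_filter, mem_univ, true_and] at hp ⊢
      rw [← hp.2]
      exact ⟨hp.1.2.1, hp.1.2.2⟩
    · intro p hp q hq h
      simp only [mem_filter, mem_univ, true_and] at hp hq
      exact Prod.ext (hp.2.trans hq.2.symm) h
    · intro w hw
      simp only [mem_filter, mem_univ, true_and] at hw
      exact ⟨(u, w), by simp [hu, hw.1, hw.2], rfl⟩
  rw [h2, sum_congr rfl (fun u _ => hD u), sum_const, smul_eq_mul, mul_comm]

lemma card_cross' {n : ℕ} (F : V → Fin n) (D : ℕ)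
    (hD : ∀ u, (univ.filter fun w => F w ≠ F u ∧ Γ.Adj u w).card = D) (M : Finset V) :
    (univ.filter fun p : V × V => p.2 ∈ M ∧ F p.2 ≠ F p.1 ∧ Γ.Adj p.1 p.2).card = D * M.card := by
  rw [← card_cross Γ F D hD M]
  refine card_bij (fun p _ => (p.2, p.1)) ?_ ?_ ?_
  · intro p hp
    simp only [mem_filter, mem_univ, true_and] at hp ⊢
    exact ⟨hp.1, hp.2.1.symm, hp.2.2.symm⟩
  · intro p _ q _ h
    simp only [Prod.mk.injEq] at h
    exact Prod.ext h.2 h.1
  · intro p hp
    simp only [mem_filter, mem_univ, true_and] at hp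
    refine ⟨(p.2, p.1), ?_, rfl⟩
    simp only [mem_filter, mem_univ, true_and]
    exact ⟨hp.1, hp.2.1.symm, hp.2.2.symm⟩

/-- the aligned case -/
lemma final_aligned {n : ℕ} {H' h : ℝ} (hgap : Gap Γ n H') (F f : V → Fin n)
    (hF : Function.Surjective F) (D : ℕ)
    (hD : ∀ u, (univ.filter fun w => F w ≠ F u ∧ Γ.Adj u w).card = D) (hDH : (D : ℝ) < H')
    (hDH2 : 2 * (D : ℝ) ≤ H') (hfb : ∀ i, (bd Γ (fib f i) : ℝ) ≤ h * (fib f i).card)
    (hal : ∀ i, (fib F i).card < 2 * (fib f i ∩ fib F i).card) [Nonempty V] : (D : ℝ) ≤ h := by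
  classical
  set M : Finset V := univ.filter fun v => F v ≠ f v with hM
  have hMm : ∀ v, v ∈ M ↔ F v ≠ f v := by intro v; simp [hM]
  set P1 : Finset (V × V) := univ.filter fun p => Γ.Adj p.1 p.2 ∧ f p.1 ≠ f p.2 with hP1
  set P2 : Finset (V × V) := univ.filter fun p => p.1 ∈ (univ : Finset V) ∧ F p.2 ≠ F p.1 ∧ Γ.Adj p.1 p.2 with hP2
  set P3 : Finset (V × V) := univ.filter fun p => Γ.Adj p.1 p.2 ∧ F p.1 = F p.2 ∧ f p.1 ≠ f p.2 with hP3
  set P4 : Finset (V × V) := univ.filter fun p => p.1 ∈ M ∧ F p.2 ≠ F p.1 ∧ Γ.Adj p.1 p.2 with hP4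
  set P4' : Finset (V × V) := univ.filter fun p => p.2 ∈ M ∧ F p.2 ≠ F p.1 ∧ Γ.Adj p.1 p.2 with hP4'
  set P5 : Finset (V × V) := univ.filter fun p => p.1 ∈ M ∧ p.2 ∉ M ∧ Γ.Adj p.1 p.2 ∧ F p.1 = F p.2 with hP5
  set P5' : Finset (V × V) := univ.filter fun p => p.2 ∈ M ∧ p.1 ∉ M ∧ Γ.Adj p.1 p.2 ∧ F p.1 = F p.2 with hP5'
  have c1 : (P1.card : ℝ) ≤ h * Fintype.card V := by
    rw [hP1, ← sum_bd Γ f, ← sum_fib f]
    push_cast
    rw [mul_sum]
    exact sum_le_sum fun i _ => hfb i
  have c2 : P2.card = D * Fintype.card V := by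
    rw [hP2, card_cross Γ F D hD univ, card_univ]
  have c4 : P4.card = D * M.card := card_cross Γ F D hD M
  have c4' : P4'.card = D * M.card := card_cross' Γ F D hD M
  have c31 : P3 ⊆ P1 := by
    intro p hp
    simp only [hP3, hP1, mem_filter, mem_univ, true_and] at hp ⊢
    exact ⟨hp.1, hp.2.2⟩
  have c21 : P2.card + P3.card ≤ P1.card + P4.card + P4'.card := by
    have : P2 ⊆ (P1 \ P3) ∪ P4 ∪ P4' := by
      intro p hp
      simp only [hP2, hP3, hP1, hP4, hP4', mem_filter, mem_univ, true_and, mem_union, mem_sdiff] at hp ⊢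
      by_cases h1 : p.1 ∈ M
      · exact Or.inl (Or.inr ⟨h1, hp⟩)
      by_cases h2 : p.2 ∈ M
      · exact Or.inr ⟨h2, hp⟩
      left; left
      rw [hMm, not_not] at h1 h2
      refine ⟨⟨hp.2, ?_⟩, ?_⟩
      · rw [← h1, ← h2]; exact hp.1.symm
      · rintro ⟨_, h3, _⟩
        exact hp.1 h3.symm
    have h1 := card_le_card this
    have h2 := card_union_le ((P1 \ P3) ∪ P4) P4'
    have h3 := card_union_le (P1 \ P3) P4
    have h4 := card_sdiff_add_card_eq_card c31
    omega
  have c5 : P5.card + P5'.card ≤ P3.card := by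
    rw [← card_union_of_disjoint]
    · refine card_le_card ?_
      intro p hp
      simp only [hP5, hP5', hP3, mem_filter, mem_univ, true_and, mem_union] at hp ⊢
      rcases hp with ⟨h1, h2, h3, h4⟩ | ⟨h1, h2, h3, h4⟩
      · rw [hMm] at h1 h2
        rw [not_not] at h2
        refine ⟨h3, h4, fun h5 => h1 ?_⟩
        rw [h5, h4, h2]
      · rw [hMm] at h1 h2
        rw [not_not] at h2
        refine ⟨h3, h4, fun h5 => h1 ?_⟩
        rw [← h5, ← h4, h2]
    · rw [disjoint_left]
      intro p hp hq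
      simp only [hP5, hP5', mem_filter, mem_univ, true_and] at hp hq
      exact hp.2.1 hq.1
  have e5 : P5.card = ∑ i, ee Γ (M ∩ fib F i) (fib F i \ (M ∩ fib F i)) := (sum_ee Γ F M).symm
  have e5' : P5'.card = P5.card := by
    refine card_bij (fun p _ => (p.2, p.1)) ?_ ?_ ?_
    · intro p hp
      simp only [hP5, hP5', mem_filter, mem_univ, true_and] at hp ⊢
      exact ⟨hp.1, hp.2.1, hp.2.2.1.symm, hp.2.2.2.symm⟩
    · intro p _ q _ h
      simp only [Prod.mk.injEq] at h
      exact Prod.ext h.2 h.1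
    · intro p hp
      simp only [hP5, mem_filter, mem_univ, true_and] at hp
      refine ⟨(p.2, p.1), ?_, rfl⟩
      simp only [hP5', mem_filter, mem_univ, true_and]
      exact ⟨hp.1, hp.2.1, hp.2.2.1.symm, hp.2.2.2.symm⟩
  have l5 : (H' - D) * (M.card : ℝ) ≤ P5.card := by
    rw [e5, ← sum_inter_fib F M]
    push_cast
    rw [mul_sum]
    refine sum_le_sum fun i _ => ?_
    refine internal Γ hgap F hF D hD hDH i _ inter_subset_right ?_
    have h1 := hal i
    have h2 : (fib f i ∩ fib F i).card + (M ∩ fib F i).card = (fib F i).card := by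
      rw [← card_union_of_disjoint]
      · congr 1
        ext v
        simp only [mem_union, mem_inter, mem_fib, hMm]
        constructor
        · rintro (h | h)
          · exact h.2
          · exact h.2
        · intro h
          by_cases h3 : f v = i
          · exact Or.inl ⟨h3, h⟩
          · right
            refine ⟨?_, h⟩
            rw [h]
            exact fun h4 => h3 h4.symm
      · rw [disjoint_left]
        intro v hv hw
        simp only [mem_inter, mem_fib, hMm] at hv hw
        apply hw.1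
        rw [hv.1, hv.2]
    omega
  have hN : (0 : ℝ) < Fintype.card V := by exact_mod_cast Fintype.card_pos
  have r2 : (P2.card : ℝ) = D * Fintype.card V := by rw [c2]; push_cast; ring
  have r4 : (P4.card : ℝ) = D * M.card := by rw [c4]; push_cast; ring
  have r4' : (P4'.card : ℝ) = D * M.card := by rw [c4']; push_cast; ring
  have r21 : (P2.card : ℝ) + P3.card ≤ P1.card + P4.card + P4'.card := by exact_mod_cast c21
  have r5 : (P5.card : ℝ) + P5'.card ≤ P3.card := by exact_mod_cast c5
  have r5' : (P5'.card : ℝ) = P5.card := by exact_mod_cast e5'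
  have hMnn : (0 : ℝ) ≤ M.card := Nat.cast_nonneg _
  have key : (D - h) * (Fintype.card V : ℝ) ≤ 0 := by
    have : (D - h) * (Fintype.card V : ℝ) ≤ - 2 * ((H' - 2 * D) * M.card) := by nlinarith
    have : 0 ≤ (H' - 2 * D) * (M.card : ℝ) := mul_nonneg (by linarith) hMnn
    linarith
  by_contra hcon
  push Not at hcon
  have : 0 < (D - h) * (Fintype.card V : ℝ) := mul_pos (by linarith) hN
  linarith

lemma final {n : ℕ} {H' h : ℝ} (hgap : Gap Γ n H') (F f : V → Fin n)
    (hF : Function.Surjective F) (hf : Function.Surjective f) (D : ℕ)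
    (hD : ∀ u, (univ.filter fun w => F w ≠ F u ∧ Γ.Adj u w).card = D) (hDH : (D : ℝ) < H')
    (hDH2 : 2 * (D : ℝ) ≤ H') (hDh : h < H' - D)
    (hfb : ∀ i, (bd Γ (fib f i) : ℝ) ≤ h * (fib f i).card) [Nonempty V] : (D : ℝ) ≤ h := by
  classical
  by_cases hc : ∀ j, ∃ i, (fib F i).card < 2 * (fib f j ∩ fib F i).card
  · choose σ hσ using hc
    have hinj : Function.Injective σ := by
      intro j j' hjj
      by_contra hne
      have h1 := hσ j
      have h2 := hσ j'
      rw [← hjj] at h2
      have h3 : (fib f j ∩ fib F (σ j)).card + (fib f j' ∩ fib F (σ j)).card ≤ (fib F (σ j)).card := by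
        rw [← card_union_of_disjoint]
        · refine card_le_card (union_subset inter_subset_right inter_subset_right)
        · rw [disjoint_left]
          intro v hv hw
          simp only [mem_inter, mem_fib] at hv hw
          exact hne (hv.1.symm.trans hw.1)
      omega
    have hbij : Function.Bijective σ := (Finite.injective_iff_bijective).1 hinj
    have hfibσ : ∀ j, fib (σ ∘ f) (σ j) = fib f j := by
      intro j
      ext v
      simp only [mem_fib, Function.comp_apply]
      exact hinj.eq_iff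
    refine final_aligned Γ hgap F (σ ∘ f) hF D hD hDH hDH2 ?_ ?_
    · intro i
      obtain ⟨j, rfl⟩ := hbij.2 i
      rw [hfibσ]
      exact hfb j
    · intro i
      obtain ⟨j, rfl⟩ := hbij.2 i
      rw [hfibσ]
      exact hσ j
  · exfalso
    push Not at hc
    obtain ⟨j, hj⟩ := hc
    have h1 : (H' - D) * ((fib f j).card : ℝ) ≤ bd Γ (fib f j) := by
      have h2 : ∑ i, ee Γ (fib f j ∩ fib F i) (fib F i \ (fib f j ∩ fib F i)) ≤ bd Γ (fib f j) := by
        rw [sum_ee]
        refine card_le_card ?_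
        intro p hp
        simp only [mem_filter, mem_univ, true_and, mem_bdp] at hp ⊢
        exact ⟨hp.1, hp.2.1, hp.2.2.1⟩
      have h3 : (H' - D) * ((fib f j).card : ℝ) ≤
          ((∑ i, ee Γ (fib f j ∩ fib F i) (fib F i \ (fib f j ∩ fib F i)) : ℕ) : ℝ) := by
        rw [← sum_inter_fib F (fib f j)]
        push_cast
        rw [mul_sum]
        refine sum_le_sum fun i _ => ?_
        exact internal Γ hgap F hF D hD hDH i _ inter_subset_right (hj i)
      exact h3.trans (by exact_mod_cast h2)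
    have h2 := hfb j
    have h3 : (0 : ℝ) < (fib f j).card := by
      obtain ⟨v, hv⟩ := hf j
      exact_mod_cast card_pos.2 ⟨v, mem_fib.2 hv⟩
    nlinarith

end X68.Iso

namespace X68.Iso

variable {V : Type*} [Fintype V] [DecidableEq V] (Γ : SimpleGraph V) [DecidableRel Γ.Adj]
variable {G : Type*} [Group G] [Fintype G] [MulAction G V]

lemma fib_pos {n : ℕ} {f : V → Fin n} (hf : Function.Surjective f) (i : Fin n) :
    0 < (fib f i).card := by
  obtain ⟨v, hv⟩ := hf i
  exact card_pos.2 ⟨v, mem_fib.2 hv⟩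

/-- averaging: some translate of A_j almost contains A_i -/
lemma exists_near (hadj : ∀ (g : G) u v, Γ.Adj (g • u) (g • v) ↔ Γ.Adj u v)
    (htr : ∀ u v : V, ∃ g : G, g • u = v) {n : ℕ} {H' h : ℝ} (hgap : Gap Γ n H')
    (hh : 0 ≤ h) (hhH : 2 * h < H') (f : V → Fin n) (hf : Function.Surjective f)
    (hfb : ∀ i, (bd Γ (fib f i) : ℝ) ≤ h * (fib f i).card) (i j : Fin n) :
    ∃ g : G, H' * ((fib f i \ g • fib f j).card : ℝ) ≤ bd Γ (fib f i) + bd Γ (fib f j) := by
  classical
  obtain ⟨g, hg0, hg⟩ : ∃ g : G, (fib f i ∩ g • fib f j).Nonempty ∧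
      (bd Γ (fib f i ∩ g • fib f j) : ℝ) ≤ 2 * h * (fib f i ∩ g • fib f j).card := by
    by_contra hcon
    push Not at hcon
    have hle : ∀ g : G, 2 * h * ((fib f i ∩ g • fib f j).card : ℝ) ≤ bd Γ (fib f i ∩ g • fib f j) := by
      intro g
      rcases (fib f i ∩ g • fib f j).eq_empty_or_nonempty with he | he
      · rw [he]; simp
      · exact (hcon g he).le
    obtain ⟨u, hu⟩ := hf i
    obtain ⟨v, hv⟩ := hf j
    obtain ⟨g0, hg0⟩ := htr v u
    have hne : (fib f i ∩ g0 • fib f j).Nonempty :=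
      ⟨u, mem_inter.2 ⟨mem_fib.2 hu, by rw [← hg0]; exact smul_mem_smul_finset (mem_fib.2 hv)⟩⟩
    have hlt : ∑ g : G, 2 * h * ((fib f i ∩ g • fib f j).card : ℝ) <
        ∑ g : G, (bd Γ (fib f i ∩ g • fib f j) : ℝ) :=
      sum_lt_sum (fun g _ => hle g) ⟨g0, mem_univ _, hcon g0 hne⟩
    rw [← mul_sum] at hlt
    have h1 := sum_inter (G := G) htr (fib f i) (fib f j)
    have h2 := sum_bd_inter Γ (G := G) hadj htr (fib f i) (fib f j)
    have h1' : (Fintype.card V : ℝ) * ∑ g : G, ((fib f i ∩ g • fib f j).card : ℝ) =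
        Fintype.card G * ((fib f i).card * (fib f j).card) := by exact_mod_cast h1
    have h2' : (Fintype.card V : ℝ) * ∑ g : G, (bd Γ (fib f i ∩ g • fib f j) : ℝ) ≤
        Fintype.card G * (bd Γ (fib f i) * (fib f j).card + bd Γ (fib f j) * (fib f i).card) := by
      exact_mod_cast h2
    have hN : (0 : ℝ) < Fintype.card V := by exact_mod_cast Fintype.card_pos_iff.2 ⟨u⟩
    have hGp : (0 : ℝ) < Fintype.card G := by exact_mod_cast Fintype.card_pos
    have h3 : (bd Γ (fib f i) : ℝ) * (fib f j).card + bd Γ (fib f j) * (fib f i).card ≤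
        2 * h * ((fib f i).card * (fib f j).card) := by
      have e1 := mul_le_mul_of_nonneg_right (hfb i) (Nat.cast_nonneg (α := ℝ) (fib f j).card)
      have e2 := mul_le_mul_of_nonneg_right (hfb j) (Nat.cast_nonneg (α := ℝ) (fib f i).card)
      nlinarith
    have h4 := mul_le_mul_of_nonneg_left h3 hGp.le
    have h5 := mul_lt_mul_of_pos_left hlt hN
    nlinarith
  refine ⟨g, ?_⟩
  rcases (fib f i \ g • fib f j).eq_empty_or_nonempty with he | he
  · rw [he]; simp; positivity
  · have hsd : fib f i \ (fib f i ∩ g • fib f j) = fib f i \ g • fib f j := by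
      ext v; simp only [mem_sdiff, mem_inter]; tauto
    have hMp : (0 : ℝ) < (fib f i ∩ g • fib f j).card := by exact_mod_cast card_pos.2 hg0
    rcases split Γ hgap (c := h) (by linarith) f hf hfb i (fib f i ∩ g • fib f j)
      inter_subset_left hg0 (by rw [hsd]; exact he) with h1 | h1
    · exfalso
      nlinarith
    · rw [hsd] at h1
      have h2 := bd_sdiff_le Γ (fib f i) (g • fib f j)
      rw [bd_smul Γ hadj] at h2
      have h2' : (bd Γ (fib f i \ g • fib f j) : ℝ) ≤ bd Γ (fib f i) + bd Γ (fib f j) := by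
        exact_mod_cast h2
      linarith

lemma dichotomy (hadj : ∀ (g : G) u v, Γ.Adj (g • u) (g • v) ↔ Γ.Adj u v)
    {n : ℕ} {H' h : ℝ} (hgap : Gap Γ n H')
    (hhH : h < H') (f : V → Fin n) (hf : Function.Surjective f)
    (hfb : ∀ i, (bd Γ (fib f i) : ℝ) ≤ h * (fib f i).card) (i j : Fin n) (g : G) :
    H' * ((fib f i ∩ g • fib f j).card : ℝ) ≤ bd Γ (fib f i) + bd Γ (fib f j) ∨
    H' * ((fib f i \ g • fib f j).card : ℝ) ≤ bd Γ (fib f i) + bd Γ (fib f j) := by
  classical
  rcases (fib f i ∩ g • fib f j).eq_empty_or_nonempty with he | he0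
  · left; rw [he]; simp; positivity
  rcases (fib f i \ g • fib f j).eq_empty_or_nonempty with he | he
  · right; rw [he]; simp; positivity
  have hsd : fib f i \ (fib f i ∩ g • fib f j) = fib f i \ g • fib f j := by
    ext v; simp only [mem_sdiff, mem_inter]; tauto
  rcases split Γ hgap (c := h) (by linarith) f hf hfb i (fib f i ∩ g • fib f j)
    inter_subset_left he0 (by rw [hsd]; exact he) with h1 | h1
  · left
    have h2 := bd_inter_le Γ (fib f i) (g • fib f j)
    rw [bd_smul Γ hadj] at h2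
    have h2' : (bd Γ (fib f i ∩ g • fib f j) : ℝ) ≤ bd Γ (fib f i) + bd Γ (fib f j) := by
      exact_mod_cast h2
    linarith
  · right
    rw [hsd] at h1
    have h2 := bd_sdiff_le Γ (fib f i) (g • fib f j)
    rw [bd_smul Γ hadj] at h2
    have h2' : (bd Γ (fib f i \ g • fib f j) : ℝ) ≤ bd Γ (fib f i) + bd Γ (fib f j) := by
      exact_mod_cast h2
    linarith

/-- the numerical facts -/
lemma exists_delta (hadj : ∀ (g : G) u v, Γ.Adj (g • u) (g • v) ↔ Γ.Adj u v)
    (htr : ∀ u v : V, ∃ g : G, g • u = v) {n : ℕ} (hn : 2 ≤ n) {H' h : ℝ} (hgap : Gap Γ n H')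
    (hh : 0 ≤ h) (hhH : 2 * (n + 1) * h < H') (f : V → Fin n) (hf : Function.Surjective f)
    (hfb : ∀ i, (bd Γ (fib f i) : ℝ) ≤ h * (fib f i).card) (i0 : Fin n)
    (hmin : ∀ i, (fib f i0).card ≤ (fib f i).card) :
    ∃ δ : ℝ, 0 ≤ δ ∧ n * δ < (fib f i0).card ∧ 3 * δ < (fib f i0).card ∧
      (∀ i j (g : G), ((fib f i ∩ g • fib f j).card : ℝ) ≤ δ ∨
        ((fib f i \ g • fib f j).card : ℝ) ≤ δ) ∧
      (∀ i j, ∃ g : G, ((fib f i \ g • fib f j).card : ℝ) ≤ δ) := by
  classical
  have hn' : (2 : ℝ) ≤ n := by exact_mod_cast hn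
  have h6 : 2 * h < H' := by nlinarith
  have hHp : 0 < H' := by linarith
  have hap : (0 : ℝ) < (fib f i0).card := by exact_mod_cast fib_pos hf i0
  obtain ⟨b, _, hb⟩ := exists_max_image (univ : Finset (Fin n)) (fun i => bd Γ (fib f i)) ⟨i0, mem_univ _⟩
  have hb' : ∀ i, (bd Γ (fib f i) : ℝ) ≤ bd Γ (fib f b) := fun i => by
    exact_mod_cast hb i (mem_univ _)
  set β : ℝ := ((bd Γ (fib f b) : ℕ) : ℝ) with hβ
  have hβ0 : 0 ≤ β := Nat.cast_nonneg _
  have hconv : ∀ x : ℝ, ∀ i j, H' * x ≤ bd Γ (fib f i) + bd Γ (fib f j) → x ≤ 2 * β / H' := by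
    intro x i j hx
    rw [le_div_iff₀ hHp]
    have := hb' i
    have := hb' j
    linarith
  have hδH : H' * (2 * β / H') = 2 * β := by field_simp
  refine ⟨2 * β / H', by positivity, ?_, ?_, ?_, ?_⟩
  · obtain ⟨g, hg⟩ := exists_near Γ hadj htr hgap hh h6 f hf hfb b i0
    have h1 := hconv _ _ _ hg
    have h2 : (fib f b).card ≤ (fib f b \ g • fib f i0).card + (fib f i0).card := by
      have := card_le_card_sdiff_add_card (s := fib f b) (t := g • fib f i0)
      rw [card_smul_finset] at this
      exact this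
    have h2' : ((fib f b).card : ℝ) ≤ (fib f b \ g • fib f i0).card + (fib f i0).card := by
      exact_mod_cast h2
    have h3 := hfb b
    set δ : ℝ := 2 * β / H' with hδ
    have hδ0 : 0 ≤ δ := by positivity
    have h4 : H' * δ ≤ 2 * h * ((fib f i0).card + δ) := by
      rw [hδH]
      have : h * ((fib f b).card : ℝ) ≤ h * ((fib f i0).card + δ) :=
        mul_le_mul_of_nonneg_left (by linarith) hh
      linarith
    have h5 : (n + 1) * (H' * δ) ≤ 2 * (n + 1) * h * ((fib f i0).card + δ) := by nlinarith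
    have h7 : 2 * (n + 1) * h * ((fib f i0).card + δ) < H' * ((fib f i0).card + δ) :=
      mul_lt_mul_of_pos_right hhH (by linarith)
    have h8 : H' * ((n + 1) * δ) < H' * ((fib f i0).card + δ) := by nlinarith
    have h9 := lt_of_mul_lt_mul_left h8 hHp.le
    linarith
  · rcases eq_or_lt_of_le hn with hn2 | hn3
    · -- n = 2
      subst hn2
      have hall : ∀ i, bd Γ (fib f i) = bd Γ (fib f i0) := by
        intro i
        by_cases hi : i = i0
        · rw [hi]
        · have : fib f i = (fib f i0)ᶜ := by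
            ext v
            rw [mem_compl, mem_fib, mem_fib]
            constructor
            · rintro rfl h; exact hi h
            · intro h; omega
          rw [this, bd_compl]
      have h1 : β ≤ h * (fib f i0).card := by
        rw [hβ, hall b]
        exact hfb i0
      set δ : ℝ := 2 * β / H' with hδ
      have h2 : H' * δ ≤ 2 * (h * (fib f i0).card) := by rw [hδH]; linarith
      have h3 : H' * (3 * δ) < H' * (fib f i0).card := by
        have : 2 * ((2:ℕ) + 1) * h * ((fib f i0).card : ℝ) < H' * (fib f i0).card :=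
          mul_lt_mul_of_pos_right hhH hap
        push_cast at this
        nlinarith
      exact lt_of_mul_lt_mul_left h3 hHp.le
    · -- n ≥ 3: repeat the estimate
      have hn3' : (3 : ℝ) ≤ n := by exact_mod_cast hn3
      obtain ⟨g, hg⟩ := exists_near Γ hadj htr hgap hh h6 f hf hfb b i0
      have h1 := hconv _ _ _ hg
      have h2 : (fib f b).card ≤ (fib f b \ g • fib f i0).card + (fib f i0).card := by
        have := card_le_card_sdiff_add_card (s := fib f b) (t := g • fib f i0)
        rw [card_smul_finset] at this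
        exact this
      have h2' : ((fib f b).card : ℝ) ≤ (fib f b \ g • fib f i0).card + (fib f i0).card := by
        exact_mod_cast h2
      have h3 := hfb b
      set δ : ℝ := 2 * β / H' with hδ
      have hδ0 : 0 ≤ δ := by positivity
      have h4 : H' * δ ≤ 2 * h * ((fib f i0).card + δ) := by
        rw [hδH]
        have : h * ((fib f b).card : ℝ) ≤ h * ((fib f i0).card + δ) :=
          mul_le_mul_of_nonneg_left (by linarith) hh
        linarith
      have h5 : (n + 1) * (H' * δ) ≤ 2 * (n + 1) * h * ((fib f i0).card + δ) := by nlinarith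
      have h7 : 2 * (n + 1) * h * ((fib f i0).card + δ) < H' * ((fib f i0).card + δ) :=
        mul_lt_mul_of_pos_right hhH (by linarith)
      have h8 : H' * ((n + 1) * δ) < H' * ((fib f i0).card + δ) := by nlinarith
      have h9 := lt_of_mul_lt_mul_left h8 hHp.le
      nlinarith
  · intro i j g
    rcases dichotomy Γ hadj hgap (by linarith) f hf hfb i j g with h1 | h1
    · exact Or.inl (hconv _ _ _ h1)
    · exact Or.inr (hconv _ _ _ h1)
  · intro i j
    obtain ⟨g, hg⟩ := exists_near Γ hadj htr hgap hh h6 f hf hfb i j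
    exact ⟨g, hconv _ _ _ hg⟩

end X68.Iso

namespace X68.Iso

variable {V : Type*} [Fintype V] [DecidableEq V]
variable {G : Type*} [Group G] [Fintype G] [MulAction G V]

lemma exists_q {n : ℕ} (f : V → Fin n) (i0 : Fin n)
    (hmin : ∀ i, (fib f i0).card ≤ (fib f i).card) (δ : ℝ) (hδ0 : 0 ≤ δ)
    (hnδ : n * δ < (fib f i0).card) (h3δ : 3 * δ < (fib f i0).card)
    (hdich : ∀ i j (g : G), ((fib f i ∩ g • fib f j).card : ℝ) ≤ δ ∨
        ((fib f i \ g • fib f j).card : ℝ) ≤ δ)
    (hnear : ∀ i j, ∃ g : G, ((fib f i \ g • fib f j).card : ℝ) ≤ δ) :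
    ∃ q : G → Fin n, Function.Surjective q ∧ (∀ g g' k, q g = q g' → q (k * g) = q (k * g')) ∧
      (∀ g, q g = q 1 → ((fib f i0).card : ℝ) - δ ≤ (fib f i0 ∩ g • fib f i0).card) := by
  classical
  have hsplit : ∀ (S T : Finset V), ((S ∩ T).card : ℝ) + (S \ T).card = S.card := by
    intro S T
    exact_mod_cast card_inter_add_card_sdiff S T
  have hmin' : ∀ i, ((fib f i0).card : ℝ) ≤ (fib f i).card := fun i => by exact_mod_cast hmin i
  have hdich' : ∀ i j (g g' : G), δ < ((g • fib f i ∩ g' • fib f j).card : ℝ) →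
      ((g • fib f i \ g' • fib f j).card : ℝ) ≤ δ := by
    intro i j g g' h
    have e1 : g • fib f i ∩ g' • fib f j = g • (fib f i ∩ (g⁻¹ * g') • fib f j) := by
      rw [smul_finset_inter, smul_smul, mul_inv_cancel_left]
    have e2 : g • fib f i \ g' • fib f j = g • (fib f i \ (g⁻¹ * g') • fib f j) := by
      rw [smul_finset_sdiff, smul_smul, mul_inv_cancel_left]
    rw [e1, card_smul_finset] at h
    rw [e2, card_smul_finset]
    rcases hdich i j (g⁻¹ * g') with h1 | h1
    · linarith
    · exact h1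
  have hsymm : ∀ i j (g g' : G), δ < ((g • fib f i ∩ g' • fib f j).card : ℝ) →
      δ < ((g' • fib f j ∩ g • fib f i).card : ℝ) := by
    intro i j g g' h
    rwa [inter_comm]
  have htrans : ∀ i j k (g g' g'' : G), δ < ((g • fib f i ∩ g' • fib f j).card : ℝ) →
      δ < ((g' • fib f j ∩ g'' • fib f k).card : ℝ) →
      δ < ((g • fib f i ∩ g'' • fib f k).card : ℝ) := by
    intro i j k g g' g'' h1 h2
    have h3 := hdich' i j g g' h1
    have h4 := hdich' j k g' g'' h2
    have h5 : g • fib f i \ g'' • fib f k ⊆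
        (g • fib f i \ g' • fib f j) ∪ (g' • fib f j \ g'' • fib f k) := by
      intro v
      simp only [mem_sdiff, mem_union]
      tauto
    have h6 : ((g • fib f i \ g'' • fib f k).card : ℝ) ≤
        (g • fib f i \ g' • fib f j).card + (g' • fib f j \ g'' • fib f k).card := by
      exact_mod_cast (card_le_card h5).trans (card_union_le _ _)
    have h7 := hsplit (g • fib f i) (g'' • fib f k)
    rw [card_smul_finset] at h7
    have := hmin' i
    linarith
  have hex : ∀ g : G, ∃ i, δ < ((fib f i ∩ g • fib f i0).card : ℝ) := by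
    intro g
    by_contra hcon
    push Not at hcon
    have h1 := sum_inter_fib f (g • fib f i0)
    rw [card_smul_finset] at h1
    have h2 : ((fib f i0).card : ℝ) = ∑ i, ((g • fib f i0 ∩ fib f i).card : ℝ) := by
      exact_mod_cast h1.symm
    have h3 : ∑ i, ((g • fib f i0 ∩ fib f i).card : ℝ) ≤ ∑ _i : Fin n, δ := by
      refine sum_le_sum fun i _ => ?_
      rw [inter_comm]
      exact hcon i
    rw [sum_const, card_univ, Fintype.card_fin, nsmul_eq_mul] at h3
    linarith
  choose q hq using hex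
  have hq' : ∀ g : G, δ < (((1 : G) • fib f (q g) ∩ g • fib f i0).card : ℝ) := by
    intro g
    rw [one_smul]
    exact hq g
  have hone : ∀ i j, δ < (((1 : G) • fib f i ∩ (1 : G) • fib f j).card : ℝ) → i = j := by
    intro i j h
    rw [one_smul, one_smul] at h
    have h0 : (0 : ℝ) < (fib f i ∩ fib f j).card := lt_of_le_of_lt hδ0 h
    have h1 : 0 < (fib f i ∩ fib f j).card := by exact_mod_cast h0
    obtain ⟨v, hv⟩ := card_pos.1 h1
    rw [mem_inter, mem_fib, mem_fib] at hv
    exact hv.1.symm.trans hv.2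
  have hiff : ∀ g g' : G, q g = q g' ↔ δ < ((g • fib f i0 ∩ g' • fib f i0).card : ℝ) := by
    intro g g'
    constructor
    · intro h
      have h1 := hsymm _ _ _ _ (hq' g)
      rw [h] at h1
      exact htrans _ _ _ _ _ _ h1 (hq' g')
    · intro h
      have h1 := htrans _ _ _ _ _ _ (hq' g) h
      exact hone _ _ (htrans _ _ _ _ _ _ h1 (hsymm _ _ _ _ (hq' g')))
  refine ⟨q, ?_, ?_, ?_⟩
  · intro i
    obtain ⟨g, hg⟩ := hnear i i0
    refine ⟨g, ?_⟩
    have h1 := hsplit (fib f i) (g • fib f i0)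
    have h2 := hmin' i
    have h3 : δ < (((1 : G) • fib f i ∩ g • fib f i0).card : ℝ) := by
      rw [one_smul]
      linarith
    exact (hone _ _ (htrans _ _ _ _ _ _ h3 (hsymm _ _ _ _ (hq' g)))).symm
  · intro g g' k h
    rw [hiff] at h ⊢
    rw [mul_smul, mul_smul, ← smul_finset_inter, card_smul_finset]
    exact h
  · intro g hg
    have h1 := (hiff 1 g).1 hg.symm
    have h2 := hdich' _ _ _ _ h1
    rw [one_smul] at h2
    have := hsplit (fib f i0) (g • fib f i0)
    linarith

/-- the equivariant map -/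
lemma exists_F (htr : ∀ u v : V, ∃ g : G, g • u = v) {n : ℕ} (f : V → Fin n)
    (i0 : Fin n)
    (hmin : ∀ i, (fib f i0).card ≤ (fib f i).card) (δ : ℝ)
    (h3δ : 3 * δ < (fib f i0).card) (q : G → Fin n) (hqs : Function.Surjective q)
    (hqe : ∀ g g' k, q g = q g' → q (k * g) = q (k * g'))
    (hqc : ∀ g, q g = q 1 → ((fib f i0).card : ℝ) - δ ≤ (fib f i0 ∩ g • fib f i0).card)
    (hpos : 0 < (fib f i0).card) :
    ∃ F : V → Fin n, Function.Surjective F ∧
      (∀ (g : G) u v, F (g • u) = F (g • v) ↔ F u = F v) ∧ ∃ v0 : V,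
      (∀ g : G, F (g • v0) = q g) ∧
      2 * (univ.filter fun g : G => q g = q 1).card <
        3 * (univ.filter fun g : G => q g = q 1 ∧ g • v0 ∈ fib f i0).card ∧
      Fintype.card G = n * (univ.filter fun g : G => q g = q 1).card := by
  classical
  set K : Finset G := univ.filter fun g : G => q g = q 1 with hK
  have hKm : ∀ g, g ∈ K ↔ q g = q 1 := by intro g; simp [hK]
  have hK1 : (1 : G) ∈ K := by rw [hKm]
  have hKpos : 0 < K.card := card_pos.2 ⟨1, hK1⟩
  have hKinv : ∀ g, g ∈ K → g⁻¹ ∈ K := by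
    intro g hg
    rw [hKm] at hg ⊢
    have := hqe _ _ g⁻¹ hg
    rw [inv_mul_cancel, mul_one] at this
    exact this.symm
  have hKmul : ∀ g g', g ∈ K → g' ∈ K → g * g' ∈ K := by
    intro g g' hg hg'
    rw [hKm] at hg hg' ⊢
    have := hqe _ _ g hg'
    rw [mul_one] at this
    exact this.trans hg
  have hqK : ∀ g g', q g = q g' ↔ g⁻¹ * g' ∈ K := by
    intro g g'
    rw [hKm]
    constructor
    · intro h
      have := hqe _ _ g⁻¹ h
      rw [inv_mul_cancel] at this
      exact this.symm
    · intro h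
      have := hqe _ _ g h
      rw [mul_inv_cancel_left, mul_one] at this
      exact this.symm
  -- |G| = n |K|
  have hGK : Fintype.card G = n * K.card := by
    have h := card_eq_sum_card_fiberwise (s := (univ : Finset G)) (t := (univ : Finset (Fin n)))
      (f := q) (fun g _ => mem_coe.2 (mem_univ _))
    rw [card_univ] at h
    rw [h]
    have : ∀ i ∈ (univ : Finset (Fin n)), (univ.filter fun g => q g = i).card = K.card := by
      intro i _
      obtain ⟨g0, hg0⟩ := hqs i
      symm
      refine card_bij (fun k _ => g0 * k) ?_ ?_ ?_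
      · intro k hk
        simp only [mem_filter, mem_univ, true_and]
        rw [← hg0, hqK]
        have := hKinv _ hk
        rwa [mul_inv_rev, inv_mul_cancel_right]
      · intro k _ k' _ h
        exact mul_left_cancel h
      · intro g hg
        simp only [mem_filter, mem_univ, true_and] at hg
        refine ⟨g0⁻¹ * g, ?_, by group⟩
        rw [← hqK, hg, hg0]
    rw [sum_congr rfl this, sum_const, card_univ, Fintype.card_fin, smul_eq_mul]
  -- v0
  set a := (fib f i0).card with ha
  have hnpos : 0 < n := i0.pos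
  have haN : n * a ≤ Fintype.card V := by
    rw [← sum_fib f]
    calc n * a = ∑ _i : Fin n, a := by rw [sum_const, card_univ, Fintype.card_fin, smul_eq_mul]
      _ ≤ _ := sum_le_sum fun i _ => hmin i
  obtain ⟨v0, hv0, hv0c⟩ : ∃ v0 ∈ fib f i0, 2 * K.card <
      3 * (K.filter fun g => g • v0 ∈ fib f i0).card := by
    by_contra hcon
    push Not at hcon
    have h1 : ∑ v ∈ fib f i0, (K.filter fun g => g • v ∈ fib f i0).card =
        ∑ g ∈ K, (fib f i0 ∩ g • fib f i0).card := by
      simp_rw [card_filter]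
      rw [sum_comm]
      refine sum_congr rfl fun g _ => ?_
      rw [← card_filter, inter_comm]
      refine card_bij (fun v _ => g • v) ?_ ?_ ?_
      · intro v hv
        rw [mem_filter] at hv
        rw [mem_inter]
        exact ⟨smul_mem_smul_finset hv.1, hv.2⟩
      · intro v _ w _ h
        exact MulAction.injective g h
      · intro v hv
        rw [mem_inter] at hv
        refine ⟨g⁻¹ • v, ?_, by simp⟩
        rw [mem_filter, inv_smul_mem_iff, smul_inv_smul]
        exact hv
    have h2 : (K.card : ℝ) * (a - δ) ≤ ((∑ g ∈ K, (fib f i0 ∩ g • fib f i0).card : ℕ) : ℝ) := by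
      push_cast
      calc (K.card : ℝ) * (a - δ) = ∑ _g ∈ K, (a - δ) := by rw [sum_const, nsmul_eq_mul]
        _ ≤ _ := sum_le_sum fun g hg => hqc g ((hKm g).1 hg)
    rw [← h1] at h2
    have h3 : 3 * ∑ v ∈ fib f i0, (K.filter fun g => g • v ∈ fib f i0).card ≤ a * (2 * K.card) := by
      rw [mul_sum]
      calc ∑ v ∈ fib f i0, 3 * (K.filter fun g => g • v ∈ fib f i0).card
          ≤ ∑ _v ∈ fib f i0, 2 * K.card := sum_le_sum fun v hv => hcon v hv
        _ = _ := by rw [sum_const, smul_eq_mul]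
    have h3' : 3 * ((∑ v ∈ fib f i0, (K.filter fun g => g • v ∈ fib f i0).card : ℕ) : ℝ) ≤
        a * (2 * K.card) := by exact_mod_cast h3
    have hKp : (0 : ℝ) < K.card := by exact_mod_cast hKpos
    nlinarith
  -- stabilizer inside K
  have hstab : ∀ g : G, g • v0 = v0 → g ∈ K := by
    intro g hg
    by_contra hgK
    set S : Finset G := K.filter fun k => k • v0 = v0 with hS
    set T : Finset G := univ.filter fun k => k • v0 = v0 with hT
    have hST : 2 * S.card ≤ T.card := by
      have h1 : (S.image fun k => g * k).card = S.card :=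
        card_image_of_injective _ (mul_right_injective g)
      have h2 : S ∪ (S.image fun k => g * k) ⊆ T := by
        intro k hk
        rw [mem_union, mem_image] at hk
        rw [hT, mem_filter]
        refine ⟨mem_univ _, ?_⟩
        rcases hk with hk | ⟨k', hk', rfl⟩
        · exact (mem_filter.1 hk).2
        · rw [mul_smul, (mem_filter.1 hk').2, hg]
      have h3 : Disjoint S (S.image fun k => g * k) := by
        rw [disjoint_left]
        intro k hk hk'
        rw [mem_image] at hk'
        obtain ⟨k', hk', rfl⟩ := hk'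
        apply hgK
        have := hKmul _ _ (mem_filter.1 hk).1 (hKinv _ (mem_filter.1 hk').1)
        rwa [mul_inv_cancel_right] at this
      have h4 := card_le_card h2
      rw [card_union_of_disjoint h3, h1] at h4
      omega
    have hle : (K.filter fun g => g • v0 ∈ fib f i0).card ≤ a * S.card := by
      have h1 := card_eq_sum_card_fiberwise (s := K.filter fun g => g • v0 ∈ fib f i0)
        (f := fun g => g • v0) (t := fib f i0) (fun g hg => by
          rw [mem_coe, mem_filter] at hg
          exact hg.2)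
      rw [h1]
      calc ∑ z ∈ fib f i0, ((K.filter fun g => g • v0 ∈ fib f i0).filter fun g => g • v0 = z).card
          ≤ ∑ _z ∈ fib f i0, S.card := by
            refine sum_le_sum fun z _ => ?_
            rcases ((K.filter fun g => g • v0 ∈ fib f i0).filter fun g => g • v0 = z).eq_empty_or_nonempty with he | ⟨k, hk⟩
            · rw [he]; simp
            · rw [mem_filter, mem_filter] at hk
              refine card_le_card_of_injOn (fun g => k⁻¹ * g) ?_ ?_
              · intro g hg
                rw [mem_coe, mem_filter, mem_filter] at hg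
                rw [mem_coe, hS, mem_filter]
                refine ⟨hKmul _ _ (hKinv _ hk.1.1) hg.1.1, ?_⟩
                rw [mul_smul, hg.2, ← hk.2, inv_smul_smul]
              · intro g _ g' _ h
                exact mul_left_cancel h
        _ = _ := by rw [sum_const, smul_eq_mul]
    have hT2 : Fintype.card V * T.card = Fintype.card G := card_map_mul htr v0 v0
    rw [hGK] at hT2
    -- 2|K| < 3 a |S|, 2|S| ≤ |T|, N|T| = n|K|, n a ≤ N
    have e1 : 2 * K.card < 3 * (a * S.card) := lt_of_lt_of_le hv0c (Nat.mul_le_mul_left _ hle)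
    have e2 : Fintype.card V * (4 * K.card) < Fintype.card V * (3 * (a * T.card)) := by
      have hNp : 0 < Fintype.card V := Fintype.card_pos_iff.2 ⟨v0⟩
      refine Nat.mul_lt_mul_of_pos_left ?_ hNp
      have : a * (2 * S.card) ≤ a * T.card := Nat.mul_le_mul_left _ hST
      nlinarith
    have e3 : Fintype.card V * (3 * (a * T.card)) = 3 * (n * a) * K.card := by
      calc Fintype.card V * (3 * (a * T.card)) = 3 * a * (Fintype.card V * T.card) := by ring
        _ = _ := by rw [hT2]; ring
    have e4 : 3 * (n * a) * K.card ≤ 3 * Fintype.card V * K.card := by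
      exact Nat.mul_le_mul_right _ (Nat.mul_le_mul_left _ haN)
    rw [e3] at e2
    have e5 : Fintype.card V * (4 * K.card) < 3 * Fintype.card V * K.card := lt_of_lt_of_le e2 e4
    nlinarith [Nat.zero_le (Fintype.card V * K.card)]
  -- define F
  choose γ hγ using fun z => htr v0 z
  have hFq : ∀ g : G, q (γ (g • v0)) = q g := by
    intro g
    rw [hqK]
    have h1 : ((γ (g • v0))⁻¹ * g) • v0 = v0 := by
      rw [mul_smul, inv_smul_eq_iff]
      exact (hγ (g • v0)).symm
    exact hstab _ h1
  refine ⟨fun z => q (γ z), ?_, ?_, v0, hFq, ?_, hGK⟩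
  · intro i
    obtain ⟨g, hg⟩ := hqs i
    exact ⟨g • v0, (hFq g).trans hg⟩
  · intro g u v
    have h1 : ∀ (g : G) (u : V), q (γ (g • u)) = q (g * γ u) := by
      intro g u
      have := hFq (g * γ u)
      rw [mul_smul, hγ] at this
      exact this
    simp only [h1]
    constructor
    · intro h
      have := hqe _ _ g⁻¹ h
      rwa [inv_mul_cancel_left, inv_mul_cancel_left] at this
    · intro h
      exact hqe _ _ g h
  · have : (univ.filter fun g : G => q g = q 1 ∧ g • v0 ∈ fib f i0) =
        K.filter fun g => g • v0 ∈ fib f i0 := by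
      rw [hK, filter_filter]
    rw [this]
    exact hv0c

end X68.Iso

namespace X68.Iso

variable {V : Type*} [Fintype V] [DecidableEq V] (Γ : SimpleGraph V) [DecidableRel Γ.Adj]
variable {G : Type*} [Group G] [Fintype G] [MulAction G V]

lemma block_bd (hadj : ∀ (g : G) u v, Γ.Adj (g • u) (g • v) ↔ Γ.Adj u v)
    (htr : ∀ u v : V, ∃ g : G, g • u = v) {n : ℕ} (f : V → Fin n) (i0 : Fin n)
    (hmin : ∀ i, (fib f i0).card ≤ (fib f i).card) (q : G → Fin n) (F : V → Fin n) (v0 : V)
    (hFe : ∀ (g : G) u v, F (g • u) = F (g • v) ↔ F u = F v)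
    (hFq : ∀ g : G, F (g • v0) = q g)
    (hc : 2 * (univ.filter fun g : G => q g = q 1).card <
        3 * (univ.filter fun g : G => q g = q 1 ∧ g • v0 ∈ fib f i0).card)
    (hGK : Fintype.card G = n * (univ.filter fun g : G => q g = q 1).card) :
    bd Γ (fib F (q 1)) ≤ 3 * bd Γ (fib f i0) := by
  classical
  set K : Finset G := univ.filter fun g : G => q g = q 1 with hK
  set C : Finset G := univ.filter fun g : G => q g = q 1 ∧ g • v0 ∈ fib f i0 with hC
  set B := fib F (q 1) with hB
  set A := fib f i0 with hA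
  have hKm : ∀ g, g ∈ K ↔ q g = q 1 := by intro g; simp [hK]
  have hNp : 0 < Fintype.card V := Fintype.card_pos_iff.2 ⟨v0⟩
  have hKpos : 0 < K.card := card_pos.2 ⟨1, (hKm 1).2 rfl⟩
  have hFv0 : F v0 = q 1 := by rw [← hFq 1, one_smul]
  have haN : n * A.card ≤ Fintype.card V := by
    rw [← sum_fib f]
    calc n * A.card = ∑ _i : Fin n, A.card := by
          rw [sum_const, card_univ, Fintype.card_fin, smul_eq_mul]
      _ ≤ _ := sum_le_sum fun i _ => hmin i
  -- for k in K, k u in B iff u in B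
  have hKB : ∀ k ∈ K, ∀ u, F (k • u) = q 1 ↔ F u = q 1 := by
    intro k hk u
    have h1 : F (k • v0) = q 1 := (hFq k).trans ((hKm k).1 hk)
    have h2 := hFe k u v0
    rw [h1, hFv0] at h2
    exact h2
  have hT : ∀ p ∈ bdp Γ B, K.card ≤ 3 * (K.filter fun k => p.1 ∈ k • A ∧ p.2 ∉ k • A).card := by
    intro p hp
    rw [mem_bdp, hB, mem_fib, mem_fib] at hp
    obtain ⟨hu, hw, _⟩ := hp
    set U : Finset G := K.filter fun k => p.1 ∈ k • A with hU
    set W : Finset G := K.filter fun k => p.2 ∈ k • A with hW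
    have hUC : C.card ≤ U.card := by
      obtain ⟨g0, hg0⟩ := htr v0 p.1
      have hqg0 : q g0 = q 1 := by rw [← hFq, hg0, hu]
      refine card_le_card_of_injOn (fun k => g0 * k⁻¹) ?_ ?_
      · intro k hk
        rw [mem_coe, hC, mem_filter] at hk
        obtain ⟨_, hk1, hk2⟩ := hk
        rw [mem_coe, hU, mem_filter]
        refine ⟨?_, ?_⟩
        · rw [hKm, ← hFq, mul_smul]
          have h1 : F (k⁻¹ • v0) = q 1 := by
            have h2 := hKB k ((hKm k).2 hk1) (k⁻¹ • v0)
            rw [smul_inv_smul] at h2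
            exact h2.1 hFv0
          exact (hKB g0 ((hKm g0).2 hqg0) _).2 h1
        · show p.1 ∈ (g0 * k⁻¹) • A
          rw [← inv_smul_mem_iff, ← hg0, mul_inv_rev, inv_inv, mul_smul, inv_smul_smul]
          exact hk2
      · intro k _ k' _ h
        exact inv_injective (mul_left_cancel h)
    have hCW : C.card + W.card ≤ K.card := by
      have h1 : Fintype.card V * C.card ≤ Fintype.card G * (A ∩ B).card := by
        rw [← card_mem (G := G) htr v0 (A ∩ B)]
        refine Nat.mul_le_mul_left _ (card_le_card ?_)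
        intro g hg
        rw [hC, mem_filter] at hg
        exact mem_filter.2 ⟨mem_univ _, mem_inter.2 ⟨hg.2.2, mem_fib.2 ((hFq g).trans hg.2.1)⟩⟩
      have h2 : Fintype.card V * W.card ≤ Fintype.card G * (A \ B).card := by
        rw [← card_mem' (G := G) htr p.2 (A \ B)]
        refine Nat.mul_le_mul_left _ (card_le_card ?_)
        intro g hg
        rw [hW, mem_filter] at hg
        rw [mem_filter, smul_finset_sdiff, mem_sdiff]
        refine ⟨mem_univ _, hg.2, ?_⟩
        intro h3
        rw [← inv_smul_mem_iff, hB, mem_fib] at h3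
        apply hw
        have := (hKB g hg.1 (g⁻¹ • p.2)).2 h3
        rwa [smul_inv_smul] at this
      have h3 : (A ∩ B).card + (A \ B).card = A.card := card_inter_add_card_sdiff A B
      have h4 : Fintype.card V * (C.card + W.card) ≤ Fintype.card V * K.card := by
        calc Fintype.card V * (C.card + W.card) ≤ Fintype.card G * A.card := by
              rw [← h3]; nlinarith
          _ = (n * A.card) * K.card := by rw [hGK]; ring
          _ ≤ Fintype.card V * K.card := Nat.mul_le_mul_right _ haN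
      exact Nat.le_of_mul_le_mul_left h4 hNp
    have hTU : U.card ≤ (K.filter fun k => p.1 ∈ k • A ∧ p.2 ∉ k • A).card + W.card := by
      refine le_trans (card_le_card ?_) (card_union_le _ _)
      intro k hk
      have hk' := mem_filter.1 hk
      by_cases h : p.2 ∈ k • A
      · exact mem_union.2 (Or.inr (mem_filter.2 ⟨hk'.1, h⟩))
      · exact mem_union.2 (Or.inl (mem_filter.2 ⟨hk'.1, hk'.2, h⟩))
    omega
  have h1 : ∑ k ∈ K, ((bdp Γ B).filter fun p => p.1 ∈ k • A ∧ p.2 ∉ k • A).card ≤
      K.card * bd Γ A := by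
    calc ∑ k ∈ K, ((bdp Γ B).filter fun p => p.1 ∈ k • A ∧ p.2 ∉ k • A).card
        ≤ ∑ _k ∈ K, bd Γ A := by
          refine sum_le_sum fun k _ => ?_
          rw [← bd_smul Γ hadj k A]
          refine card_le_card ?_
          intro p hp
          rw [mem_filter, mem_bdp] at hp
          rw [mem_bdp]
          exact ⟨hp.2.1, hp.2.2, hp.1.2.2⟩
      _ = _ := by rw [sum_const, smul_eq_mul]
  have h2 : ∑ k ∈ K, ((bdp Γ B).filter fun p => p.1 ∈ k • A ∧ p.2 ∉ k • A).card =
      ∑ p ∈ bdp Γ B, (K.filter fun k => p.1 ∈ k • A ∧ p.2 ∉ k • A).card := by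
    simp_rw [card_filter]
    rw [sum_comm]
  have h3 : (bdp Γ B).card * K.card ≤
      3 * ∑ p ∈ bdp Γ B, (K.filter fun k => p.1 ∈ k • A ∧ p.2 ∉ k • A).card := by
    rw [mul_sum]
    calc (bdp Γ B).card * K.card = ∑ _p ∈ bdp Γ B, K.card := by rw [sum_const, smul_eq_mul]
      _ ≤ _ := sum_le_sum hT
  rw [← h2] at h3
  have h4 : bd Γ B * K.card ≤ (3 * bd Γ A) * K.card := by
    have : (bdp Γ B).card = bd Γ B := rfl
    rw [this] at h3
    nlinarith
  exact Nat.le_of_mul_le_mul_right h4 hKpos

theorem main_abs (hadj : ∀ (g : G) u v, Γ.Adj (g • u) (g • v) ↔ Γ.Adj u v)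
    (htr : ∀ u v : V, ∃ g : G, g • u = v) {n : ℕ} (hn : 2 ≤ n) {H' h : ℝ} (hgap : Gap Γ n H')
    (hh : 0 ≤ h) (hhH : 2 * (n + 1) * h < H') (f : V → Fin n) (hf : Function.Surjective f)
    (hfb : ∀ i, (bd Γ (fib f i) : ℝ) ≤ h * (fib f i).card) :
    ∃ F : V → Fin n, Function.Surjective F ∧
      (∀ (g : G) u v, F (g • u) = F (g • v) ↔ F u = F v) ∧
      ∀ i, (bd Γ (fib F i) : ℝ) ≤ h * (fib F i).card := by
  classical
  have hne : (univ : Finset (Fin n)).Nonempty := ⟨⟨0, by omega⟩, mem_univ _⟩
  obtain ⟨i0, _, hmin'⟩ := exists_min_image (univ : Finset (Fin n)) (fun i => (fib f i).card) hne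
  have hmin : ∀ i, (fib f i0).card ≤ (fib f i).card := fun i => hmin' i (mem_univ _)
  obtain ⟨δ, hδ0, hnδ, h3δ, hdich, hnear⟩ := exists_delta Γ hadj htr hn hgap hh hhH f hf hfb i0 hmin
  obtain ⟨q, hqs, hqe, hqc⟩ := exists_q f i0 hmin δ hδ0 hnδ h3δ hdich hnear
  obtain ⟨F, hFs, hFe, v0, hFq, hc, hGK⟩ := exists_F htr f i0 hmin δ h3δ q hqs hqe hqc
    (fib_pos hf i0)
  have hbd := block_bd Γ hadj htr f i0 hmin q F v0 hFe hFq hc hGK
  have : Nonempty V := ⟨v0⟩
  set D := (univ.filter fun w => F w ≠ F v0 ∧ Γ.Adj v0 w).card with hDdef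
  have hD : ∀ u, (univ.filter fun w => F w ≠ F u ∧ Γ.Adj u w).card = D := by
    intro u
    obtain ⟨g, rfl⟩ := htr v0 u
    symm
    refine card_bij (fun w _ => g • w) ?_ ?_ ?_
    · intro w hw
      simp only [mem_filter, mem_univ, true_and] at hw ⊢
      rw [Ne, hFe, hadj]
      exact hw
    · intro v _ w _ h
      exact MulAction.injective g h
    · intro w hw
      refine ⟨g⁻¹ • w, ?_, by simp⟩
      simp only [mem_filter, mem_univ, true_and] at hw ⊢
      have h1 := hFe g (g⁻¹ • w) v0
      rw [smul_inv_smul] at h1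
      have h2 := hadj g v0 (g⁻¹ • w)
      rw [smul_inv_smul] at h2
      rw [Ne, ← h1, ← h2]
      exact hw
  have hbe : ∀ i, bd Γ (fib F i) = D * (fib F i).card := by
    intro i
    have h := bd_eq Γ F D hD i (fib F i) (subset_refl _)
    have h2 : ee Γ (fib F i) (fib F i \ fib F i) = 0 := by
      unfold ee
      rw [card_eq_zero, filter_eq_empty_iff]
      intro p _ hp
      simp at hp
    rw [h2, zero_add] at h
    exact h
  -- |B| ≥ a
  have hBa : (fib f i0).card ≤ (fib F (q 1)).card := by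
    have hall : ∀ i, (fib F i).card = (fib F (q 1)).card := by
      intro i
      obtain ⟨g, hg⟩ := hqs i
      have : fib F i = g • fib F (q 1) := by
        ext v
        rw [← inv_smul_mem_iff, mem_fib, mem_fib, ← hg, ← hFq g, ← hFq 1, one_smul]
        have := hFe g (g⁻¹ • v) v0
        rwa [smul_inv_smul] at this
      rw [this, card_smul_finset]
    have h1 : n * (fib F (q 1)).card = Fintype.card V := by
      rw [← sum_fib F, sum_congr rfl (fun i _ => hall i), sum_const, card_univ, Fintype.card_fin,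
        smul_eq_mul]
    have h2 : n * (fib f i0).card ≤ Fintype.card V := by
      rw [← sum_fib f]
      calc n * (fib f i0).card = ∑ _i : Fin n, (fib f i0).card := by
            rw [sum_const, card_univ, Fintype.card_fin, smul_eq_mul]
        _ ≤ _ := sum_le_sum fun i _ => hmin i
    rw [← h1] at h2
    exact Nat.le_of_mul_le_mul_left h2 (by omega)
  have hD3 : (D : ℝ) ≤ 3 * h := by
    have h1 : (bd Γ (fib F (q 1)) : ℝ) ≤ 3 * bd Γ (fib f i0) := by exact_mod_cast hbd
    have h2 := hfb i0
    have h3 : ((fib f i0).card : ℝ) ≤ (fib F (q 1)).card := by exact_mod_cast hBa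
    have h4 : (bd Γ (fib F (q 1)) : ℝ) = D * (fib F (q 1)).card := by
      rw [hbe]; push_cast; ring
    have h5 : (0 : ℝ) < (fib F (q 1)).card := by exact_mod_cast fib_pos hFs (q 1)
    have h6 : (D : ℝ) * (fib F (q 1)).card ≤ 3 * h * (fib F (q 1)).card := by
      have := mul_le_mul_of_nonneg_left h3 hh
      nlinarith
    exact le_of_mul_le_mul_right h6 h5
  have hn' : (2 : ℝ) ≤ n := by exact_mod_cast hn
  have h6 : 6 * h < H' := by nlinarith
  have hfin := final Γ hgap F f hFs hf D hD (by linarith) (by linarith) (by linarith) hfb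
  refine ⟨F, hFs, hFe, fun i => ?_⟩
  rw [hbe]
  push_cast
  exact mul_le_mul_of_nonneg_right hfin (Nat.cast_nonneg _)

end X68.Iso
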