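import Mathlib

/-!
# Penney's game: the relation of Conway

Fair coin tosses are modelled by the product measure on `ℕ → Bool`.
-/

namespace Pool.Agent.X68.Penney

open MeasureTheory

/-- The fair coin. -/
noncomputable def coin : Measure Bool := (PMF.uniformOfFintype Bool).toMeasure

instance : IsProbabilityMeasure coin := by unfold coin; infer_instance

/-- The distribution of an infinite sequence of independent fair coin tosses. -/
noncomputable def tosses : Measure (ℕ → Bool) := Measure.infinitePi (fun _ : ℕ => coin)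

instance : IsProbabilityMeasure tosses := by unfold tosses; infer_instance

theorem coin_singleton (b : Bool) : coin {b} = 1 / 2 := by
  unfold coin
  rw [PMF.toMeasure_apply_singleton _ _ (measurableSet_singleton b)]
  simp

theorem coin_map_not : coin.map (fun b => !b) = coin := by
  apply Measure.ext_of_singleton
  intro b
  rw [Measure.map_apply (measurable_of_countable _) (measurableSet_singleton b)]
  have : (fun b : Bool => !b) ⁻¹' {b} = {!b} := by
    ext c
    cases b <;> cases c <;> simp
  rw [this, coin_singleton, coin_singleton]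

/-- Changing the toss number `T`. -/
def flipAt (T : ℕ) (ω : ℕ → Bool) : ℕ → Bool := fun i => if i = T then !(ω i) else ω i

theorem flipAt_map (T : ℕ) : tosses.map (flipAt T) = tosses := by
  have h := Measure.infinitePi_map_pi (μ := fun _ : ℕ => coin)
    (f := fun i (b : Bool) => if i = T then !b else b)
    (fun i => measurable_of_countable _)
  have h2 : (fun i : ℕ => coin.map (fun b : Bool => if i = T then !b else b)) =
      fun _ : ℕ => coin := by
    funext i
    by_cases hi : i = T
    · simp only [hi, if_true]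
      exact coin_map_not
    · simp only [hi, if_false]
      exact Measure.map_id
  unfold tosses
  rw [h2] at h
  exact h

theorem measurable_flipAt (T : ℕ) : Measurable (flipAt T) := by
  apply measurable_pi_lambda
  intro i
  unfold flipAt
  by_cases hi : i = T
  · simp only [hi, if_true]
    exact (measurable_of_countable (fun b : Bool => !b)).comp (measurable_pi_apply T)
  · simp only [hi, if_false]
    exact measurable_pi_apply i

/-- The event `E` depends only on the first `T` tosses. -/
def Dep (T : ℕ) (E : Set (ℕ → Bool)) : Prop :=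
  ∀ ω ω' : ℕ → Bool, (∀ i < T, ω i = ω' i) → ω ∈ E → ω' ∈ E

theorem Dep.measurableSet {T : ℕ} {E : Set (ℕ → Bool)} (h : Dep T E) : MeasurableSet E := by
  let r : (ℕ → Bool) → (Fin T → Bool) := fun ω i => ω i
  have hr : Measurable r := measurable_pi_lambda _ fun i => measurable_pi_apply _
  have hE : E = r ⁻¹' (r '' E) := by
    ext ω
    constructor
    · exact fun hω => ⟨ω, hω, rfl⟩
    · rintro ⟨ω', hω', he⟩
      exact h ω' ω (fun i hi => congrFun he ⟨i, hi⟩) hω'
  rw [hE]
  exact hr (Set.Finite.measurableSet (Set.toFinite _))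

theorem Dep.mono {T T' : ℕ} {E : Set (ℕ → Bool)} (h : Dep T E) (hT : T ≤ T') : Dep T' E :=
  fun ω ω' he => h ω ω' fun i hi => he i (lt_of_lt_of_le hi hT)

theorem half {T : ℕ} {E : Set (ℕ → Bool)} (h : Dep T E) (c : Bool) :
    tosses.real (E ∩ {ω | ω T = c}) = tosses.real E / 2 := by
  have hc : ∀ c : Bool, MeasurableSet {ω : ℕ → Bool | ω T = c} := by
    intro c
    have e : {ω : ℕ → Bool | ω T = c} = (fun f : ℕ → Bool => f T) ⁻¹' {c} := rfl
    rw [e]
    exact measurable_pi_apply T (measurableSet_singleton c)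
  have hm : ∀ c : Bool, MeasurableSet (E ∩ {ω : ℕ → Bool | ω T = c}) := fun c =>
    h.measurableSet.inter (hc c)
  have h1 : ∀ c : Bool, flipAt T ⁻¹' (E ∩ {ω | ω T = c}) = E ∩ {ω | ω T = !c} := by
    intro c
    ext ω
    simp only [Set.mem_preimage, Set.mem_inter_iff]
    have he : flipAt T ω ∈ E ↔ ω ∈ E := by
      constructor
      · exact h _ _ fun i hi => by simp [flipAt, hi.ne]
      · exact h _ _ fun i hi => by simp [flipAt, hi.ne]
    rw [he]
    have : (flipAt T ω ∈ {ω : ℕ → Bool | ω T = c}) ↔ (ω ∈ {ω : ℕ → Bool | ω T = !c}) := by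
      change flipAt T ω T = c ↔ ω T = !c
      simp only [flipAt, if_true]
      cases ω T <;> cases c <;> simp
    rw [this]
  have h2 : tosses (E ∩ {ω | ω T = c}) = tosses (E ∩ {ω | ω T = !c}) := by
    rw [← h1 c, ← Measure.map_apply (measurable_flipAt T) (hm c), flipAt_map]
  have h3 : E = (E ∩ {ω | ω T = c}) ∪ (E ∩ {ω | ω T = !c}) := by
    ext ω
    constructor
    · intro hω
      by_cases hc : ω T = c
      · exact Or.inl ⟨hω, hc⟩
      · refine Or.inr ⟨hω, ?_⟩
        change ω T = !c
        cases hωT : ω T <;> cases c <;> simp_all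
    · rintro (hω | hω)
      · exact hω.1
      · exact hω.1
  have h4 : Disjoint (E ∩ {ω : ℕ → Bool | ω T = c}) (E ∩ {ω | ω T = !c}) := by
    rw [Set.disjoint_left]
    rintro ω ⟨-, hω⟩ ⟨-, hω'⟩
    have e1 : ω T = c := hω
    have e2 : ω T = !c := hω'
    rw [e1] at e2
    cases c <;> simp at e2
  have h5 : tosses.real E = tosses.real (E ∩ {ω | ω T = c}) + tosses.real (E ∩ {ω | ω T = !c}) := by
    conv_lhs => rw [h3]
    exact measureReal_union h4 (hm _)
  have h6 : tosses.real (E ∩ {ω | ω T = c}) = tosses.real (E ∩ {ω | ω T = !c}) := by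
    unfold Measure.real
    rw [h2]
  linarith

theorem tail {T : ℕ} {E : Set (ℕ → Bool)} (h : Dep T E) (c : ℕ → Bool) (m : ℕ) :
    Dep (T + m) (E ∩ {ω | ∀ j < m, ω (T + j) = c j}) ∧
    tosses.real (E ∩ {ω | ∀ j < m, ω (T + j) = c j}) = tosses.real E * (1 / 2) ^ m := by
  induction m with
  | zero =>
    have : (E ∩ {ω : ℕ → Bool | ∀ j < 0, ω (T + j) = c j}) = E := by
      ext ω; simp
    rw [this]
    exact ⟨by simpa using h, by simp⟩
  | succ m ih =>
    have hset : (E ∩ {ω : ℕ → Bool | ∀ j < m + 1, ω (T + j) = c j}) =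
        (E ∩ {ω | ∀ j < m, ω (T + j) = c j}) ∩ {ω | ω (T + m) = c m} := by
      ext ω
      constructor
      · rintro ⟨h1, h2⟩
        exact ⟨⟨h1, fun j hj => h2 j (by omega)⟩, h2 m (by omega)⟩
      · rintro ⟨⟨h1, h2⟩, h3⟩
        refine ⟨h1, fun j hj => ?_⟩
        rcases Nat.lt_succ_iff_lt_or_eq.mp hj with hj | rfl
        · exact h2 j hj
        · exact h3
    rw [hset]
    constructor
    · rintro ω ω' he ⟨h1, h2⟩
      refine ⟨ih.1 ω ω' (fun i hi => he i (by omega)) h1, ?_⟩
      have : ω (T + m) = ω' (T + m) := he _ (by omega)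
      change ω' (T + m) = c m
      rw [← this]
      exact h2
    · rw [half ih.1, ih.2, pow_succ]
      ring

/-! ### First occurrences -/

/-- The word `X` (its first `n` letters) occurs in `ω`, starting at the toss number `m`. -/
def occ (n : ℕ) (X : ℕ → Bool) (ω : ℕ → Bool) (m : ℕ) : Prop := ∀ j < n, ω (m + j) = X j

/-- The last `k` letters of `X` are the first `k` letters of `Y`. -/
def ov (n : ℕ) (X Y : ℕ → Bool) (k : ℕ) : Prop := ∀ j < k, X (n - k + j) = Y j

open Classical in
/-- The correlation of Conway, divided by `2^(n-1)`. -/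
noncomputable def corr (n : ℕ) (X Y : ℕ → Bool) : ℝ :=
  ∑ k ∈ Finset.Icc 1 n, if ov n X Y k then (1 / 2 : ℝ) ^ (n - k) else 0

section First

variable (n : ℕ) (Z : Bool → ℕ → Bool)

/-- The first occurrence of one of the two words `Z false`, `Z true` is an occurrence of `Z b`
ending just before the toss number `t`. -/
def first (b : Bool) (t : ℕ) : Set (ℕ → Bool) :=
  {ω | ∃ m, m + n = t ∧ occ n (Z b) ω m ∧ ∀ m' < m, ∀ b', ¬ occ n (Z b') ω m'}

/-- None of the two words occurs in the first `L` tosses. -/
def avoid (L : ℕ) : Set (ℕ → Bool) := {ω | ∀ m, m + n ≤ L → ∀ b, ¬ occ n (Z b) ω m}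

variable {n Z}

theorem occ_congr {X ω ω' : ℕ → Bool} {m T : ℕ} (hT : m + n ≤ T) (h : ∀ i < T, ω i = ω' i) :
    occ n X ω m ↔ occ n X ω' m := by
  constructor
  · intro ho j hj
    rw [← h _ (by omega)]
    exact ho j hj
  · intro ho j hj
    rw [h _ (by omega)]
    exact ho j hj

theorem dep_first (b : Bool) (t : ℕ) : Dep t (first n Z b t) := by
  rintro ω ω' h ⟨m, hm, h1, h2⟩
  refine ⟨m, hm, (occ_congr hm.le h).mp h1, fun m' hm' b' ho => ?_⟩
  exact h2 m' hm' b' ((occ_congr (by omega) h).mpr ho)

theorem dep_avoid (L : ℕ) : Dep L (avoid n Z L) := by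
  intro ω ω' h hω m hm b ho
  exact hω m hm b ((occ_congr hm h).mpr ho)

/-- The two words are different. -/
def Distinct (n : ℕ) (Z : Bool → ℕ → Bool) : Prop := ∃ j < n, Z false j ≠ Z true j

theorem Distinct.not_both (hZ : Distinct n Z) {ω : ℕ → Bool} {m : ℕ} {b b' : Bool}
    (h : occ n (Z b) ω m) (h' : occ n (Z b') ω m) : b = b' := by
  obtain ⟨j, hj, hne⟩ := hZ
  have e := (h j hj).symm.trans (h' j hj)
  cases b <;> cases b'
  · rfl
  · exact absurd e hne
  · exact absurd e.symm hne
  · rfl

theorem first_disjoint (hZ : Distinct n Z) {b b' : Bool} {t t' : ℕ} (h : (b, t) ≠ (b', t')) :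
    Disjoint (first n Z b t) (first n Z b' t') := by
  rw [Set.disjoint_left]
  rintro ω ⟨m, hm, h1, h2⟩ ⟨m', hm', h1', h2'⟩
  rcases lt_trichotomy m m' with hlt | heq | hlt
  · exact h2' m hlt b h1
  · subst heq
    have := hZ.not_both h1 h1'
    apply h
    rw [this, ← hm, ← hm']
  · exact h2 m' hlt b' h1'

theorem first_empty {b : Bool} {t : ℕ} (h : t < n) : first n Z b t = ∅ := by
  ext ω
  constructor
  · rintro ⟨m, hm, -⟩
    omega
  · exact fun h => h.elim

/-- The decomposition of the event that no word occurs in the first `L` tosses and the word `Z y`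
occurs immediately afterwards. -/
theorem decomposition (y : Bool) (L : ℕ) :
    avoid n Z L ∩ {ω | ∀ j < n, ω (L + j) = Z y j} =
      ⋃ p ∈ (Finset.univ ×ˢ Finset.Icc 1 n : Finset (Bool × ℕ)),
        {ω | ov n (Z p.1) (Z y) p.2 ∧ ω ∈ first n Z p.1 (L + p.2) ∧
          ∀ j < n - p.2, ω (L + p.2 + j) = Z y (p.2 + j)} := by
  classical
  ext ω
  simp only [Set.mem_iUnion, Finset.mem_product, Finset.mem_univ, true_and, Finset.mem_Icc,
    exists_prop]
  constructor
  · rintro ⟨hav, hocc⟩
    have hex : ∃ m, ∃ b, occ n (Z b) ω m := ⟨L, y, hocc⟩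
    let m := Nat.find hex
    obtain ⟨b, hb⟩ := Nat.find_spec hex
    have hmin : ∀ m' < m, ∀ b', ¬ occ n (Z b') ω m' := fun m' hm' b' ho =>
      Nat.find_min hex hm' ⟨b', ho⟩
    have hmL : m ≤ L := Nat.find_min' hex ⟨y, hocc⟩
    have hmn : L < m + n := by
      by_contra hle
      exact hav m (by omega) b hb
    refine ⟨(b, m + n - L), ⟨by simp only; omega, by simp only; omega⟩, ?_, ?_, ?_⟩
    · intro j hj
      have h1 := hb (n - (m + n - L) + j) (by simp only at hj; omega)
      have h2 := hocc j (by simp only at hj; omega)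
      simp only at hj ⊢
      rw [← h1, ← h2]
      congr 1
      omega
    · exact ⟨m, by simp only; omega, hb, hmin⟩
    · intro j hj
      simp only at hj ⊢
      have h2 := hocc (m + n - L + j) (by omega)
      rw [← h2]
      congr 1
      omega
  · rintro ⟨⟨b, k⟩, ⟨hk1, hkn⟩, hov, ⟨m, hm, hb, hmin⟩, htail⟩
    simp only at hk1 hkn hov hm hb htail
    constructor
    · intro m' hm' b' ho
      exact hmin m' (by omega) b' ho
    · intro j hj
      by_cases hjk : j < k
      · have h1 := hov j hjk
        have h2 := hb (n - k + j) (by omega)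
        rw [← h1, ← h2]
        congr 1
        omega
      · have h1 := htail (j - k) (by omega)
        have e1 : L + k + (j - k) = L + j := by omega
        have e2 : k + (j - k) = j := by omega
        rw [e1, e2] at h1
        exact h1

open Classical in
theorem identity (hZ : Distinct n Z) (y : Bool) (L : ℕ) :
    tosses.real (avoid n Z L) * (1 / 2) ^ n =
      ∑ p ∈ (Finset.univ ×ˢ Finset.Icc 1 n : Finset (Bool × ℕ)),
        (if ov n (Z p.1) (Z y) p.2 then (1 / 2 : ℝ) ^ (n - p.2) else 0) *
          tosses.real (first n Z p.1 (L + p.2)) := by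
  rw [← (tail (dep_avoid (n := n) (Z := Z) L) (Z y) n).2, decomposition y L]
  have hterm : ∀ p : Bool × ℕ, {ω | ov n (Z p.1) (Z y) p.2 ∧ ω ∈ first n Z p.1 (L + p.2) ∧
      ∀ j < n - p.2, ω (L + p.2 + j) = Z y (p.2 + j)} =
      if ov n (Z p.1) (Z y) p.2 then (first n Z p.1 (L + p.2) ∩
        {ω | ∀ j < n - p.2, ω (L + p.2 + j) = Z y (p.2 + j)}) else ∅ := by
    intro p
    split_ifs with hov
    · ext ω
      exact ⟨fun h => ⟨h.2.1, h.2.2⟩, fun h => ⟨hov, h.1, h.2⟩⟩
    · ext ω
      exact ⟨fun h => hov h.1, fun h => h.elim⟩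
  have hmeas : ∀ p ∈ (Finset.univ ×ˢ Finset.Icc 1 n : Finset (Bool × ℕ)),
      MeasurableSet {ω | ov n (Z p.1) (Z y) p.2 ∧ ω ∈ first n Z p.1 (L + p.2) ∧
        ∀ j < n - p.2, ω (L + p.2 + j) = Z y (p.2 + j)} := by
    intro p _
    rw [hterm p]
    split_ifs
    · exact (tail (dep_first p.1 (L + p.2)) (fun j => Z y (p.2 + j)) (n - p.2)).1.measurableSet
    · exact MeasurableSet.empty
  rw [measureReal_biUnion_finset ?_ hmeas]
  · apply Finset.sum_congr rfl
    intro p _
    rw [hterm p]
    split_ifs
    · rw [(tail (dep_first p.1 (L + p.2)) (fun j => Z y (p.2 + j)) (n - p.2)).2]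
      ring
    · simp
  · intro p _ q _ hpq
    have hd := first_disjoint hZ (b := p.1) (t := L + p.2) (b' := q.1) (t' := L + q.2) (by
      intro he
      apply hpq
      have h1 := (Prod.mk.inj he).1
      have h2 := (Prod.mk.inj he).2
      exact Prod.ext h1 (by omega))
    exact hd.mono (fun ω h => h.2.1) (fun ω h => h.2.1)

/-- The probability that the word `Z b` occurs first. -/
noncomputable def prob (n : ℕ) (Z : Bool → ℕ → Bool) (b : Bool) : ℝ :=
  tosses.real (⋃ t, first n Z b t)

theorem hasSum_first (hZ : Distinct n Z) (b : Bool) :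
    HasSum (fun t => tosses.real (first n Z b t)) (prob n Z b) := by
  unfold prob Measure.real
  have h1 : tosses (⋃ t, first n Z b t) = ∑' t, tosses (first n Z b t) := by
    apply measure_iUnion
    · intro t t' htt
      exact first_disjoint hZ (by
        intro he
        exact htt (Prod.mk.inj he).2)
    · exact fun t => (dep_first b t).measurableSet
  rw [h1, ENNReal.tsum_toReal_eq (fun t => measure_ne_top _ _)]
  apply ENNReal.hasSum_toReal
  rw [← h1]
  exact measure_ne_top _ _

theorem hasSum_first_shift (hZ : Distinct n Z) (b : Bool) {k : ℕ} (hk : k ≤ n) :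
    HasSum (fun L => tosses.real (first n Z b (L + k))) (prob n Z b) := by
  have h := (hasSum_nat_add_iff' (f := fun t => tosses.real (first n Z b t)) k).mpr
    (hasSum_first hZ b)
  have h0 : ∑ i ∈ Finset.range k, tosses.real (first n Z b i) = 0 := by
    apply Finset.sum_eq_zero
    intro i hi
    rw [first_empty (by have := Finset.mem_range.mp hi; omega)]
    simp
  rw [h0, sub_zero] at h
  exact h

theorem hasSum_avoid (hZ : Distinct n Z) (y : Bool) :
    HasSum (fun L => tosses.real (avoid n Z L) * (1 / 2) ^ n)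
      (∑ b : Bool, corr n (Z b) (Z y) * prob n Z b) := by
  classical
  have h1 : HasSum (fun L => ∑ p ∈ (Finset.univ ×ˢ Finset.Icc 1 n : Finset (Bool × ℕ)),
        (if ov n (Z p.1) (Z y) p.2 then (1 / 2 : ℝ) ^ (n - p.2) else 0) *
          tosses.real (first n Z p.1 (L + p.2)))
      (∑ p ∈ (Finset.univ ×ˢ Finset.Icc 1 n : Finset (Bool × ℕ)),
        (if ov n (Z p.1) (Z y) p.2 then (1 / 2 : ℝ) ^ (n - p.2) else 0) * prob n Z p.1) := by
    apply hasSum_sum
    intro p hp
    apply HasSum.mul_left
    apply hasSum_first_shift hZ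
    exact (Finset.mem_Icc.mp (Finset.mem_product.mp hp).2).2
  have h2 : (∑ p ∈ (Finset.univ ×ˢ Finset.Icc 1 n : Finset (Bool × ℕ)),
        (if ov n (Z p.1) (Z y) p.2 then (1 / 2 : ℝ) ^ (n - p.2) else 0) * prob n Z p.1) =
      ∑ b : Bool, corr n (Z b) (Z y) * prob n Z b := by
    rw [Finset.sum_product]
    apply Finset.sum_congr rfl
    intro b _
    unfold corr
    rw [Finset.sum_mul]
  rw [h2] at h1
  have h3 : (fun L => tosses.real (avoid n Z L) * (1 / 2) ^ n) =
      fun L => ∑ p ∈ (Finset.univ ×ˢ Finset.Icc 1 n : Finset (Bool × ℕ)),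
        (if ov n (Z p.1) (Z y) p.2 then (1 / 2 : ℝ) ^ (n - p.2) else 0) *
          tosses.real (first n Z p.1 (L + p.2)) := by
    funext L
    exact identity hZ y L
  rw [h3]
  exact h1

theorem prob_nonneg (b : Bool) : 0 ≤ prob n Z b := measureReal_nonneg

/-- One of the words occurs first, almost surely. -/
theorem prob_add (hZ : Distinct n Z) : prob n Z false + prob n Z true = 1 := by
  have hmeas : ∀ b, MeasurableSet (⋃ t, first n Z b t) := fun b =>
    MeasurableSet.iUnion fun t => (dep_first b t).measurableSet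
  have hdisj : Disjoint (⋃ t, first n Z false t) (⋃ t, first n Z true t) := by
    rw [Set.disjoint_iUnion_left]
    intro t
    rw [Set.disjoint_iUnion_right]
    intro t'
    exact first_disjoint hZ (by
      intro he
      exact absurd (Prod.mk.inj he).1 (by decide))
  have hadd : prob n Z false + prob n Z true =
      tosses.real ((⋃ t, first n Z false t) ∪ (⋃ t, first n Z true t)) := by
    unfold prob
    rw [measureReal_union hdisj (hmeas true)]
  set U := (⋃ t, first n Z false t) ∪ (⋃ t, first n Z true t) with hU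
  have hUm : MeasurableSet U := (hmeas false).union (hmeas true)
  have hcompl : ∀ L, Uᶜ ⊆ avoid n Z L := by
    classical
    intro L ω hω m _ b ho
    apply hω
    have hex : ∃ m, ∃ b, occ n (Z b) ω m := ⟨m, b, ho⟩
    obtain ⟨b', hb'⟩ := Nat.find_spec hex
    have hf : ω ∈ first n Z b' (Nat.find hex + n) :=
      ⟨Nat.find hex, rfl, hb', fun m' hm' b'' ho' => Nat.find_min hex hm' ⟨b'', ho'⟩⟩
    cases b' with
    | false => exact Or.inl (Set.mem_iUnion.mpr ⟨_, hf⟩)
    | true => exact Or.inr (Set.mem_iUnion.mpr ⟨_, hf⟩)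
  have hlim : Filter.Tendsto (fun L => tosses.real (avoid n Z L) * (1 / 2) ^ n) Filter.atTop
      (nhds 0) := (hasSum_avoid hZ false).summable.tendsto_atTop_zero
  have hle : tosses.real Uᶜ * (1 / 2) ^ n ≤ 0 := by
    apply ge_of_tendsto' hlim
    intro L
    apply mul_le_mul_of_nonneg_right _ (by positivity)
    exact measureReal_mono (hcompl L)
  have hz : tosses.real Uᶜ = 0 := by
    have h0 : 0 ≤ tosses.real Uᶜ := measureReal_nonneg
    have h1 : (0 : ℝ) < (1 / 2) ^ n := by positivity
    by_contra hne
    have h2 : 0 < tosses.real Uᶜ := lt_of_le_of_ne h0 (Ne.symm hne)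
    have := mul_pos h2 h1
    linarith
  rw [hadd]
  have := probReal_add_probReal_compl (μ := tosses) hUm
  linarith

/-- The relation of Conway. -/
theorem conway (hZ : Distinct n Z) :
    prob n Z false * (corr n (Z false) (Z false) - corr n (Z false) (Z true)) =
      prob n Z true * (corr n (Z true) (Z true) - corr n (Z true) (Z false)) := by
  have h := (hasSum_avoid hZ false).unique (hasSum_avoid hZ true)
  rw [Fintype.sum_bool, Fintype.sum_bool] at h
  linarith

end First

end Pool.Agent.X68.Penney
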