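import Mathlib

namespace Pool.Agent.X68.IrrCoset

open Matrix

/-- Hypotheses on a commutative topological ring `R = K ⊕ I` (`π` = projection on `K`,
`I = ker π`, `I * I = 0`), with a sequence `J m` of ideals inside `I`. -/
structure Data (R : Type) [CommRing R] [TopologicalSpace R] where
  π : R →+* R
  idem : ∀ x, π (π x) = π x
  sq : ∀ x y, π x = 0 → π y = 0 → x * y = 0
  two : ∀ x : R, 2 * x = 0 → x = 0
  three : ∀ x : R, 3 * x = 0 → x = 0
  closedK : IsClosed {x : R | π x = x}
  dense : ∀ x, π x = 0 → x ≠ 0 → ∀ S : AddSubgroup R, IsClosed (S : Set R) →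
    (∀ k, π k = k → k ∈ S) → (∀ k, π k = k → k * x ∈ S) → ∀ y, y ∈ S
  cancel : ∀ k x, π k = k → π x = 0 → k * x = 0 → k = 0 ∨ x = 0
  cube : ∀ k, π k = k → k ^ 3 = 1 → k = 1
  J : ℕ → Ideal R
  J_le : ∀ m x, x ∈ J m → π x = 0
  J_closed : ∀ m, IsClosed (J m : Set R)
  J_simple : ∀ m x, x ∈ J m → x ≠ 0 → ∀ S : AddSubgroup R, IsClosed (S : Set R) →
    (∀ k, π k = k → k * x ∈ S) → ∀ y ∈ J m, y ∈ S
  w : ℕ → R
  w_mem : ∀ m m', w m ∈ J m' ↔ m = m'

abbrev SL3 (R : Type) [CommRing R] := Matrix.SpecialLinearGroup (Fin 3) R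

section
variable {R : Type} [CommRing R]

/-- elementary matrix -/
def e (i j : Fin 3) (h : i ≠ j) (x : R) : SL3 R :=
  ⟨1 + Matrix.single i j x, Matrix.det_transvection_of_ne i j h x⟩

@[simp] lemma e_val (i j : Fin 3) (h : i ≠ j) (x : R) :
    (e i j h x).val = 1 + Matrix.single i j x := rfl

lemma e_mul (i j : Fin 3) (h : i ≠ j) (x y : R) :
    e i j h x * e i j h y = e i j h (x + y) := by
  apply Subtype.ext
  have := Matrix.transvection_mul_transvection_same (i := i) (j := j) h x y
  simpa [Matrix.transvection] using this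

lemma e_zero (i j : Fin 3) (h : i ≠ j) : e i j h (0 : R) = 1 := by
  apply Subtype.ext
  simp

lemma e_inv (i j : Fin 3) (h : i ≠ j) (x : R) : (e i j h x)⁻¹ = e i j h (-x) := by
  rw [inv_eq_iff_mul_eq_one, e_mul, add_neg_cancel, e_zero]

/-- the additive group of `x` with `e i j x ∈ L` -/
def S (L : Subgroup (SL3 R)) (i j : Fin 3) (h : i ≠ j) : AddSubgroup R where
  carrier := {x | e i j h x ∈ L}
  zero_mem' := by
    change e i j h 0 ∈ L
    rw [e_zero]; exact L.one_mem
  add_mem' := by
    intro x y hx hy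
    change e i j h (x + y) ∈ L
    rw [← e_mul]; exact L.mul_mem hx hy
  neg_mem' := by
    intro x hx
    change e i j h (-x) ∈ L
    rw [← e_inv]; exact L.inv_mem hx

lemma continuous_e [TopologicalSpace R] [IsTopologicalRing R] (i j : Fin 3) (h : i ≠ j) :
    Continuous (fun x : R => e i j h x) := by
  apply Continuous.subtype_mk
  refine continuous_matrix fun a b => ?_
  simp only [Matrix.add_apply, Matrix.single_apply]
  split_ifs <;> fun_prop

lemma S_closed [TopologicalSpace R] [IsTopologicalRing R] (L : Subgroup (SL3 R))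
    (hL : IsClosed (L : Set (SL3 R))) (i j : Fin 3) (h : i ≠ j) :
    IsClosed (S L i j h : Set R) :=
  hL.preimage (continuous_e i j h)

end

section
variable {R : Type} [CommRing R] [TopologicalSpace R] (D : Data R)

/-- the fixed group of `π` : `SL_3(K)` -/
def H : Subgroup (SL3 R) where
  carrier := {g | ∀ i j, D.π (g.val i j) = g.val i j}
  one_mem' := by
    intro i j
    rw [Matrix.SpecialLinearGroup.coe_one, Matrix.one_apply]
    split_ifs <;> simp
  mul_mem' := by
    intro a b ha hb i j
    rw [Matrix.SpecialLinearGroup.coe_mul, Matrix.mul_apply, map_sum]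
    refine Finset.sum_congr rfl fun k _ => ?_
    rw [map_mul, ha, hb]
  inv_mem' := by
    intro a ha i j
    have h1 : Matrix.SpecialLinearGroup.map D.π a = a := by
      apply Subtype.ext
      ext i j
      exact ha i j
    have h2 : Matrix.SpecialLinearGroup.map D.π a⁻¹ = a⁻¹ := by
      rw [map_inv, h1]
    have h3 := congrArg (fun z : SL3 R => z.val i j) h2
    exact h3

lemma mem_H (g : SL3 R) : g ∈ H D ↔ Matrix.SpecialLinearGroup.map D.π g = g := by
  constructor
  · intro h
    apply Subtype.ext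
    ext i j
    exact h i j
  · intro h i j
    exact congrArg (fun z : SL3 R => z.val i j) h

/-- the congruence-type subgroup `1 + M_3(J)` -/
def M (J : Ideal R) : Subgroup (SL3 R) := (Matrix.SpecialLinearGroup.map (Ideal.Quotient.mk J)).ker

instance (J : Ideal R) : (M J).Normal := by
  unfold M
  infer_instance

omit [TopologicalSpace R] in
lemma mem_M (J : Ideal R) (g : SL3 R) :
    g ∈ M J ↔ ∀ i j, (g.val - 1) i j ∈ J := by
  unfold M
  rw [MonoidHom.mem_ker]
  constructor
  · intro h i j
    have h1 := congrArg (fun z : SL3 (R ⧸ J) => z.val i j) h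
    have h2 : (Ideal.Quotient.mk J) (g.val i j) = (1 : Matrix (Fin 3) (Fin 3) (R ⧸ J)) i j := h1
    rw [← Ideal.Quotient.eq_zero_iff_mem, Matrix.sub_apply, map_sub, h2]
    rw [Matrix.one_apply, Matrix.one_apply]
    split_ifs <;> simp
  · intro h
    apply Subtype.ext
    ext i j
    have h1 := h i j
    rw [← Ideal.Quotient.eq_zero_iff_mem, Matrix.sub_apply, map_sub, sub_eq_zero] at h1
    change (Ideal.Quotient.mk J) (g.val i j) = (1 : Matrix (Fin 3) (Fin 3) (R ⧸ J)) i j
    rw [h1, Matrix.one_apply, Matrix.one_apply]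
    split_ifs <;> simp

/-- the set of `X` with entries in `I` and `1 + X ∈ L`. -/
def T (L : Subgroup (SL3 R)) (X : Matrix (Fin 3) (Fin 3) R) : Prop :=
  (∀ i j, D.π (X i j) = 0) ∧ ∃ n ∈ L, n.val = 1 + X

lemma mul_zero_of (X Y : Matrix (Fin 3) (Fin 3) R) (hX : ∀ i j, D.π (X i j) = 0)
    (hY : ∀ i j, D.π (Y i j) = 0) : X * Y = 0 := by
  ext i j
  rw [Matrix.mul_apply, Matrix.zero_apply]
  exact Finset.sum_eq_zero fun k _ => D.sq _ _ (hX i k) (hY k j)

variable {D}

lemma T.zero (L : Subgroup (SL3 R)) : T D L 0 := by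
  refine ⟨by simp, 1, L.one_mem, by simp⟩

lemma T.add {L : Subgroup (SL3 R)} {X Y : Matrix (Fin 3) (Fin 3) R} (hX : T D L X)
    (hY : T D L Y) : T D L (X + Y) := by
  obtain ⟨hX1, n, hn, hn1⟩ := hX
  obtain ⟨hY1, m, hm, hm1⟩ := hY
  refine ⟨fun i j => by simp [hX1 i j, hY1 i j], n * m, L.mul_mem hn hm, ?_⟩
  rw [Matrix.SpecialLinearGroup.coe_mul, hn1, hm1]
  have := mul_zero_of D X Y hX1 hY1
  linear_combination (norm := noncomm_ring) this

lemma T.neg {L : Subgroup (SL3 R)} {X : Matrix (Fin 3) (Fin 3) R} (hX : T D L X) :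
    T D L (-X) := by
  obtain ⟨hX1, n, hn, hn1⟩ := hX
  refine ⟨fun i j => by simp [hX1 i j], n⁻¹, L.inv_mem hn, ?_⟩
  have h0 := mul_zero_of D X X hX1 hX1
  have h1 : n.val * (n⁻¹ : SL3 R).val = 1 := by
    rw [← Matrix.SpecialLinearGroup.coe_mul, mul_inv_cancel, Matrix.SpecialLinearGroup.coe_one]
  have h2 : (1 - X) * n.val = 1 := by
    rw [hn1]
    have : (1 - X) * (1 + X) = 1 - X * X := by noncomm_ring
    rw [this, h0, sub_zero]
  calc (n⁻¹ : SL3 R).val = ((1 - X) * n.val) * (n⁻¹ : SL3 R).val := by rw [h2, one_mul]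
    _ = (1 - X) * (n.val * (n⁻¹ : SL3 R).val) := by rw [mul_assoc]
    _ = 1 + -X := by rw [h1, mul_one, sub_eq_add_neg]

lemma T.sub {L : Subgroup (SL3 R)} {X Y : Matrix (Fin 3) (Fin 3) R} (hX : T D L X)
    (hY : T D L Y) : T D L (X - Y) := by
  rw [sub_eq_add_neg]; exact hX.add hY.neg

lemma T.conj {L : Subgroup (SL3 R)} (hn : ∀ h ∈ H D, ∀ l ∈ L, h * l * h⁻¹ ∈ L)
    {X : Matrix (Fin 3) (Fin 3) R} (hX : T D L X) {i j : Fin 3} (hij : i ≠ j) {r : R}
    (hr : D.π r = r) :
    T D L ((1 + Matrix.single i j r) * X * (1 - Matrix.single i j r)) := by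
  obtain ⟨hX1, n, hnL, hn1⟩ := hX
  have he : e i j hij r ∈ H D := by
    intro a b
    rw [e_val, Matrix.add_apply, Matrix.one_apply, Matrix.single_apply]
    split_ifs <;> simp [hr]
  refine ⟨?_, _, hn _ he n hnL, ?_⟩
  · intro a b
    simp only [Matrix.mul_apply, map_sum, map_mul, hX1, mul_zero, zero_mul, Finset.sum_const_zero]
  · rw [e_inv, Matrix.SpecialLinearGroup.coe_mul, Matrix.SpecialLinearGroup.coe_mul, e_val, e_val,
      hn1]
    have hs : Matrix.single i j (-r) = -Matrix.single i j r := by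
      rw [Matrix.single_neg]
    have h0 : Matrix.single i j r * Matrix.single i j r = 0 :=
      Matrix.single_mul_single_of_ne _ _ _ _ hij.symm _
    rw [hs]
    linear_combination (norm := noncomm_ring) -h0

/-- conj by `1+E` minus itself -/
lemma T.comm {L : Subgroup (SL3 R)} (hn : ∀ h ∈ H D, ∀ l ∈ L, h * l * h⁻¹ ∈ L)
    {X : Matrix (Fin 3) (Fin 3) R} (hX : T D L X) {i j : Fin 3} (hij : i ≠ j) {r : R}
    (hr : D.π r = r) :
    T D L (Matrix.single i j r * X - X * Matrix.single i j r
      - Matrix.single i j r * X * Matrix.single i j r) := by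
  have h := (hX.conj hn hij hr).sub hX
  convert h using 1
  noncomm_ring

omit [TopologicalSpace R] in
lemma single_mul_mul (i j : Fin 3) (X : Matrix (Fin 3) (Fin 3) R) (r : R) :
    Matrix.single i j r * X * Matrix.single i j r = Matrix.single i j (r * X j i * r) := by
  rw [Matrix.single_mul_mul_single]

/-- extraction of an elementary matrix -/
lemma T.extract {L : Subgroup (SL3 R)} (hn : ∀ h ∈ H D, ∀ l ∈ L, h * l * h⁻¹ ∈ L)
    {X : Matrix (Fin 3) (Fin 3) R} (hX : T D L X) (hX0 : X ≠ 0)
    (htr : X 0 0 + X 1 1 + X 2 2 = 0) :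
    ∃ i j x, i ≠ j ∧ x ≠ 0 ∧ D.π x = 0 ∧ T D L (Matrix.single i j x) := by
  by_cases hoff : ∃ i j, i ≠ j ∧ X j i ≠ 0
  · obtain ⟨i, j, hij, hji⟩ := hoff
    have h1 := (hX.comm hn hij (map_one D.π)).comm hn hij (map_one D.π)
    have h0 : Matrix.single i j (1 : R) * Matrix.single i j (1 : R) = 0 :=
      Matrix.single_mul_single_of_ne _ _ _ _ hij.symm _
    have h2 : T D L (Matrix.single i j (-(2 * X j i))) := by
      convert h1 using 1
      have h3 : Matrix.single i j (-(2 * X j i)) =
          -(2 : R) • (Matrix.single i j (1 : R) * X * Matrix.single i j (1 : R)) := by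
        rw [single_mul_mul, Matrix.smul_single]
        simp
      rw [h3]
      generalize Matrix.single i j (1 : R) = E at *
      have e1 : E * (E * X - X * E - E * X * E) = -(E * X * E) := by
        have : E * (E * X - X * E - E * X * E) = (E * E) * X - E * X * E - (E * E) * X * E := by
          noncomm_ring
        rw [this, h0]; simp
      have e2 : (E * X - X * E - E * X * E) * E = E * X * E := by
        have : (E * X - X * E - E * X * E) * E = E * X * E - X * (E * E) - E * X * (E * E) := by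
          noncomm_ring
        rw [this, h0]; simp
      rw [e1, e2]
      have e3 : -(E * X * E) * E = -(E * X * (E * E)) := by noncomm_ring
      rw [e3, h0]
      rw [neg_smul, two_smul]
      simp
      abel
    refine ⟨i, j, _, hij, ?_, ?_, h2⟩
    · intro h
      rw [neg_eq_zero] at h
      exact hji (D.two _ h)
    · rw [map_neg, map_mul, hX.1 j i]; simp
  · push Not at hoff
    have hoff' : ∀ i j, i ≠ j → X i j = 0 := fun i j h => hoff j i h.symm
    have hd : ∃ i j, i ≠ j ∧ X j j ≠ X i i := by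
      by_contra hcon
      push Not at hcon
      apply hX0
      have h1 : X 1 1 = X 0 0 := hcon 0 1 (by decide)
      have h2 : X 2 2 = X 0 0 := hcon 0 2 (by decide)
      have h3 : X 0 0 = 0 := by
        apply D.three
        rw [h1, h2] at htr
        linear_combination htr
      ext i j
      rw [Matrix.zero_apply]
      by_cases h : i = j
      · subst h
        fin_cases i
        · exact h3
        · exact h1.trans h3
        · exact h2.trans h3
      · exact hoff' i j h
    obtain ⟨i, j, hij, hne⟩ := hd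
    have h1 := hX.comm hn hij (map_one D.π)
    refine ⟨i, j, X j j - X i i, hij, sub_ne_zero.mpr hne, ?_, ?_⟩
    · rw [map_sub, hX.1, hX.1, sub_zero]
    · convert h1 using 1
      rw [single_mul_mul, hoff' j i hij.symm]
      ext a b
      simp only [Matrix.sub_apply, mul_zero, zero_mul, Matrix.single_zero, Matrix.zero_apply,
        sub_zero]
      by_cases ha : a = i
      · subst ha
        rw [Matrix.single_mul_apply_same, one_mul]
        by_cases hb : b = j
        · subst hb
          rw [Matrix.mul_single_apply_same, mul_one, Matrix.single_apply_same]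
        · rw [Matrix.mul_single_apply_of_ne _ _ _ _ _ hb, hoff' j b (Ne.symm hb), sub_zero,
            Matrix.single_apply]
          simp [Ne.symm hb]
      · rw [Matrix.single_mul_apply_of_ne _ _ _ _ _ ha, Matrix.single_apply]
        by_cases hb : b = j
        · subst hb
          rw [Matrix.mul_single_apply_same, mul_one, hoff' a i ha]
          simp [Ne.symm ha]
        · rw [Matrix.mul_single_apply_of_ne _ _ _ _ _ hb]
          simp [Ne.symm ha]

/-- moving around in the hexagon of roots -/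
lemma hex (P : Fin 3 → Fin 3 → Prop)
    (h1 : ∀ i j k : Fin 3, i ≠ j → j ≠ k → i ≠ k → P i j → P i k)
    (h2 : ∀ i j k : Fin 3, i ≠ j → j ≠ k → i ≠ k → P i j → P k j)
    (i j k l : Fin 3) (hij : i ≠ j) (hkl : k ≠ l) (h : P i j) : P k l := by
  have a1 : P i j → P 0 1 := by
    intro h
    fin_cases i <;> fin_cases j
    · exact absurd rfl hij
    · exact h
    · exact h1 0 2 1 (by decide) (by decide) (by decide) h
    · exact h2 2 1 0 (by decide) (by decide) (by decide)
        (h1 2 0 1 (by decide) (by decide) (by decide)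
        (h2 1 0 2 (by decide) (by decide) (by decide) h))
    · exact absurd rfl hij
    · exact h1 0 2 1 (by decide) (by decide) (by decide)
        (h2 1 2 0 (by decide) (by decide) (by decide) h)
    · exact h2 2 1 0 (by decide) (by decide) (by decide)
        (h1 2 0 1 (by decide) (by decide) (by decide) h)
    · exact h2 2 1 0 (by decide) (by decide) (by decide) h
    · exact absurd rfl hij
  have p01 := a1 h
  have p02 := h1 0 1 2 (by decide) (by decide) (by decide) p01
  have p21 := h2 0 1 2 (by decide) (by decide) (by decide) p01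
  have p12 := h2 0 2 1 (by decide) (by decide) (by decide) p02
  have p20 := h1 2 1 0 (by decide) (by decide) (by decide) p21
  have p10 := h1 1 2 0 (by decide) (by decide) (by decide) p12
  fin_cases k <;> fin_cases l
  · exact absurd rfl hkl
  · exact p01
  · exact p02
  · exact p10
  · exact absurd rfl hkl
  · exact p12
  · exact p20
  · exact p21
  · exact absurd rfl hkl

lemma third (i j : Fin 3) (h : i ≠ j) : ∃ k, j ≠ k ∧ i ≠ k := by
  revert i j; decide

/-- spreading -/
lemma T.spread {L : Subgroup (SL3 R)} (hn : ∀ h ∈ H D, ∀ l ∈ L, h * l * h⁻¹ ∈ L)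
    {i j : Fin 3} (hij : i ≠ j) {x : R} (hx : T D L (Matrix.single i j x))
    {k l : Fin 3} (hkl : k ≠ l) {r : R} (hr : D.π r = r) :
    T D L (Matrix.single k l (r * x)) := by
  -- basic moves
  have m1 : ∀ (i j k : Fin 3) (y s : R), i ≠ j → j ≠ k → i ≠ k → D.π s = s →
      T D L (Matrix.single i j y) → T D L (Matrix.single i k (s * y)) := by
    intro i j k y s hij hjk hik hs h
    have h1 := (h.comm hn hjk hs).neg
    convert h1 using 1
    rw [Matrix.single_mul_single_of_ne _ _ _ _ hik.symm, Matrix.single_mul_single_same]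
    rw [zero_mul, sub_zero, zero_sub, neg_neg, mul_comm]
  have m2 : ∀ (i j k : Fin 3) (y s : R), i ≠ j → j ≠ k → i ≠ k → D.π s = s →
      T D L (Matrix.single i j y) → T D L (Matrix.single k j (s * y)) := by
    intro i j k y s hij hjk hik hs h
    have h1 := (h.comm hn hik.symm hs)
    convert h1 using 1
    rw [Matrix.single_mul_single_same, Matrix.single_mul_single_of_ne _ _ _ _ hjk,
      Matrix.single_mul_single_of_ne _ _ _ _ hjk]
    simp
  have key : ∀ i j : Fin 3, i ≠ j → ∀ s, D.π s = s → T D L (Matrix.single i j x) →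
      T D L (Matrix.single i j (s * x)) := by
    intro i j hij s hs h
    obtain ⟨k, hjk, hik⟩ := third i j hij
    have h1 := m1 i j k x 1 hij hjk hik (map_one _) h
    have h2 := m1 i k j (1 * x) s hik hjk.symm hij hs h1
    rwa [one_mul] at h2
  have h3 := hex (fun a b => T D L (Matrix.single a b x))
    (fun i j k a b c h => by
      have := m1 i j k x 1 a b c (map_one _) h
      rwa [one_mul] at this)
    (fun i j k a b c h => by
      have := m2 i j k x 1 a b c (map_one _) h
      rwa [one_mul] at this) i j k l hij hkl hx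
  exact key k l hkl r hr h3

/-- generation -/
lemma T.gen {L : Subgroup (SL3 R)} (hn : ∀ h ∈ H D, ∀ l ∈ L, h * l * h⁻¹ ∈ L)
    (J : Set R)
    (hs : ∀ i j, i ≠ j → ∀ x ∈ J, T D L (Matrix.single i j x))
    (X : Matrix (Fin 3) (Fin 3) R) (hX : ∀ i j, X i j ∈ J)
    (htr : X 0 0 + X 1 1 + X 2 2 = 0) : T D L X := by
  have d : ∀ i j, i ≠ j → ∀ x ∈ J, T D L (Matrix.single j j x - Matrix.single i i x) := by
    intro i j hij x hx
    have h1 := (hs i j hij x hx).comm hn hij.symm (map_one D.π)
    have h2 := h1.add (hs j i hij.symm x hx)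
    convert h2 using 1
    rw [Matrix.single_mul_single_same, Matrix.single_mul_single_same,
      Matrix.single_mul_single_same]
    simp
  have h := (((((((hs 0 1 (by decide) _ (hX 0 1)).add (hs 0 2 (by decide) _ (hX 0 2))).add
    (hs 1 0 (by decide) _ (hX 1 0))).add (hs 1 2 (by decide) _ (hX 1 2))).add
    (hs 2 0 (by decide) _ (hX 2 0))).add (hs 2 1 (by decide) _ (hX 2 1))).add
    (d 2 0 (by decide) _ (hX 0 0))).add (d 2 1 (by decide) _ (hX 1 1))
  convert h using 1
  ext i j
  fin_cases i <;> fin_cases j <;> simp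
  linear_combination htr

lemma tr_zero (D : Data R) (X : Matrix (Fin 3) (Fin 3) R) (hX : ∀ i j, D.π (X i j) = 0)
    (hdet : (1 + X).det = 1) : X 0 0 + X 1 1 + X 2 2 = 0 := by
  have h : ∀ i j k l, X i j * X k l = 0 := fun i j k l => D.sq _ _ (hX i j) (hX k l)
  rw [Matrix.det_fin_three] at hdet
  simp only [Matrix.add_apply, Matrix.one_apply_eq, Matrix.one_apply_ne (show (0 : Fin 3) ≠ 1 by decide),
    Matrix.one_apply_ne (show (0 : Fin 3) ≠ 2 by decide),
    Matrix.one_apply_ne (show (1 : Fin 3) ≠ 0 by decide),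
    Matrix.one_apply_ne (show (1 : Fin 3) ≠ 2 by decide),
    Matrix.one_apply_ne (show (2 : Fin 3) ≠ 0 by decide),
    Matrix.one_apply_ne (show (2 : Fin 3) ≠ 1 by decide), zero_add] at hdet
  linear_combination hdet - (1 + X 2 2) * h 0 0 1 1 - h 0 0 2 2 - h 1 1 2 2
    + (1 + X 0 0) * h 1 2 2 1 + (1 + X 2 2) * h 0 1 1 0 - X 2 0 * h 0 1 1 2 - X 2 1 * h 0 2 1 0
    + (1 + X 1 1) * h 0 2 2 0

/-- every element differs from an element of `H` by an element of the kernel -/
lemma decomp (D : Data R) (g : SL3 R) : ∃ n : SL3 R, ∃ h ∈ H D, g = n * h ∧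
    (∀ i j, D.π ((n.val - 1) i j) = 0) := by
  refine ⟨g * (Matrix.SpecialLinearGroup.map D.π g)⁻¹, Matrix.SpecialLinearGroup.map D.π g,
    ?_, by group, ?_⟩
  · intro i j
    exact D.idem _
  · have hk : Matrix.SpecialLinearGroup.map D.π (g * (Matrix.SpecialLinearGroup.map D.π g)⁻¹) = 1 := by
      rw [map_mul, map_inv]
      have : Matrix.SpecialLinearGroup.map D.π (Matrix.SpecialLinearGroup.map D.π g) =
          Matrix.SpecialLinearGroup.map D.π g := by
        apply Subtype.ext
        ext i j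
        exact D.idem _
      rw [this, mul_inv_cancel]
    generalize g * (Matrix.SpecialLinearGroup.map D.π g)⁻¹ = n at hk
    intro i j
    have h3 : D.π (n.val i j) = (1 : Matrix (Fin 3) (Fin 3) R) i j :=
      congrArg (fun z : SL3 R => z.val i j) hk
    rw [Matrix.sub_apply, map_sub, h3, Matrix.one_apply]
    split_ifs <;> simp

lemma T.of_mem {D : Data R} {L : Subgroup (SL3 R)} {n : SL3 R} (hn : n ∈ L)
    (h : ∀ i j, D.π ((n.val - 1) i j) = 0) : T D L (n.val - 1) ∧
    (n.val - 1) 0 0 + (n.val - 1) 1 1 + (n.val - 1) 2 2 = 0 := by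
  refine ⟨⟨h, n, hn, by abel⟩, tr_zero D _ h ?_⟩
  have : 1 + (n.val - 1) = n.val := by abel
  rw [this]; exact n.2

lemma T.mem {D : Data R} {L : Subgroup (SL3 R)} {n : SL3 R} (h : T D L (n.val - 1)) : n ∈ L := by
  obtain ⟨-, m, hm, hm1⟩ := h
  have : n = m := by
    apply Subtype.ext
    rw [hm1]; abel
  rw [this]; exact hm

lemma T.single_iff {D : Data R} {L : Subgroup (SL3 R)} {i j : Fin 3} (hij : i ≠ j) {x : R}
    (h : T D L (Matrix.single i j x)) : x ∈ S L i j hij := by
  obtain ⟨-, m, hm, hm1⟩ := h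
  have : e i j hij x = m := by
    apply Subtype.ext
    rw [hm1, e_val]
  change e i j hij x ∈ L
  rw [this]; exact hm

lemma T.of_single {D : Data R} {L : Subgroup (SL3 R)} {i j : Fin 3} (hij : i ≠ j) {x : R}
    (hx : D.π x = 0) (h : x ∈ S L i j hij) : T D L (Matrix.single i j x) := by
  refine ⟨?_, _, h, rfl⟩
  intro a b
  rw [Matrix.single_apply]
  split_ifs
  · exact hx
  · exact map_zero _

lemma T.pi {D : Data R} {L : Subgroup (SL3 R)} {i j : Fin 3} {x : R}
    (h : T D L (Matrix.single i j x)) : D.π x = 0 := by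
  have := h.1 i j
  rwa [Matrix.single_apply_same] at this

lemma w_pi (D : Data R) (m : ℕ) : D.π (D.w m) = 0 := D.J_le m _ ((D.w_mem m m).2 rfl)

lemma w_ne (D : Data R) (m : ℕ) : D.w m ≠ 0 := by
  intro h
  have h1 : D.w m ∈ D.J (m + 1) := by rw [h]; exact Ideal.zero_mem _
  have := (D.w_mem m (m + 1)).1 h1
  omega

variable [IsTopologicalRing R]

omit [IsTopologicalRing R] in
lemma continuous_entry (i j : Fin 3) : Continuous (fun g : SL3 R => g.val i j) := by
  have h : Continuous (fun g : SL3 R => g.val) := continuous_subtype_val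
  exact h.matrix_elem i j

omit [IsTopologicalRing R] in
lemma H_closed (D : Data R) : IsClosed (H D : Set (SL3 R)) := by
  have : (H D : Set (SL3 R)) = ⋂ i, ⋂ j, (fun g : SL3 R => g.val i j) ⁻¹' {x : R | D.π x = x} := by
    ext g
    simp only [Set.mem_iInter]
    exact Iff.rfl
  rw [this]
  exact isClosed_iInter fun i => isClosed_iInter fun j => D.closedK.preimage (continuous_entry i j)

lemma M_closed (D : Data R) (m : ℕ) : IsClosed (M (D.J m) : Set (SL3 R)) := by
  have : (M (D.J m) : Set (SL3 R)) =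
      ⋂ i, ⋂ j, (fun g : SL3 R => (g.val - 1) i j) ⁻¹' (D.J m : Set R) := by
    ext g
    simp only [Set.mem_iInter]
    exact mem_M _ _
  rw [this]
  refine isClosed_iInter fun i => isClosed_iInter fun j => (D.J_closed m).preimage ?_
  exact (continuous_entry i j).sub continuous_const

omit [IsTopologicalRing R] in
lemma e_w_not_mem_H (D : Data R) (m : ℕ) : e 0 1 (by decide) (D.w m) ∉ H D := by
  intro h
  have h1 := h 0 1
  rw [e_val, Matrix.add_apply, Matrix.single_apply_same,
    Matrix.one_apply_ne (by decide), zero_add, w_pi] at h1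
  exact w_ne D m h1.symm

omit [IsTopologicalRing R] in
lemma H_ne_top (D : Data R) : H D ≠ ⊤ := by
  intro h
  have := e_w_not_mem_H D 0
  rw [h] at this
  exact this trivial

/-- `H` is maximal among closed subgroups -/
theorem irreducible (D : Data R) (L : Subgroup (SL3 R)) (hL : IsClosed (L : Set (SL3 R)))
    (hHL : H D ≤ L) : L = H D ∨ L = ⊤ := by
  by_cases hle : L ≤ H D
  · left; exact le_antisymm hle hHL
  right
  have hn : ∀ h ∈ H D, ∀ l ∈ L, h * l * h⁻¹ ∈ L := fun h hh l hl =>
    L.mul_mem (L.mul_mem (hHL hh) hl) (L.inv_mem (hHL hh))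
  obtain ⟨g, hgL, hgH⟩ := SetLike.not_le_iff_exists.1 hle
  obtain ⟨n, h, hh, hgn, hn1⟩ := decomp D g
  have hnL : n ∈ L := by
    have : n = g * h⁻¹ := by rw [hgn]; group
    rw [this]
    exact L.mul_mem hgL (L.inv_mem (hHL hh))
  have hn0 : n.val - 1 ≠ 0 := by
    intro h0
    apply hgH
    have : n = 1 := by
      apply Subtype.ext
      rw [sub_eq_zero.1 h0, Matrix.SpecialLinearGroup.coe_one]
    rw [hgn, this, one_mul]
    exact hh
  obtain ⟨hT, htr⟩ := T.of_mem (D := D) hnL hn1
  obtain ⟨i, j, x, hij, hx0, hxI, hx⟩ := hT.extract hn hn0 htr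
  have hall : ∀ k l (hkl : k ≠ l) (y : R), y ∈ S L k l hkl := by
    intro k l hkl
    apply D.dense x hxI hx0 (S L k l hkl) (S_closed L hL k l hkl)
    · intro r hr
      apply hHL
      intro a b
      rw [e_val, Matrix.add_apply, Matrix.one_apply, Matrix.single_apply]
      split_ifs <;> simp [hr]
    · intro r hr
      exact (hx.spread hn hij hkl hr).single_iff hkl
  rw [eq_top_iff]
  intro g' _
  obtain ⟨n', h', hh', hgn', hn1'⟩ := decomp D g'
  rw [hgn']
  refine L.mul_mem ?_ (hHL hh')
  apply T.mem (D := D)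
  apply T.gen hn {y : R | D.π y = 0}
  · intro i j hij y hy
    exact T.of_single hij hy (hall i j hij y)
  · exact hn1'
  · exact (T.of_mem (D := D) (L := ⊤) (n := n') trivial hn1').2

/-- faithfulness -/
theorem faithful (D : Data R) (c : SL3 R) (hc : ∀ g : SL3 R, g⁻¹ * c * g ∈ H D) : c = 1 := by
  have hcH : c ∈ H D := by simpa using hc 1
  -- c commutes with the elementary matrices over I
  have key : ∀ i j (hij : i ≠ j), c * e i j hij (D.w 0) = e i j hij (D.w 0) * c := by
    intro i j hij
    set n := e i j hij (D.w 0) with hnn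
    have h1 : c⁻¹ * (n⁻¹ * c * n) ∈ H D := (H D).mul_mem ((H D).inv_mem hcH) (hc n)
    have h2 : c⁻¹ * (n⁻¹ * c * n) ∈ (Matrix.SpecialLinearGroup.map (n := Fin 3) D.π).ker := by
      rw [MonoidHom.mem_ker]
      have : Matrix.SpecialLinearGroup.map (n := Fin 3) D.π n = 1 := by
        apply Subtype.ext
        ext a b
        change D.π (n.val a b) = (1 : Matrix (Fin 3) (Fin 3) R) a b
        rw [hnn, e_val, Matrix.add_apply, Matrix.one_apply, Matrix.single_apply]
        split_ifs <;> simp [w_pi]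
      simp only [map_mul, map_inv, this]
      group
    have h3 : c⁻¹ * (n⁻¹ * c * n) = 1 := by
      rw [mem_H] at h1
      rw [MonoidHom.mem_ker] at h2
      rw [← h1, h2]
    calc c * n = n * (c * (c⁻¹ * (n⁻¹ * c * n))) := by group
      _ = n * c := by rw [h3, mul_one]
  have key2 : ∀ i j, i ≠ j → c.val * Matrix.single i j (D.w 0) = Matrix.single i j (D.w 0) * c.val := by
    intro i j hij
    have h := congrArg (fun z : SL3 R => z.val) (key i j hij)
    simp only [Matrix.SpecialLinearGroup.coe_mul, e_val] at h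
    rw [mul_add, add_mul, mul_one, one_mul] at h
    exact add_left_cancel h
  have hoff : ∀ k i, k ≠ i → c.val k i = 0 := by
    intro k i hki
    obtain ⟨j, hij⟩ : ∃ j, i ≠ j := ⟨k, hki.symm⟩
    have h := congrFun (congrFun (key2 i j hij) k) j
    rw [Matrix.mul_single_apply_same, Matrix.single_mul_apply_of_ne _ _ _ _ _ hki] at h
    rcases D.cancel _ _ (hcH k i) (w_pi D 0) h with h | h
    · exact h
    · exact absurd h (w_ne D 0)
  have hdiag : ∀ i j, i ≠ j → c.val i i = c.val j j := by
    intro i j hij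
    have h := congrFun (congrFun (key2 i j hij) i) j
    rw [Matrix.mul_single_apply_same, Matrix.single_mul_apply_same] at h
    have h2 : (c.val i i - c.val j j) * D.w 0 = 0 := by linear_combination h
    rcases D.cancel _ _ (by rw [map_sub, hcH i i, hcH j j]) (w_pi D 0) h2 with h | h
    · exact sub_eq_zero.1 h
    · exact absurd h (w_ne D 0)
  have hdet := c.2
  rw [Matrix.det_fin_three] at hdet
  have d1 := hdiag 1 0 (by decide)
  have d2 := hdiag 2 0 (by decide)
  have o01 := hoff 0 1 (by decide)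
  have o02 := hoff 0 2 (by decide)
  have o10 := hoff 1 0 (by decide)
  have o12 := hoff 1 2 (by decide)
  have o20 := hoff 2 0 (by decide)
  have o21 := hoff 2 1 (by decide)
  change c.val 0 0 * c.val 1 1 * c.val 2 2 - c.val 0 0 * c.val 1 2 * c.val 2 1
    - c.val 0 1 * c.val 1 0 * c.val 2 2 + c.val 0 1 * c.val 1 2 * c.val 2 0
    + c.val 0 2 * c.val 1 0 * c.val 2 1 - c.val 0 2 * c.val 1 1 * c.val 2 0 = 1 at hdet
  rw [d1, d2, o01, o02, o12, o10] at hdet
  have h1 : c.val 0 0 = 1 := by
    apply D.cube _ (hcH 0 0)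
    linear_combination hdet
  apply Subtype.ext
  ext i j
  change c.val i j = (1 : Matrix (Fin 3) (Fin 3) R) i j
  by_cases h : i = j
  · subst h
    rw [Matrix.one_apply_eq]
    fin_cases i
    · exact h1
    · exact d1.trans h1
    · exact d2.trans h1
  · rw [Matrix.one_apply_ne h]; exact hoff i j h

/-- `M (J m)` is minimal among nontrivial closed normal subgroups -/
theorem minimal (D : Data R) (m : ℕ) (P : Subgroup (SL3 R)) (hP : IsClosed (P : Set (SL3 R)))
    (hPn : P.Normal) (hPM : P ≤ M (D.J m)) (hP0 : P ≠ ⊥) : P = M (D.J m) := by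
  apply le_antisymm hPM
  have hn : ∀ h ∈ H D, ∀ l ∈ P, h * l * h⁻¹ ∈ P := fun h _ l hl => hPn.conj_mem l hl h
  obtain ⟨n, hnP, hn1⟩ := (Subgroup.ne_bot_iff_exists_ne_one).1 hP0 |>.elim
    (fun a ha => (⟨a.1, a.2, fun h => ha (Subtype.ext h)⟩ : ∃ n, n ∈ P ∧ n ≠ 1))
  have hnM := (mem_M _ _).1 (hPM hnP)
  have hT := T.of_mem (D := D) hnP (fun i j => D.J_le m _ (hnM i j))
  have hn0 : n.val - 1 ≠ 0 := by
    intro h0
    apply hn1
    apply Subtype.ext
    rw [sub_eq_zero.1 h0, Matrix.SpecialLinearGroup.coe_one]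
  obtain ⟨i, j, x, hij, hx0, hxI, hx⟩ := hT.1.extract hn hn0 hT.2
  have hxJ : x ∈ D.J m := by
    have h1 : e i j hij x ∈ P := hx.single_iff hij
    have h2 := (mem_M _ _).1 (hPM h1) i j
    rw [e_val] at h2
    simpa using h2
  have hall : ∀ k l (hkl : k ≠ l), ∀ y ∈ D.J m, y ∈ S P k l hkl := by
    intro k l hkl
    apply D.J_simple m x hxJ hx0 (S P k l hkl) (S_closed P hP k l hkl)
    intro r hr
    exact (hx.spread hn hij hkl hr).single_iff hkl
  intro g hg
  have hgM := (mem_M _ _).1 hg
  apply T.mem (D := D)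
  apply T.gen hn (D.J m : Set R)
  · intro i j hij y hy
    exact T.of_single hij (D.J_le m _ hy) (hall i j hij y hy)
  · exact hgM
  · exact (T.of_mem (D := D) (L := ⊤) (n := g) trivial (fun i j => D.J_le m _ (hgM i j))).2

omit [IsTopologicalRing R] in
lemma e_w_mem_M (D : Data R) (m m' : ℕ) : e 0 1 (by decide) (D.w m) ∈ M (D.J m') ↔ m = m' := by
  rw [mem_M]
  constructor
  · intro h
    have h1 := h 0 1
    rw [e_val] at h1
    rw [← D.w_mem]
    simpa using h1
  · rintro rfl i j
    rw [e_val]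
    have : (1 + Matrix.single 0 1 (D.w m) - 1 : Matrix (Fin 3) (Fin 3) R) =
      Matrix.single 0 1 (D.w m) := by abel
    rw [this, Matrix.single_apply]
    split_ifs
    · exact (D.w_mem m m).2 rfl
    · exact Ideal.zero_mem _

omit [IsTopologicalRing R] in
lemma M_ne_bot (D : Data R) (m : ℕ) : M (D.J m) ≠ ⊥ := by
  intro h
  have h1 := (e_w_mem_M D m m).2 rfl
  rw [h, Subgroup.mem_bot] at h1
  have h2 := e_w_not_mem_H D m
  rw [h1] at h2
  exact h2 (H D).one_mem

omit [IsTopologicalRing R] in
lemma M_injective (D : Data R) : Function.Injective (fun m => M (D.J m)) := by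
  intro m m' h
  have h1 := (e_w_mem_M D m m).2 rfl
  have h2 : M (D.J m) = M (D.J m') := h
  rw [h2] at h1
  exact (e_w_mem_M D m m').1 h1

omit [IsTopologicalRing R] in
/-- elements congruent to `1` modulo `I` commute -/
lemma comm_of (D : Data R) (a b : SL3 R) (ha : ∀ i j, D.π ((a.val - 1) i j) = 0)
    (hb : ∀ i j, D.π ((b.val - 1) i j) = 0) : a * b = b * a := by
  apply Subtype.ext
  rw [Matrix.SpecialLinearGroup.coe_mul, Matrix.SpecialLinearGroup.coe_mul]
  have h1 := mul_zero_of D _ _ ha hb
  have h2 := mul_zero_of D _ _ hb ha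
  linear_combination (norm := noncomm_ring) h1 - h2

end

end Pool.Agent.X68.IrrCoset
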