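import Pool.Agent.X68.IrrCoset

namespace Pool.Agent.X68.IrrCoset

open Polynomial TrivSqZeroExt

instance : Countable ℚ[X] := by
  rw [← Cardinal.mk_le_aleph0_iff]
  refine (Polynomial.cardinalMk_le_max (R := ℚ)).trans ?_
  simp

/-- existence of `a` transcendental and `α` not in `ℚ(a)`. -/
lemma exists_reals : ∃ a α : ℝ, Transcendental ℚ a ∧ ∀ p q : ℚ[X], q ≠ 0 →
    aeval a p - α * aeval a q ≠ 0 := by
  have h1 : ∃ a : ℝ, Transcendental ℚ a := by
    by_contra hcon
    push Not at hcon
    have h2 : (Set.univ : Set ℝ) ⊆ {x : ℝ | IsAlgebraic ℚ x} := by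
      intro x _
      have := hcon x
      rw [Transcendental, not_not] at this
      exact this
    exact Set.not_countable_univ ((Algebraic.countable ℚ ℝ).mono h2)
  obtain ⟨a, ha⟩ := h1
  have h3 : (Set.range fun z : ℚ[X] × ℚ[X] => aeval a z.1 / aeval a z.2).Countable :=
    Set.countable_range _
  obtain ⟨α, hα⟩ : ∃ α : ℝ, α ∉ Set.range fun z : ℚ[X] × ℚ[X] => aeval a z.1 / aeval a z.2 := by
    by_contra hcon
    push Not at hcon
    exact Set.not_countable_univ (h3.mono fun x _ => hcon x)
  refine ⟨a, α, ha, fun p q hq h => hα ⟨(p, q), ?_⟩⟩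
  have hq0 : aeval a q ≠ 0 := by
    intro h0
    exact ha ⟨q, hq, h0⟩
  change aeval a p / aeval a q = α
  rw [div_eq_iff hq0]
  linear_combination h

noncomputable def a : ℝ := exists_reals.choose
noncomputable def α : ℝ := exists_reals.choose_spec.choose

lemma a_inj (p : ℚ[X]) (h : aeval a p = 0) : p = 0 := by
  by_contra hp
  exact exists_reals.choose_spec.choose_spec.1 ⟨p, hp, h⟩

lemma α_spec (p q : ℚ[X]) (h : aeval a p - α * aeval a q = 0) : p = 0 ∧ q = 0 := by
  have hq : q = 0 := by
    by_contra hq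
    exact exists_reals.choose_spec.choose_spec.2 p q hq h
  subst hq
  rw [map_zero, mul_zero, sub_zero] at h
  exact ⟨a_inj p h, rfl⟩

/-- the ring `K ⊕ K²` -/
abbrev R : Type := TrivSqZeroExt ℚ[X] (ℚ[X] × ℚ[X])

abbrev B := TrivSqZeroExt ℝ (ℝ × ℝ)

noncomputable section

def φ : ℚ[X] →+* B := (Polynomial.aeval (inl a + inr ((1 : ℝ), (0 : ℝ)) : B)).toRingHom

lemma φ_X : φ X = inl a + inr ((1 : ℝ), (0 : ℝ)) := by
  simp [φ]

lemma φ_C (r : ℚ) : φ (C r) = inl (r : ℝ) := by
  simp only [φ, AlgHom.toRingHom_eq_coe, RingHom.coe_coe, aeval_C]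
  rw [algebraMap_eq_inl']
  rfl

lemma φ_fst (f : ℚ[X]) : (φ f).fst = aeval a f := by
  have h : (TrivSqZeroExt.fstHom ℚ ℝ (ℝ × ℝ)).comp (Polynomial.aeval (inl a + inr ((1 : ℝ), (0 : ℝ)) : B))
      = aeval a := by
    apply Polynomial.algHom_ext
    simp
  exact DFunLike.congr_fun h f

lemma φ_snd2 (f : ℚ[X]) : (φ f).snd.2 = 0 := by
  induction f using Polynomial.induction_on with
  | C r => rw [φ_C]; simp
  | add p q hp hq => rw [map_add, snd_add, Prod.snd_add, hp, hq, add_zero]
  | monomial n r h =>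
    rw [pow_succ, ← mul_assoc, map_mul, snd_mul]
    rw [Prod.snd_add, Prod.smul_snd, Prod.smul_snd, h, φ_X]
    simp

def lam (z : ℚ[X] × ℚ[X]) : B := inr (-aeval a z.2, aeval a z.1 - α * aeval a z.2)

def Φ : R →+* B where
  toFun x := φ (fst x) + lam (snd x)
  map_one' := by
    simp [lam]
    rfl
  map_mul' := by
    intro x y
    have key : ∀ (f : ℚ[X]) (z : ℚ[X] × ℚ[X]), φ f * lam z = lam (f • z) := by
      intro f z
      apply TrivSqZeroExt.ext
      · simp [lam]
      · apply Prod.ext
        · simp [lam, φ_fst]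
        · simp [lam, φ_fst]
          ring
    have hl : ∀ z w, lam z * lam w = 0 := by
      intro z w
      simp [lam]
    have hadd : ∀ z w, lam (z + w) = lam z + lam w := by
      intro z w
      apply TrivSqZeroExt.ext
      · simp [lam]
      · apply Prod.ext
        · simp [lam]; ring
        · simp [lam]; ring
    have hs : (x * y).snd = x.fst • y.snd + y.fst • x.snd := by
      rw [snd_mul, op_smul_eq_smul]
    rw [hs, fst_mul, map_mul, hadd, ← key, ← key]
    linear_combination -hl x.snd y.snd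
  map_zero' := by
    simp [lam]
    rfl
  map_add' := by
    intro x y
    have hadd : ∀ z w, lam (z + w) = lam z + lam w := by
      intro z w
      apply TrivSqZeroExt.ext
      · simp [lam]
      · apply Prod.ext
        · simp [lam]; ring
        · simp [lam]; ring
    rw [fst_add, snd_add, map_add, hadd]
    ring

lemma Φ_fst (x : R) : (Φ x).fst = aeval a x.fst := by
  simp [Φ, lam, φ_fst]

lemma Φ_snd2 (x : R) : (Φ x).snd.2 = aeval a x.snd.1 - α * aeval a x.snd.2 := by
  simp [Φ, lam, φ_snd2]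

lemma Φ_snd1 (x : R) (h : x.fst = 0) : (Φ x).snd.1 = - aeval a x.snd.2 := by
  simp [Φ, lam, h]

lemma Φ_inl (f : ℚ[X]) : Φ (inl f) = φ f := by
  simp [Φ, lam]
  rfl

instance topR : TopologicalSpace R := TopologicalSpace.induced Φ inferInstance

lemma ind : Topology.IsInducing Φ := ⟨rfl⟩

lemma contΦ : Continuous Φ := ind.continuous

instance : IsTopologicalRing R where
  continuous_add := by
    rw [ind.continuous_iff]
    have : (Φ ∘ fun p : R × R => p.1 + p.2) = fun p : R × R => Φ p.1 + Φ p.2 := by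
      ext1 p
      exact map_add Φ _ _
    rw [this]
    exact (contΦ.comp _root_.continuous_fst).add (contΦ.comp _root_.continuous_snd)
  continuous_mul := by
    rw [ind.continuous_iff]
    have : (Φ ∘ fun p : R × R => p.1 * p.2) = fun p : R × R => Φ p.1 * Φ p.2 := by
      ext1 p
      exact map_mul Φ _ _
    rw [this]
    exact (contΦ.comp _root_.continuous_fst).mul (contΦ.comp _root_.continuous_snd)
  continuous_neg := by
    rw [ind.continuous_iff]
    have : (Φ ∘ fun p : R => -p) = fun p : R => -Φ p := by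
      ext1 p
      exact map_neg Φ _
    rw [this]
    exact contΦ.neg

lemma cont0 : Continuous (fun x : R => (Φ x).fst) := TrivSqZeroExt.continuous_fst.comp contΦ
lemma cont1 : Continuous (fun x : R => (Φ x).snd.1) :=
  _root_.continuous_fst.comp (TrivSqZeroExt.continuous_snd.comp contΦ)
lemma cont2 : Continuous (fun x : R => (Φ x).snd.2) :=
  _root_.continuous_snd.comp (TrivSqZeroExt.continuous_snd.comp contΦ)

/-- the projection -/
def proj : R →+* R := (inlHom ℚ[X] (ℚ[X] × ℚ[X])).comp (fstHom ℚ ℚ[X] (ℚ[X] × ℚ[X])).toRingHom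

lemma proj_apply (x : R) : proj x = inl x.fst := rfl

lemma proj_zero (x : R) : proj x = 0 ↔ x.fst = 0 := by
  rw [proj_apply]
  constructor
  · intro h
    have := congrArg TrivSqZeroExt.fst h
    simpa using this
  · intro h
    rw [h]; simp

lemma proj_fix (x : R) : proj x = x ↔ x.snd = 0 := by
  rw [proj_apply]
  constructor
  · intro h
    have := congrArg TrivSqZeroExt.snd h
    simpa using this.symm
  · intro h
    apply TrivSqZeroExt.ext
    · simp
    · simp [h]

/-- a closed additive subgroup of `B` containing all rational multiples contains all real ones -/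
lemma line (T : AddSubgroup B) (hT : IsClosed (T : Set B)) (v : B)
    (h : ∀ q : ℚ, (q : ℝ) • v ∈ T) (t : ℝ) : t • v ∈ T := by
  have hc : IsClosed {t : ℝ | t • v ∈ T} := by
    have : Continuous (fun t : ℝ => t • v) := by fun_prop
    exact hT.preimage this
  have hd : closure (Set.range ((↑) : ℚ → ℝ)) ⊆ {t : ℝ | t • v ∈ T} := by
    apply closure_minimal _ hc
    rintro _ ⟨q, rfl⟩
    exact h q
  exact hd (Rat.denseRange_cast t)

/-- the closed subgroup generated in `B` -/
def clo (S : AddSubgroup R) : AddSubgroup B := (S.map Φ.toAddMonoidHom).topologicalClosure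

lemma clo_closed (S : AddSubgroup R) : IsClosed (clo S : Set B) :=
  AddSubgroup.isClosed_topologicalClosure _

lemma mem_clo (S : AddSubgroup R) {x : R} (h : x ∈ S) : Φ x ∈ clo S :=
  AddSubgroup.le_topologicalClosure _ ⟨x, h, rfl⟩

lemma of_clo (S : AddSubgroup R) (hS : IsClosed (S : Set R)) {x : R} (h : Φ x ∈ clo S) : x ∈ S := by
  have h1 : x ∈ closure (S : Set R) := by
    rw [ind.closure_eq_preimage_closure_image]
    exact h
  rw [hS.closure_eq] at h1
  exact h1

lemma Φ_smul (q : ℚ) (x : R) : Φ (inl (C q) * x) = (q : ℝ) • Φ x := by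
  rw [map_mul, Φ_inl, φ_C, inl_mul_eq_smul]

lemma mul_mem_line (S : AddSubgroup R) (x : R) (h : ∀ k, proj k = k → k * x ∈ S) (t : ℝ) :
    t • Φ x ∈ clo S := by
  apply line _ (clo_closed S)
  intro q
  rw [← Φ_smul]
  apply mem_clo
  apply h
  rw [proj_fix]; simp

lemma eps_mem (S : AddSubgroup R) (h : ∀ k, proj k = k → k ∈ S) (t : ℝ) :
    t • (inr ((1 : ℝ), (0 : ℝ)) : B) ∈ clo S := by
  apply line _ (clo_closed S)
  intro s
  have h1 : ∀ r : ℚ, (s : ℝ) • (inl (a - (r : ℝ)) + inr ((1 : ℝ), (0 : ℝ)) : B) ∈ clo S := by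
    intro r
    have h2 : Φ (inl (C s) * inl (X - C r)) ∈ clo S := by
      apply mem_clo
      apply h
      rw [proj_fix, ← inl_mul]
      simp
    rw [Φ_smul, Φ_inl, map_sub, φ_X, φ_C] at h2
    convert h2 using 2
    rw [inl_sub]
    abel
  have hc : IsClosed {t : ℝ | (s : ℝ) • (inl (a - t) + inr ((1 : ℝ), (0 : ℝ)) : B) ∈ clo S} := by
    have : Continuous (fun t : ℝ => (s : ℝ) • (inl (a - t) + inr ((1 : ℝ), (0 : ℝ)) : B)) := by
      have h3 : Continuous (fun t : ℝ => (inl (a - t) : B)) :=
        TrivSqZeroExt.continuous_inl.comp (by fun_prop)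
      exact (h3.add continuous_const).const_smul (s : ℝ)
    exact (clo_closed S).preimage this
  have hd : closure (Set.range ((↑) : ℚ → ℝ)) ⊆
      {t : ℝ | (s : ℝ) • (inl (a - t) + inr ((1 : ℝ), (0 : ℝ)) : B) ∈ clo S} := by
    apply closure_minimal _ hc
    rintro _ ⟨q, rfl⟩
    exact h1 q
  have := hd (Rat.denseRange_cast a)
  change (s : ℝ) • (inl (a - a) + inr ((1 : ℝ), (0 : ℝ)) : B) ∈ clo S at this
  simpa using this

/-- the ideals `{(0, (m q, q))}` -/
def Jm (m : ℕ) : Ideal R where
  carrier := {x | x.fst = 0 ∧ x.snd.1 = (m : ℚ[X]) * x.snd.2}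
  zero_mem' := by simp
  add_mem' := by
    rintro x y ⟨hx, hx'⟩ ⟨hy, hy'⟩
    refine ⟨by simp [hx, hy], ?_⟩
    simp only [snd_add, Prod.fst_add, Prod.snd_add, hx', hy']
    ring
  smul_mem' := by
    rintro c x ⟨hx, hx'⟩
    refine ⟨by simp [hx], ?_⟩
    simp only [smul_eq_mul, snd_mul, hx, Prod.smul_fst, Prod.smul_snd,
      hx', MulOpposite.op_zero, zero_smul, add_zero]
    ring

lemma mem_Jm (m : ℕ) (x : R) : x ∈ Jm m ↔ x.fst = 0 ∧ x.snd.1 = (m : ℚ[X]) * x.snd.2 := Iff.rfl

lemma mem_Jm' (m : ℕ) (x : R) : x ∈ Jm m ↔ (Φ x).fst = 0 ∧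
    (Φ x).snd.2 + ((m : ℝ) - α) * (Φ x).snd.1 = 0 := by
  rw [mem_Jm, Φ_fst, Φ_snd2]
  constructor
  · rintro ⟨h1, h2⟩
    refine ⟨by rw [h1, map_zero], ?_⟩
    rw [Φ_snd1 x h1, h2]
    simp
    ring
  · rintro ⟨h1, h2⟩
    have h1' := a_inj _ h1
    refine ⟨h1', ?_⟩
    rw [Φ_snd1 x h1'] at h2
    have h3 : aeval a (x.snd.1 - (m : ℚ[X]) * x.snd.2) = 0 := by
      simp
      linear_combination h2
    exact sub_eq_zero.1 (a_inj _ h3)

def data : Data R where
  π := proj
  idem := fun x => by rw [proj_fix, proj_apply]; simp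
  sq := by
    intro x y hx hy
    rw [proj_zero] at hx hy
    apply TrivSqZeroExt.ext
    · simp [hx]
    · simp [hx, hy]
  two := by
    intro x hx
    rw [two_mul] at hx
    have h1 := congrArg TrivSqZeroExt.fst hx
    have h2 := congrArg (fun z => (TrivSqZeroExt.snd z).1) hx
    have h3 := congrArg (fun z => (TrivSqZeroExt.snd z).2) hx
    apply TrivSqZeroExt.ext
    · simpa using h1
    · apply Prod.ext
      · simpa using h2
      · simpa using h3
  three := by
    intro x hx
    have e : (3 : R) * x = x + x + x := by ring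
    rw [e] at hx
    have h1 : x.fst + x.fst + x.fst = 0 := congrArg TrivSqZeroExt.fst hx
    have h2 : x.snd.1 + x.snd.1 + x.snd.1 = 0 := congrArg (fun z => (TrivSqZeroExt.snd z).1) hx
    have h3 : x.snd.2 + x.snd.2 + x.snd.2 = 0 := congrArg (fun z => (TrivSqZeroExt.snd z).2) hx
    have key : ∀ z : ℚ[X], z + z + z = 0 → z = 0 := by
      intro z hz
      have : (3 : ℚ[X]) * z = 0 := by linear_combination hz
      simpa using this
    apply TrivSqZeroExt.ext
    · exact key _ h1
    · apply Prod.ext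
      · exact key _ h2
      · exact key _ h3
  closedK := by
    have : {x : R | proj x = x} = (fun x : R => (Φ x).snd.2) ⁻¹' {0} := by
      ext x
      simp only [Set.mem_ofPred_eq, Set.mem_preimage, Set.mem_singleton_iff]
      rw [proj_fix, Φ_snd2]
      constructor
      · intro h
        rw [h]; simp
      · intro h
        obtain ⟨h1, h2⟩ := α_spec _ _ h
        exact Prod.ext h1 h2
    rw [this]
    exact isClosed_singleton.preimage cont2
  dense := by
    intro x hx hx0 S hS hK hKx y
    rw [proj_zero] at hx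
    have hx2 : (Φ x).snd.2 ≠ 0 := by
      intro h
      rw [Φ_snd2] at h
      obtain ⟨h1, h2⟩ := α_spec _ _ h
      exact hx0 (TrivSqZeroExt.ext hx (Prod.ext h1 h2))
    have hy : y = inl y.fst + (y - inl y.fst) := by abel
    rw [hy]
    refine S.add_mem (hK _ (by rw [proj_fix]; simp)) ?_
    generalize hz : y - inl y.fst = z
    have hz0 : z.fst = 0 := by rw [← hz]; simp
    apply of_clo S hS
    have e1 := mul_mem_line S x hKx ((Φ z).snd.2 / (Φ x).snd.2)
    have e2 := eps_mem S hK ((Φ z).snd.1 - (Φ z).snd.2 / (Φ x).snd.2 * (Φ x).snd.1)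
    have e3 := (clo S).add_mem e1 e2
    convert e3 using 1
    apply TrivSqZeroExt.ext
    · rw [Φ_fst, hz0]
      simp [Φ_fst, hx]
    · apply Prod.ext
      · simp
      · simp [hx2]
  cancel := by
    intro k x hk hx h
    rw [proj_fix] at hk
    rw [proj_zero] at hx
    have h1 : k.fst * x.snd.1 = 0 := by
      have := congrArg (fun z => (TrivSqZeroExt.snd z).1) h
      simpa [hk] using this
    have h2 : k.fst * x.snd.2 = 0 := by
      have := congrArg (fun z => (TrivSqZeroExt.snd z).2) h
      simpa [hk] using this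
    by_cases hk0 : k.fst = 0
    · left
      exact TrivSqZeroExt.ext hk0 hk
    · right
      apply TrivSqZeroExt.ext hx
      apply Prod.ext
      · exact (mul_eq_zero.1 h1).resolve_left hk0
      · exact (mul_eq_zero.1 h2).resolve_left hk0
  cube := by
    intro k hk h
    rw [proj_fix] at hk
    have h1 : k.fst ^ 3 = 1 := by
      have := congrArg TrivSqZeroExt.fst h
      simpa using this
    have h2 : (aeval a k.fst) ^ 3 = 1 := by
      rw [← map_pow, h1, map_one]
    have h3 : aeval a k.fst = 1 := by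
      have : (aeval a k.fst) ^ 3 = 1 ^ 3 := by rw [h2]; norm_num
      exact (Odd.strictMono_pow (R := ℝ) (n := 3) (by decide)).injective this
    have h4 : aeval a (k.fst - 1) = 0 := by
      rw [map_sub, h3, map_one, sub_self]
    apply TrivSqZeroExt.ext
    · simpa using sub_eq_zero.1 (a_inj _ h4)
    · simpa using hk
  J := Jm
  J_le := by
    intro m x hx
    rw [proj_zero]
    exact hx.1
  J_closed := by
    intro m
    have : (Jm m : Set R) = (fun x : R => (Φ x).fst) ⁻¹' {0} ∩
        (fun x : R => (Φ x).snd.2 + ((m : ℝ) - α) * (Φ x).snd.1) ⁻¹' {0} := by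
      ext x
      exact mem_Jm' m x
    rw [this]
    exact (isClosed_singleton.preimage cont0).inter
      (isClosed_singleton.preimage (cont2.add (continuous_const.mul cont1)))
  J_simple := by
    intro m x hx hx0 S hS hKx y hy
    rw [mem_Jm] at hx hy
    have hq : x.snd.2 ≠ 0 := by
      intro h
      apply hx0
      apply TrivSqZeroExt.ext hx.1
      apply Prod.ext
      · rw [hx.2, h]; simp
      · exact h
    have hq' : aeval a x.snd.2 ≠ 0 := fun h => hq (a_inj _ h)
    apply of_clo S hS
    have e1 := mul_mem_line S x hKx (aeval a y.snd.2 / aeval a x.snd.2)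
    convert e1 using 1
    apply TrivSqZeroExt.ext
    · simp [Φ_fst, hx.1, hy.1]
    · apply Prod.ext
      · rw [snd_smul, Prod.smul_fst, Φ_snd1 _ hx.1, Φ_snd1 _ hy.1, smul_eq_mul]
        field_simp
      · rw [snd_smul, Prod.smul_snd, Φ_snd2, Φ_snd2, hx.2, hy.2, smul_eq_mul]
        simp only [map_mul, map_natCast]
        field_simp
  w := fun m => inr ((m : ℚ[X]), 1)
  w_mem := by
    intro m m'
    rw [mem_Jm]
    simp

lemma Φ_inj : Function.Injective Φ := by
  rw [injective_iff_map_eq_zero]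
  intro x hx
  have h1 : x.fst = 0 := by
    apply a_inj
    rw [← Φ_fst, hx]; simp
  have h2 := Φ_snd2 x
  rw [hx] at h2
  obtain ⟨h3, h4⟩ := α_spec _ _ h2.symm
  exact TrivSqZeroExt.ext h1 (Prod.ext h3 h4)

instance : T2Space R := T2Space.of_injective_continuous Φ_inj contΦ

lemma SL3_t2 : T2Space (SL3 R) := inferInstance

end

end Pool.Agent.X68.IrrCoset
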